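import Pool.Agent.Run7.h753.Hensel2

/-!
# Rescaling at a smooth point
-/

set_option autoImplicit false
open scoped TensorProduct

namespace Run7.h753

universe u v w

open MvPolynomial

section

variable {Ω : Type v} [Field Ω] {ι : Type u}

/-- affine change of variables -/
noncomputable def aff (c d : ι → Ω) : MvPolynomial ι Ω →ₐ[Ω] MvPolynomial ι Ω :=
  aeval (fun o => C (c o) + C (d o) * X o)

lemma aff_X (c d : ι → Ω) (o : ι) : aff c d (X o) = C (c o) + C (d o) * X o := by
  unfold aff; rw [aeval_X]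

lemma aff_comp (c d : ι → Ω) (hd : ∀ o, d o ≠ 0) :
    (aff c d).comp (aff (fun o => - (c o) / d o) (fun o => (d o)⁻¹)) = AlgHom.id Ω _ := by
  apply MvPolynomial.algHom_ext
  intro o
  rw [AlgHom.comp_apply, aff_X, map_add, map_mul, aff_X, algHom_C, algHom_C, AlgHom.id_apply,
    algebraMap_eq, mul_add, ← mul_assoc, ← C_mul, ← C_mul, inv_mul_cancel₀ (hd o), C_1, one_mul,
    ← add_assoc, ← C_add]
  have : - (c o) / d o + (d o)⁻¹ * c o = 0 := by
    have := hd o
    field_simp
    ring
  rw [this, C_0, zero_add]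

lemma aff_comp' (c d : ι → Ω) (hd : ∀ o, d o ≠ 0) :
    (aff (fun o => - (c o) / d o) (fun o => (d o)⁻¹)).comp (aff c d) = AlgHom.id Ω _ := by
  apply MvPolynomial.algHom_ext
  intro o
  rw [AlgHom.comp_apply, aff_X, map_add, map_mul, aff_X, algHom_C, algHom_C, AlgHom.id_apply,
    algebraMap_eq, mul_add, ← mul_assoc, ← C_mul, ← C_mul, mul_inv_cancel₀ (hd o), C_1, one_mul,
    ← add_assoc, ← C_add]
  have : c o + d o * (- (c o) / d o) = 0 := by
    have := hd o
    field_simp
    ring
  rw [this, C_0, zero_add]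

lemma aff_rename {ι' : Type w} (g : ι' → ι) (c d : ι → Ω) (r : MvPolynomial ι' Ω) :
    aff c d (rename g r) = rename g (aff (c ∘ g) (d ∘ g) r) := by
  have : (aff c d).comp (rename g) = (rename g).comp (aff (c ∘ g) (d ∘ g)) := by
    apply MvPolynomial.algHom_ext
    intro o
    rw [AlgHom.comp_apply, AlgHom.comp_apply, rename_X, aff_X, aff_X, map_add, map_mul, rename_C,
      rename_C, rename_X]
    rfl
  exact DFunLike.congr_fun this r

/-- scaling of coefficients -/
lemma aff_scale_monomial (d : ι → Ω) (μ : ι →₀ ℕ) (a : Ω) :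
    aff (fun _ => 0) d (monomial μ a) = monomial μ (a * μ.prod (fun o k => d o ^ k)) := by
  unfold aff
  rw [aeval_monomial, algebraMap_eq]
  have : (μ.prod fun i k => (C ((fun _ => (0 : Ω)) i) + C (d i) * X i) ^ k)
      = C (μ.prod (fun o k => d o ^ k)) * μ.prod (fun o k => (X o : MvPolynomial ι Ω) ^ k) := by
    rw [Finsupp.prod, Finsupp.prod, Finsupp.prod, map_prod, ← Finset.prod_mul_distrib]
    refine Finset.prod_congr rfl fun o _ => ?_
    rw [C_0, zero_add, mul_pow, C_pow]
  rw [this, ← mul_assoc, ← C_mul, ← monomial_eq]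

/-- Taylor coefficients -/
lemma taylor_coeff [DecidableEq ι] (τ : ι → Ω) (o₀ : ι) (f : MvPolynomial ι Ω) :
    coeff 0 (aff τ (fun _ => 1) f) = eval τ f ∧
    coeff (Finsupp.single o₀ 1) (aff τ (fun _ => 1) f) = eval τ (pderiv o₀ f) := by
  induction f using MvPolynomial.induction_on with
  | C a =>
    rw [algHom_C, algebraMap_eq, coeff_C, coeff_C, eval_C, pderiv_C, map_zero]
    refine ⟨by simp, ?_⟩
    rw [if_neg]
    intro h
    have := DFunLike.congr_fun h o₀
    simp at this
  | add p q hp hq =>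
    rw [map_add, coeff_add, coeff_add, hp.1, hp.2, hq.1, hq.2, map_add, map_add, map_add]
    exact ⟨rfl, rfl⟩
  | mul_X p o hp =>
    rw [map_mul, aff_X, C_1, one_mul, mul_add, mul_comm _ (C (τ o)), coeff_add, coeff_add,
      coeff_C_mul, coeff_C_mul,
      coeff_mul_X', coeff_mul_X', hp.1, hp.2, map_mul, eval_X, Derivation.leibniz, pderiv_X]
    refine ⟨by simp [mul_comm], ?_⟩
    rw [smul_eq_mul, smul_eq_mul, map_add, map_mul, map_mul, eval_X]
    by_cases h : o = o₀
    · subst h
      rw [if_pos (by simp), tsub_self, hp.1]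
      simp
      ring
    · rw [if_neg (by simpa using h), Pi.single_eq_of_ne h]
      simp

end

end Run7.h753
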