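import Pool.Agent.Run7.h753.Aff

/-!
# Rescaling at a smooth point, II
-/

set_option autoImplicit false
open scoped TensorProduct

namespace Run7.h753

universe u v w

open MvPolynomial

section

variable {Ω : Type v} [Field Ω] {n : ℕ}

/-- weights -/
def wgt : Option (Fin n) → ℕ
  | none => 1
  | some _ => 2

/-- weight of an exponent -/
noncomputable def wt (μ : Option (Fin n) →₀ ℕ) : ℕ := ∑ o, wgt o * μ o

lemma two_le_wt {μ : Option (Fin n) →₀ ℕ} (h0 : μ ≠ 0) (h1 : μ ≠ Finsupp.single none 1) :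
    2 ≤ wt μ := by
  by_contra hcon
  push Not at hcon
  unfold wt at hcon
  rw [Fintype.sum_option] at hcon
  have hs : ∀ i : Fin n, μ (some i) = 0 := by
    intro i
    by_contra hi
    have h2 : wgt (some i) * μ (some i) ≤ ∑ j : Fin n, wgt (some j) * μ (some j) :=
      Finset.single_le_sum (f := fun j : Fin n => wgt (some j) * μ (some j))
        (fun _ _ => Nat.zero_le _) (Finset.mem_univ i)
    have h3 : wgt (some i) = 2 := rfl
    rw [h3] at h2
    omega
  have hn : μ none ≤ 1 := by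
    have h3 : wgt (none : Option (Fin n)) = 1 := rfl
    rw [h3] at hcon
    omega
  rcases Nat.le_one_iff_eq_zero_or_eq_one.mp hn with h | h
  · apply h0
    ext o
    rcases o with _ | i
    · exact h
    · exact hs i
  · apply h1
    ext o
    rcases o with _ | i
    · rw [h, Finsupp.single_eq_same]
    · rw [hs i, Finsupp.single_apply, if_neg (by simp)]

lemma prod_eq_pow_wt (δ : Ω) (μ : Option (Fin n) →₀ ℕ) :
    μ.prod (fun o k => (δ ^ wgt o) ^ k) = δ ^ wt μ := by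
  rw [Finsupp.prod_fintype _ _ (fun _ => pow_zero _)]
  unfold wt
  rw [← Finset.prod_pow_eq_pow_sum]
  refine Finset.prod_congr rfl fun o _ => ?_
  rw [pow_mul]

lemma exists_scaling {V : ValuationSubring Ω} (ε : V) (hε0 : (ε : Ω) ≠ 0)
    (harch : ∀ e : Ω, e ≠ 0 → ∃ k : ℕ, (ε : Ω) ^ k / e ∈ V)
    (f : MvPolynomial (Option (Fin n)) Ω) (τ : Option (Fin n) → Ω)
    (h0 : eval τ f = 0) (h1 : eval τ (pderiv none f) ≠ 0) :
    ∃ (d : Option (Fin n) → Ω) (_ : ∀ o, d o ≠ 0) (c : Ω) (_ : c ≠ 0)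
      (H : MvPolynomial (Option (Fin n)) V),
      aff τ d f = C c * (X none + C (ε : Ω) * map V.subtype H) := by
  classical
  let F : MvPolynomial (Option (Fin n)) Ω := aff τ (fun _ => 1) f
  have hF0 : coeff 0 F = 0 := by rw [(taylor_coeff τ none f).1, h0]
  let e1 : Option (Fin n) →₀ ℕ := Finsupp.single none 1
  let u : Ω := coeff e1 F
  have hu : u ≠ 0 := by
    change coeff (Finsupp.single none 1) F ≠ 0
    rw [(taylor_coeff τ none f).2]; exact h1
  have hex : ∀ μ, ∃ k : ℕ, (ε : Ω) ^ k * (coeff μ F / u) ∈ V := by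
    intro μ
    by_cases hμ : coeff μ F = 0
    · exact ⟨0, by rw [hμ, zero_div, mul_zero]; exact V.zero_mem⟩
    · obtain ⟨k, hk⟩ := harch (u / coeff μ F) (div_ne_zero hu hμ)
      refine ⟨k, ?_⟩
      have : (ε : Ω) ^ k * (coeff μ F / u) = (ε : Ω) ^ k / (u / coeff μ F) := by
        field_simp
      rw [this]; exact hk
  choose k hk using hex
  let N : ℕ := F.support.sup k
  have hN : ∀ μ ∈ F.support, (ε : Ω) ^ N * (coeff μ F / u) ∈ V := by
    intro μ hμ
    have h2 : k μ ≤ N := Finset.le_sup hμ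
    have h3 : (ε : Ω) ^ N * (coeff μ F / u)
        = (ε : Ω) ^ (N - k μ) * ((ε : Ω) ^ (k μ) * (coeff μ F / u)) := by
      rw [← mul_assoc, ← pow_add, Nat.sub_add_cancel h2]
    rw [h3]
    exact V.mul_mem _ _ (pow_mem ε.2 _) (hk μ)
  let δ : Ω := (ε : Ω) ^ (N + 1)
  have hδ0 : δ ≠ 0 := pow_ne_zero _ hε0
  let d : Option (Fin n) → Ω := fun o => δ ^ wgt o
  have hcomp : aff τ d f = aff (fun _ => 0) d F := by
    have : (aff (fun _ => (0 : Ω)) d).comp (aff τ (fun _ => 1)) = aff τ d := by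
      apply MvPolynomial.algHom_ext
      intro o
      rw [AlgHom.comp_apply, aff_X, map_add, map_mul, aff_X, aff_X, algHom_C, algHom_C, C_0,
        zero_add, map_one, one_mul]
      rfl
    rw [← this]; rfl
  let g : (Option (Fin n) →₀ ℕ) → V := fun μ =>
    if h : (ε : Ω) ^ N * (coeff μ F / u) ∈ V then ⟨_, h⟩ else 0
  have hg : ∀ μ ∈ F.support, ((g μ : V) : Ω) = (ε : Ω) ^ N * (coeff μ F / u) := by
    intro μ hμ
    have : g μ = ⟨_, hN μ hμ⟩ := dif_pos (hN μ hμ)
    rw [this]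
  refine ⟨d, fun o => pow_ne_zero _ hδ0, δ * u, mul_ne_zero hδ0 hu,
    ∑ μ ∈ F.support.erase e1, monomial μ (g μ * (ε ^ (N + 1)) ^ (wt μ - 2)), ?_⟩
  rw [hcomp]
  have hFsum : F = ∑ μ ∈ F.support, monomial μ (coeff μ F) := F.as_sum
  have he1 : e1 ∈ F.support := by rw [mem_support_iff]; exact hu
  have hwt1 : wt e1 = 1 := by
    unfold wt
    rw [Fintype.sum_option]
    simp [e1, wgt]
  conv_lhs => rw [hFsum]
  rw [map_sum, ← Finset.add_sum_erase _ _ he1, map_sum, mul_add, Finset.mul_sum, Finset.mul_sum]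
  congr 1
  · rw [aff_scale_monomial, prod_eq_pow_wt, hwt1, pow_one, X, C_mul_monomial, mul_one, mul_comm]
  · refine Finset.sum_congr rfl fun μ hμ => ?_
    rw [Finset.mem_erase] at hμ
    have hμ0 : μ ≠ 0 := by
      rintro rfl
      exact (mem_support_iff.mp hμ.2) hF0
    have h2 := two_le_wt hμ0 hμ.1
    rw [aff_scale_monomial, prod_eq_pow_wt, map_monomial, C_mul_monomial, C_mul_monomial]
    congr 1
    have h3 : V.subtype (g μ * (ε ^ (N + 1)) ^ (wt μ - 2)) = (g μ : Ω) * δ ^ (wt μ - 2) := rfl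
    rw [h3, hg μ hμ.2]
    have h4 : δ ^ wt μ = δ ^ 2 * δ ^ (wt μ - 2) := by rw [← pow_add, Nat.add_sub_cancel' h2]
    have h5 : δ = (ε : Ω) * (ε : Ω) ^ N := by
      change (ε : Ω) ^ (N + 1) = _
      rw [pow_succ, mul_comm]
    rw [h4]
    have h6 : δ * u * ((ε : Ω) * ((ε : Ω) ^ N * (coeff μ F / u) * δ ^ (wt μ - 2)))
        = δ * ((ε : Ω) * (ε : Ω) ^ N) * coeff μ F * δ ^ (wt μ - 2) := by
      field_simp
    rw [h6, ← h5]
    ring

theorem exists_HD {V : ValuationSubring Ω} (ε : V) (hε0 : (ε : Ω) ≠ 0)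
    (harch : ∀ e : Ω, e ≠ 0 → ∃ k : ℕ, (ε : Ω) ^ k / e ∈ V)
    {K : Type w} [Field K] [Algebra Ω K] (ev : MvPolynomial (Option (Fin n)) Ω →ₐ[Ω] K)
    (f : MvPolynomial (Option (Fin n)) Ω) (hf : ev f = 0) (hker : ∀ q, ev q = 0 → f ∣ q)
    (hinj : ∀ r : MvPolynomial (Fin n) Ω, ev (rename some r) = 0 → r = 0)
    (hfrac : ∀ g : K, ∃ P Q, ev Q ≠ 0 ∧ g * ev Q = ev P)
    (halg : ∀ q, ev q ≠ 0 → ∃ (q' : MvPolynomial (Option (Fin n)) Ω)
      (r : MvPolynomial (Fin n) Ω), r ≠ 0 ∧ ev q * ev q' = ev (rename some r))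
    (τ : Option (Fin n) → Ω) (hτ : eval τ f = 0) (hτ' : eval τ (pderiv none f) ≠ 0) :
    Nonempty (HD V ε K n) := by
  obtain ⟨d, hd, c, hc, H, hH⟩ := exists_scaling ε hε0 harch f τ hτ hτ'
  let G : MvPolynomial (Option (Fin n)) Ω := X none + C (ε : Ω) * map V.subtype H
  let c' : Option (Fin n) → Ω := fun o => - (τ o) / d o
  let d' : Option (Fin n) → Ω := fun o => (d o)⁻¹
  have hd' : ∀ o, d' o ≠ 0 := fun o => inv_ne_zero (hd o)
  have h1 : (aff τ d).comp (aff c' d') = AlgHom.id Ω _ := aff_comp τ d hd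
  have h2 : (aff c' d').comp (aff τ d) = AlgHom.id Ω _ := aff_comp' τ d hd
  have h1' : ∀ q, aff τ d (aff c' d' q) = q := fun q => DFunLike.congr_fun h1 q
  have h2' : ∀ q, aff c' d' (aff τ d q) = q := fun q => DFunLike.congr_fun h2 q
  let ψ : MvPolynomial (Option (Fin n)) Ω →ₐ[Ω] K := ev.comp (aff c' d')
  have hψ : ∀ q, ψ (aff τ d q) = ev q := fun q => by
    change ev (aff c' d' (aff τ d q)) = ev q
    rw [h2']
  have hψG : ψ (C c * G) = 0 := by rw [← hH, hψ, hf]
  have hCc : ψ (C c) ≠ 0 := by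
    rw [algHom_C, ne_eq, map_eq_zero]; exact hc
  refine ⟨{ ψ := ψ, H := H, hG := ?_, hker := ?_, hinj := ?_, hfrac := ?_, halg := ?_ }⟩
  · rw [map_mul] at hψG
    exact (mul_eq_zero.mp hψG).resolve_left hCc
  · intro q hq
    obtain ⟨r, hr⟩ := hker _ hq
    refine ⟨C c * aff τ d r, ?_⟩
    have h3 : q = aff τ d f * aff τ d r := by
      rw [← map_mul, ← hr]; exact (h1' q).symm
    rw [h3, hH]
    ring
  · intro r hr
    have h3 : aff c' d' (rename some r) = rename some (aff (c' ∘ some) (d' ∘ some) r) :=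
      aff_rename some c' d' r
    have h4 : ev (rename some (aff (c' ∘ some) (d' ∘ some) r)) = 0 := by rw [← h3]; exact hr
    have h5 := hinj _ h4
    have h6 : rename (R := Ω) (some : Fin n → Option (Fin n)) r = 0 := by
      rw [← h1' (rename some r), h3, h5, map_zero, map_zero]
    exact (rename_injective _ (Option.some_injective _)) (by rw [h6, map_zero])
  · intro g
    obtain ⟨P, Q, hQ, hPQ⟩ := hfrac g
    exact ⟨aff τ d P, aff τ d Q, by rwa [hψ], by rw [hψ, hψ, hPQ]⟩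
  · intro q hq
    obtain ⟨q', r, hr, hqr⟩ := halg _ hq
    refine ⟨aff τ d q', aff (τ ∘ some) (d ∘ some) r, ?_, ?_⟩
    · intro h0
      apply hr
      have h3 := DFunLike.congr_fun (aff_comp' (τ ∘ some) (d ∘ some)
        (fun o : Fin n => hd (some o))) r
      rw [AlgHom.comp_apply, h0, map_zero] at h3
      exact h3.symm
    · rw [hψ, ← aff_rename, hψ, ← hqr]
      rfl

end

end Run7.h753
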