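import Pool.Agent.Run7.h753.StepK

/-!
# An archimedean place of the algebraic closure of `κ(s)`
-/

set_option autoImplicit false
open scoped TensorProduct Cardinal

namespace Run7.h753

universe u v w

theorem exists_place_arch (κ : Type u) [Field κ] [IsAlgClosed κ] :
    ∃ (V : ValuationSubring (K1 κ)) (_ : Algebra κ V) (φ : V →+* κ) (ε : V),
      (∀ c : κ, φ (algebraMap κ V c) = c) ∧ φ ε = 0 ∧ (ε : K1 κ) ≠ 0 ∧
      (∀ x : V, φ x ≠ 0 → (x : K1 κ)⁻¹ ∈ V) ∧
      (∀ e : K1 κ, e ≠ 0 → ∃ (k : ℕ) (h : (ε : K1 κ) ^ k / e ∈ V), φ ⟨_, h⟩ = 0) := by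
  let i : Polynomial κ →+* K1 κ := (algebraMap (RatFunc κ) (K1 κ)).comp
    (algebraMap (Polynomial κ) (RatFunc κ))
  have hi : Function.Injective i :=
    (algebraMap (RatFunc κ) (K1 κ)).injective.comp (IsFractionRing.injective _ _)
  have hiC : ∀ c : κ, i (Polynomial.C c) = algebraMap κ (K1 κ) c := by
    intro c
    rw [IsScalarTower.algebraMap_apply κ (RatFunc κ) (K1 κ)]
    rfl
  obtain ⟨V, φ, hφ, hVu⟩ := exists_place i (Polynomial.evalRingHom 0)
    (fun c => ⟨Polynomial.C c, by simp⟩) (fun r hr => by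
      have : r = 0 := hi (by rw [hr, map_zero])
      rw [this, map_zero])
  have hV : ∀ c : κ, algebraMap κ (K1 κ) c ∈ V := fun c => by
    rw [← hiC]; exact (hφ _).1
  let inc : κ →+* V :=
    { toFun := fun c => ⟨algebraMap κ (K1 κ) c, hV c⟩
      map_one' := Subtype.ext (map_one _)
      map_mul' := fun a b => Subtype.ext (map_mul _ _ _)
      map_zero' := Subtype.ext (map_zero _)
      map_add' := fun a b => Subtype.ext (map_add _ _ _) }
  let inst : Algebra κ V := inc.toAlgebra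
  have hX : i Polynomial.X = sK κ := by
    change algebraMap (RatFunc κ) (K1 κ) (algebraMap (Polynomial κ) (RatFunc κ) Polynomial.X) = _
    rw [RatFunc.algebraMap_X]; rfl
  have hs : sK κ ∈ V := by rw [← hX]; exact (hφ _).1
  have hs0 : φ ⟨sK κ, hs⟩ = 0 := by
    obtain ⟨h1, h2⟩ := hφ Polynomial.X
    have : (⟨i Polynomial.X, h1⟩ : V) = ⟨sK κ, hs⟩ := Subtype.ext hX
    rw [this] at h2
    simpa using h2
  have hsne : sK κ ≠ 0 := by
    rw [← hX, ne_eq, map_eq_zero_iff _ hi]
    exact Polynomial.X_ne_zero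
  refine ⟨V, inst, φ, ⟨sK κ, hs⟩, ?_, hs0, hsne, hVu, ?_⟩
  · intro c
    obtain ⟨h1, h2⟩ := hφ (Polynomial.C c)
    have : (⟨i (Polynomial.C c), h1⟩ : V) = algebraMap κ V c := Subtype.ext (hiC c)
    rw [this] at h2
    simpa using h2
  · intro e he
    have hfrac : IsFractionRing (Polynomial κ) (RatFunc κ) := inferInstance
    have halg1 : Algebra.IsAlgebraic (RatFunc κ) (K1 κ) := inferInstance
    have halg0 : IsAlgebraic (RatFunc κ) e⁻¹ := halg1.isAlgebraic _
    have halg : IsAlgebraic (Polynomial κ) e⁻¹ :=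
      (IsFractionRing.isAlgebraic_iff (Polynomial κ) (RatFunc κ) (K1 κ)).mpr halg0
    obtain ⟨d, hd0, hint⟩ := halg.exists_integral_multiple
    have hmap : ∀ r : Polynomial κ, algebraMap (Polynomial κ) (K1 κ) r = i r := by
      intro r
      rw [IsScalarTower.algebraMap_apply (Polynomial κ) (RatFunc κ) (K1 κ)]
      rfl
    -- integral over `V`
    let incP : Polynomial κ →+* V :=
      { toFun := fun r => ⟨i r, (hφ r).1⟩
        map_one' := Subtype.ext (map_one _)
        map_mul' := fun a b => Subtype.ext (map_mul _ _ _)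
        map_zero' := Subtype.ext (map_zero _)
        map_add' := fun a b => Subtype.ext (map_add _ _ _) }
    let instP : Algebra (Polynomial κ) V := incP.toAlgebra
    have towerP : IsScalarTower (Polynomial κ) V (K1 κ) :=
      IsScalarTower.of_algebraMap_eq (fun r => hmap r)
    have hintV : IsIntegral V (d • e⁻¹) := hint.tower_top
    obtain ⟨⟨z, hz⟩, hze⟩ := IsIntegrallyClosed.isIntegral_iff.mp hintV
    have hzV : i d * e⁻¹ ∈ V := by
      have h1 : (z : K1 κ) = d • e⁻¹ := hze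
      rw [Algebra.smul_def, hmap] at h1
      rw [← h1]; exact hz
    obtain ⟨r, d1, hd1, hdr⟩ := WfDvdMonoid.max_power_factor hd0 Polynomial.irreducible_X
    have hev : Polynomial.eval 0 d1 ≠ 0 := by
      rw [← Polynomial.coeff_zero_eq_eval_zero]
      intro h
      exact hd1 (Polynomial.X_dvd_iff.mpr h)
    obtain ⟨h1, h2⟩ := hφ d1
    have hinv : (i d1)⁻¹ ∈ V := hVu ⟨i d1, h1⟩ (by rw [h2]; exact hev)
    have hid1 : i d1 ≠ 0 := by
      rw [ne_eq, map_eq_zero_iff _ hi]
      rintro rfl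
      exact hev (by simp)
    have hk : (sK κ) ^ r / e = (i d1)⁻¹ * (i d * e⁻¹) := by
      rw [hdr, map_mul, map_pow, hX]
      field_simp
    have hkV : (sK κ) ^ r / e ∈ V := by
      rw [hk]; exact V.mul_mem _ _ hinv hzV
    have hk2 : (sK κ) ^ (r + 1) / e = sK κ * ((sK κ) ^ r / e) := by
      rw [pow_succ]; ring
    refine ⟨r + 1, ?_, ?_⟩
    · change (sK κ) ^ (r + 1) / e ∈ V
      rw [hk2]
      exact V.mul_mem _ _ hs hkV
    · have h3 : (⟨(sK κ) ^ (r + 1) / e, by rw [hk2]; exact V.mul_mem _ _ hs hkV⟩ : V)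
          = ⟨sK κ, hs⟩ * ⟨(sK κ) ^ r / e, hkV⟩ := Subtype.ext hk2
      change φ (⟨(sK κ) ^ (r + 1) / e, _⟩ : V) = 0
      rw [h3, map_mul, hs0, zero_mul]

end Run7.h753
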