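import Mathlib

/-!
# Degree-two Milnor K-theory modulo p and symbol length: basic lemmas
-/

set_option autoImplicit false
open scoped TensorProduct

namespace Run7.h753

universe u v w

section defs

variable (p : ℕ) (E : Type u) [Field E]

/-- The subgroup of the tensor square of the unit group generated by the multiples of `p` and the
Steinberg tensors. -/
def Rel : AddSubgroup (Additive Eˣ ⊗[ℤ] Additive Eˣ) :=
  AddSubgroup.closure
    ({x | ∃ y : Additive Eˣ ⊗[ℤ] Additive Eˣ, x = p • y} ∪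
     {x | ∃ c d : Eˣ, (c : E) + (d : E) = 1 ∧
        x = Additive.ofMul c ⊗ₜ[ℤ] Additive.ofMul d})

/-- Every class in degree two Milnor K-theory mod `p` is a sum of `k` symbols. -/
def SymLE (k : ℕ) : Prop :=
  ∀ t : Additive Eˣ ⊗[ℤ] Additive Eˣ, ∃ a b : Fin k → Eˣ,
    t - (∑ i, Additive.ofMul (a i) ⊗ₜ[ℤ] Additive.ofMul (b i)) ∈ Rel p E

/-- Degree two Milnor K-theory mod `p`. -/
def Kp : Type u := (Additive Eˣ ⊗[ℤ] Additive Eˣ) ⧸ Rel p E

noncomputable instance : AddCommGroup (Kp p E) :=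
  inferInstanceAs (AddCommGroup ((Additive Eˣ ⊗[ℤ] Additive Eˣ) ⧸ Rel p E))

/-- `p`-th powers. -/
def Pw : AddSubgroup (Additive Eˣ) := (nsmulAddMonoidHom (α := Additive Eˣ) p).range

/-- Units modulo `p`-th powers, written additively. -/
def Q : Type u := Additive Eˣ ⧸ Pw p E

noncomputable instance : AddCommGroup (Q p E) :=
  inferInstanceAs (AddCommGroup (Additive Eˣ ⧸ Pw p E))

/-- quotient map onto `Kp`. -/
noncomputable def mkK : (Additive Eˣ ⊗[ℤ] Additive Eˣ) →+ Kp p E := QuotientAddGroup.mk' (Rel p E)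

/-- quotient map onto `Q`. -/
noncomputable def mkQ : Additive Eˣ →+ Q p E := QuotientAddGroup.mk' (Pw p E)

end defs

variable {p : ℕ} {E : Type u} [Field E]

lemma mkK_surj : Function.Surjective (mkK p E) := QuotientAddGroup.mk'_surjective _

lemma mkQ_surj : Function.Surjective (mkQ p E) := QuotientAddGroup.mk'_surjective _

lemma mkK_eq_zero {x : Additive Eˣ ⊗[ℤ] Additive Eˣ} : mkK p E x = 0 ↔ x ∈ Rel p E :=
  QuotientAddGroup.eq_zero_iff _

lemma mkQ_eq_zero {x : Additive Eˣ} : mkQ p E x = 0 ↔ x ∈ Pw p E :=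
  QuotientAddGroup.eq_zero_iff _

/-- lift from `Kp`. -/
noncomputable def liftK {G : Type w} [AddCommGroup G]
    (φ : (Additive Eˣ ⊗[ℤ] Additive Eˣ) →+ G) (h : Rel p E ≤ φ.ker) : Kp p E →+ G :=
  QuotientAddGroup.lift (Rel p E) φ h

lemma liftK_mk {G : Type w} [AddCommGroup G]
    (φ : (Additive Eˣ ⊗[ℤ] Additive Eˣ) →+ G) (h : Rel p E ≤ φ.ker) (x) :
    liftK φ h (mkK p E x) = φ x := rfl

/-- lift from `Q`. -/
noncomputable def liftQ {G : Type w} [AddCommGroup G]
    (φ : Additive Eˣ →+ G) (h : Pw p E ≤ φ.ker) : Q p E →+ G :=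
  QuotientAddGroup.lift (Pw p E) φ h

lemma liftQ_mk {G : Type w} [AddCommGroup G]
    (φ : Additive Eˣ →+ G) (h : Pw p E ≤ φ.ker) (x) :
    liftQ φ h (mkQ p E x) = φ x := rfl

/-- class of a unit. -/
noncomputable def cl (p : ℕ) (a : Eˣ) : Q p E := mkQ p E (Additive.ofMul a)

/-- symbol of two units. -/
noncomputable def sym (p : ℕ) (a b : Eˣ) : Kp p E :=
  mkK p E (Additive.ofMul a ⊗ₜ[ℤ] Additive.ofMul b)

lemma mem_Pw {x : Additive Eˣ} : x ∈ Pw p E ↔ ∃ y : Additive Eˣ, p • y = x := Iff.rfl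

lemma cl_mul (a b : Eˣ) : cl p (a * b) = cl p a + cl p b := by
  unfold cl; rw [ofMul_mul, map_add]

lemma cl_inv (a : Eˣ) : cl p a⁻¹ = - cl p a := by
  unfold cl; rw [ofMul_inv, map_neg]

lemma cl_one : cl p (1 : Eˣ) = 0 := by
  unfold cl; rw [ofMul_one, map_zero]

lemma cl_surj (x : Q p E) : ∃ a : Eˣ, cl p a = x := by
  obtain ⟨a, rfl⟩ := mkQ_surj x
  exact ⟨Additive.toMul a, rfl⟩

lemma cl_eq_zero_iff {a : Eˣ} : cl p a = 0 ↔ ∃ b : Eˣ, b ^ p = a := by
  unfold cl
  rw [mkQ_eq_zero, mem_Pw]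
  constructor
  · rintro ⟨y, hy⟩
    exact ⟨Additive.toMul y, hy⟩
  · rintro ⟨b, hb⟩
    exact ⟨Additive.ofMul b, by rw [← ofMul_pow, hb]⟩

lemma cl_pow_p (a : Eˣ) : cl p (a ^ p) = 0 := cl_eq_zero_iff.2 ⟨a, rfl⟩

lemma p_nsmul_Q (x : Q p E) : p • x = 0 := by
  obtain ⟨a, rfl⟩ := cl_surj x
  have := cl_pow_p (p := p) a
  unfold cl at this ⊢
  rwa [ofMul_pow, map_nsmul] at this

lemma p_nsmul_Kp (x : Kp p E) : p • x = 0 := by
  obtain ⟨y, rfl⟩ := mkK_surj x
  rw [← map_nsmul, mkK_eq_zero]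
  exact AddSubgroup.subset_closure (Or.inl ⟨y, rfl⟩)

/-- The symbol as a bilinear map on units. -/
noncomputable def symH (p : ℕ) (E : Type u) [Field E] : Additive Eˣ →+ Additive Eˣ →+ Kp p E :=
  AddMonoidHom.mk' (fun a => (mkK p E).comp
    (AddMonoidHom.mk' (fun b => a ⊗ₜ[ℤ] b) (fun b c => TensorProduct.tmul_add a b c)))
    (fun a b => by
      refine AddMonoidHom.ext fun c => ?_
      change mkK p E ((a + b) ⊗ₜ[ℤ] c) = mkK p E (a ⊗ₜ[ℤ] c) + mkK p E (b ⊗ₜ[ℤ] c)
      rw [TensorProduct.add_tmul, map_add])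

lemma symH_apply (a b : Additive Eˣ) : symH p E a b = mkK p E (a ⊗ₜ[ℤ] b) := rfl

lemma sym_eq (a b : Eˣ) : sym p a b = symH p E (Additive.ofMul a) (Additive.ofMul b) := rfl

lemma sym_mul_left (a b c : Eˣ) : sym p (a * b) c = sym p a c + sym p b c := by
  rw [sym_eq, ofMul_mul, map_add]; rfl

lemma sym_mul_right (a b c : Eˣ) : sym p a (b * c) = sym p a b + sym p a c := by
  rw [sym_eq, ofMul_mul, map_add]; rfl

lemma sym_steinberg {a b : Eˣ} (h : (a : E) + b = 1) : sym p a b = 0 := by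
  unfold sym
  rw [mkK_eq_zero]
  exact AddSubgroup.subset_closure (Or.inr ⟨a, b, h, rfl⟩)

/-- The bilinear symbol map on units modulo `p`-th powers. -/
noncomputable def symQ (p : ℕ) (E : Type u) [Field E] : Q p E →+ Q p E →+ Kp p E :=
  liftQ (AddMonoidHom.mk' (fun a : Additive Eˣ => liftQ (symH p E a) (by
        rintro _ ⟨y, rfl⟩
        rw [AddMonoidHom.mem_ker, nsmulAddMonoidHom_apply, map_nsmul, p_nsmul_Kp]))
      (fun a b => by
        refine AddMonoidHom.ext fun x => ?_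
        obtain ⟨x, rfl⟩ := mkQ_surj x
        change symH p E (a + b) x = symH p E a x + symH p E b x
        rw [map_add, AddMonoidHom.add_apply]))
    (by
      rintro _ ⟨y, rfl⟩
      rw [AddMonoidHom.mem_ker]
      refine AddMonoidHom.ext fun x => ?_
      obtain ⟨x, rfl⟩ := mkQ_surj x
      change symH p E (p • y) x = 0
      rw [map_nsmul, AddMonoidHom.nsmul_apply, p_nsmul_Kp])

lemma symQ_mk (a b : Additive Eˣ) : symQ p E (mkQ p E a) (mkQ p E b) = symH p E a b := rfl

lemma symQ_cl (a b : Eˣ) : symQ p E (cl p a) (cl p b) = sym p a b := rfl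

/-- Induction principle for `Kp`. -/
lemma Kp_induction {P : Kp p E → Prop} (h0 : P 0) (hs : ∀ a b : Eˣ, P (sym p a b))
    (ha : ∀ x y, P x → P y → P (x + y)) (x : Kp p E) : P x := by
  obtain ⟨t, rfl⟩ := mkK_surj x
  induction t using TensorProduct.induction_on with
  | zero => rw [map_zero]; exact h0
  | tmul a b => exact hs (Additive.toMul a) (Additive.toMul b)
  | add a b iha ihb => rw [map_add]; exact ha _ _ iha ihb

/-- `SymLE` in terms of the quotient group. -/
lemma symLE_iff {k : ℕ} : SymLE p E k ↔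
    ∀ x : Kp p E, ∃ a b : Fin k → Eˣ, x = ∑ i, sym p (a i) (b i) := by
  constructor
  · intro h x
    obtain ⟨t, rfl⟩ := mkK_surj x
    obtain ⟨a, b, hab⟩ := h t
    refine ⟨a, b, ?_⟩
    rw [← mkK_eq_zero, map_sub, sub_eq_zero] at hab
    rw [hab, map_sum]
    rfl
  · intro h t
    obtain ⟨a, b, hab⟩ := h (mkK p E t)
    refine ⟨a, b, ?_⟩
    rw [← mkK_eq_zero, map_sub, sub_eq_zero, hab, map_sum]
    rfl

/-- `-1` is a `p`-th power. -/
def NegOne (p : ℕ) (E : Type u) [Field E] : Prop := ∃ i : Eˣ, i ^ p = -1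

lemma sym_one_left (b : Eˣ) : sym p 1 b = 0 := by
  rw [sym_eq, ofMul_one, map_zero]; rfl

lemma sym_inv_left (a b : Eˣ) : sym p a⁻¹ b = - sym p a b := by
  rw [sym_eq, ofMul_inv, map_neg]; rfl

lemma sym_inv_right (a b : Eˣ) : sym p a b⁻¹ = - sym p a b := by
  rw [sym_eq, ofMul_inv, map_neg]; rfl

lemma sym_neg_self (a : Eˣ) : sym p a (-a) = 0 := by
  by_cases h1 : a = 1
  · subst h1
    exact sym_one_left _
  · have hne : (1 : E) - a ≠ 0 := by
      intro h
      apply h1
      ext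
      rw [Units.val_one]
      exact (sub_eq_zero.mp h).symm
    have hne' : (1 : E) - (a⁻¹ : Eˣ) ≠ 0 := by
      intro h
      apply h1
      have : (a⁻¹ : Eˣ) = 1 := by
        ext
        rw [Units.val_one]
        exact (sub_eq_zero.mp h).symm
      simpa using this
    have e : (-a) = (Units.mk0 _ hne) * (Units.mk0 _ hne')⁻¹ := by
      rw [eq_mul_inv_iff_mul_eq]
      ext
      push_cast
      simp only [Units.val_mk0]
      have := a.ne_zero
      field_simp
      ring
    have h2 : sym p a (Units.mk0 _ hne) = 0 := sym_steinberg (by simp)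
    have h3 : sym p a⁻¹ (Units.mk0 _ hne') = 0 := sym_steinberg (by simp)
    rw [e, sym_mul_right, h2, zero_add, sym_inv_right]
    rwa [sym_inv_left] at h3

lemma cl_neg (h : NegOne p E) (a : Eˣ) : cl p (-a) = cl p a := by
  have h' : (-a) = (-1) * a := by simp
  rw [h', cl_mul, cl_eq_zero_iff.2 h, zero_add]

lemma symQ_self (h : NegOne p E) (x : Q p E) : symQ p E x x = 0 := by
  obtain ⟨a, rfl⟩ := cl_surj x
  have := sym_neg_self (p := p) a
  rwa [← symQ_cl, cl_neg h] at this

lemma symQ_swap (h : NegOne p E) (x y : Q p E) : symQ p E x y = - symQ p E y x := by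
  have := symQ_self h (x + y)
  rw [map_add, map_add, AddMonoidHom.add_apply, AddMonoidHom.add_apply, symQ_self h, symQ_self h,
    zero_add, add_zero] at this
  exact (eq_neg_of_add_eq_zero_right this)

/-- A homomorphism from units of `L` to `Q p E` respecting Steinberg relations. -/
structure Spec (p : ℕ) (L : Type v) [Field L] (E : Type u) [Field E] where
  f : Additive Lˣ →+ Q p E
  st : ∀ a b : Lˣ, (a : L) + b = 1 →
    symQ p E (f (Additive.ofMul a)) (f (Additive.ofMul b)) = 0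

section Spec

variable {L : Type v} [Field L]

/-- General induced map: from a bilinear map with values in a group killed by `p`. -/
noncomputable def liftKp {G : Type w} [AddCommGroup G] (B : Additive Lˣ →+ Additive Lˣ →+ G)
    (hp : ∀ g : G, p • g = 0)
    (hst : ∀ a b : Lˣ, (a : L) + b = 1 → B (Additive.ofMul a) (Additive.ofMul b) = 0) :
    Kp p L →+ G :=
  liftK
    (TensorProduct.liftAddHom B (fun r m n => by
      rw [map_zsmul, map_zsmul, AddMonoidHom.zsmul_apply]))
    (by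
      unfold Rel
      rw [AddSubgroup.closure_le]
      rintro x (⟨y, rfl⟩ | ⟨c, d, hcd, rfl⟩)
      · rw [SetLike.mem_coe, AddMonoidHom.mem_ker, map_nsmul, hp]
      · rw [SetLike.mem_coe, AddMonoidHom.mem_ker, TensorProduct.liftAddHom_tmul]
        exact hst c d hcd)

lemma liftKp_sym {G : Type w} [AddCommGroup G] (B : Additive Lˣ →+ Additive Lˣ →+ G)
    (hp : ∀ g : G, p • g = 0)
    (hst : ∀ a b : Lˣ, (a : L) + b = 1 → B (Additive.ofMul a) (Additive.ofMul b) = 0)
    (a b : Lˣ) :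
    liftKp (p := p) B hp hst (sym p a b) = B (Additive.ofMul a) (Additive.ofMul b) := rfl

/-- The map induced on `Kp`. -/
noncomputable def Spec.map (s : Spec p L E) : Kp p L →+ Kp p E :=
  liftKp ((AddMonoidHom.compHom' s.f).comp ((symQ p E).comp s.f)) p_nsmul_Kp s.st

lemma Spec.map_sym (s : Spec p L E) (a b : Lˣ) :
    s.map (sym p a b) = symQ p E (s.f (Additive.ofMul a)) (s.f (Additive.ofMul b)) := rfl

/-- A ring homomorphism of fields induces a `Spec`. -/
noncomputable def Spec.ofRingHom (p : ℕ) (φ : L →+* E) : Spec p L E where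
  f := (mkQ p E).comp (MonoidHom.toAdditive (Units.map (φ : L →* E)))
  st a b h := by
    change symQ p E (cl p (Units.map (φ : L →* E) a)) (cl p (Units.map (φ : L →* E) b)) = 0
    rw [symQ_cl]
    apply sym_steinberg
    simp only [Units.coe_map, MonoidHom.coe_coe]
    rw [← map_add, h, map_one]

lemma Spec.ofRingHom_f (φ : L →+* E) (a : Lˣ) :
    (Spec.ofRingHom p φ).f (Additive.ofMul a) = cl p (Units.map (φ : L →* E) a) := rfl

lemma Spec.ofRingHom_sym (φ : L →+* E) (a b : Lˣ) :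
    (Spec.ofRingHom p φ).map (sym p a b)
      = sym p (Units.map (φ : L →* E) a) (Units.map (φ : L →* E) b) := rfl

/-- `SymLE` transfers along ring isomorphisms. -/
lemma SymLE.of_ringEquiv {k : ℕ} (e : L ≃+* E) (h : SymLE p L k) : SymLE p E k := by
  rw [symLE_iff] at h ⊢
  intro x
  obtain ⟨a, b, hab⟩ := h ((Spec.ofRingHom p e.symm.toRingHom).map x)
  refine ⟨fun i => Units.map (e : L →* E) (a i), fun i => Units.map (e : L →* E) (b i), ?_⟩
  have key : ∀ y : Kp p E, (Spec.ofRingHom p e.toRingHom).map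
      ((Spec.ofRingHom p e.symm.toRingHom).map y) = y := by
    intro y
    induction y using Kp_induction with
    | h0 => simp
    | hs a b =>
      rw [Spec.ofRingHom_sym, Spec.ofRingHom_sym]
      congr 1 <;> · ext; simp
    | ha x y hx hy => rw [map_add, map_add, hx, hy]
  rw [← key x, hab, map_sum]
  rfl

end Spec

end Run7.h753
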