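import Pool.Agent.Run7.h753.Tame

/-!
# Places attached to a prime element
-/

set_option autoImplicit false
open scoped TensorProduct

namespace Run7.h753

universe u v w

section

variable {A : Type u} [CommRing A] [IsDomain A] [WfDvdMonoid A] {E : Type v} [Field E]
  {L : Type w} [Field L] [Algebra A L] [IsFractionRing A L]

/-- The place data attached to a prime element `g` of `A` and a homomorphism with kernel `(g)`. -/
noncomputable def dvrPD (p : ℕ) (L : Type w) [Field L] [Algebra A L] [IsFractionRing A L]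
    (g : A) (hg : Irreducible g) (θ : A →+* E)
    (hθ : ∀ a, θ a = 0 ↔ g ∣ a) : PD p L E A (Multiplicative ℤ) where
  i := algebraMap A L
  inj := IsFractionRing.injective A L
  θ := θ
  ι := zpowersHom Lˣ (Units.mk0 (algebraMap A L g) (by
    rw [ne_eq, map_eq_zero_iff _ (IsFractionRing.injective A L)]; exact hg.ne_zero))
  w := MonoidHom.id _
  dec := by
    intro x
    obtain ⟨P, Q, hQ, hx⟩ := IsFractionRing.div_surjective (A := A) (x : L)
    have hQ0 : Q ≠ 0 := nonZeroDivisors.ne_zero hQ
    have hP0 : P ≠ 0 := by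
      rintro rfl
      rw [map_zero, zero_div] at hx
      exact x.ne_zero hx.symm
    obtain ⟨n, s, hs, rfl⟩ := WfDvdMonoid.max_power_factor hP0 hg
    obtain ⟨k, t, ht, rfl⟩ := WfDvdMonoid.max_power_factor hQ0 hg
    refine ⟨Multiplicative.ofAdd ((n : ℤ) - k), s, t, ?_, ?_, ?_⟩
    · rwa [ne_eq, hθ]
    · rwa [ne_eq, hθ]
    · rw [← hx, zpowersHom_apply, toAdd_ofAdd, Units.val_zpow_eq_zpow_val, Units.val_mk0]
      have h1 : algebraMap A L g ≠ 0 := by
        rw [ne_eq, map_eq_zero_iff _ (IsFractionRing.injective A L)]; exact hg.ne_zero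
      have h2 : algebraMap A L t ≠ 0 := by
        rw [ne_eq, map_eq_zero_iff _ (IsFractionRing.injective A L)]
        rintro rfl
        exact ht (dvd_zero _)
      rw [map_mul, map_mul, map_pow, map_pow, zpow_sub₀ h1, zpow_natCast, zpow_natCast]
      field_simp
  ord := by
    intro γ
    rcases le_total 0 (Multiplicative.toAdd γ) with h | h
    · left
      obtain ⟨n, hn⟩ := Int.eq_ofNat_of_zero_le h
      refine ⟨g ^ n, ?_⟩
      rw [zpowersHom_apply, hn, Units.val_zpow_eq_zpow_val, Units.val_mk0, map_pow]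
      exact zpow_natCast _ _
    · right
      obtain ⟨n, hn⟩ := Int.eq_ofNat_of_zero_le (neg_nonneg.mpr h)
      refine ⟨g ^ n, ?_⟩
      rw [zpowersHom_apply, toAdd_inv, hn, Units.val_zpow_eq_zpow_val, Units.val_mk0, map_pow]
      exact zpow_natCast _ _
  unit := by
    intro γ s s' hs hs' h
    have hinj := IsFractionRing.injective A L
    have hs2 : ¬ g ∣ s := fun h' => hs ((hθ s).mpr h')
    have hs2' : ¬ g ∣ s' := fun h' => hs' ((hθ s').mpr h')
    have h1 : algebraMap A L g ≠ 0 := by
      rw [ne_eq, map_eq_zero_iff _ hinj]; exact hg.ne_zero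
    rw [zpowersHom_apply, Units.val_zpow_eq_zpow_val, Units.val_mk0] at h
    have hγ : Multiplicative.toAdd γ = 0 := by
      rcases lt_trichotomy (Multiplicative.toAdd γ) 0 with h0 | h0 | h0
      · exfalso
        obtain ⟨n, hn⟩ := Int.eq_ofNat_of_zero_le (neg_nonneg.mpr h0.le)
        have hn' : Multiplicative.toAdd γ = -(n : ℤ) := by
          have : -Multiplicative.toAdd γ = (n : ℤ) := hn
          linarith
        rw [hn', zpow_neg, zpow_natCast] at h
        have h2 : s' = g ^ n * s := by
          apply hinj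
          rw [map_mul, map_pow, ← h]
          field_simp
        apply hs2'
        rw [h2]
        refine Dvd.dvd.mul_right (dvd_pow_self g ?_) _
        rintro rfl
        simp at hn'
        omega
      · exact h0
      · exfalso
        obtain ⟨n, hn⟩ := Int.eq_ofNat_of_zero_le h0.le
        rw [hn] at h
        have h2 : s = g ^ n * s' := by
          apply hinj
          rw [map_mul, map_pow, ← h]
          congr 1
          exact (zpow_natCast _ _)
        apply hs2
        rw [h2]
        refine Dvd.dvd.mul_right (dvd_pow_self g ?_) _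
        rintro rfl
        rw [hn] at h0
        exact absurd h0 (by simp)
    rw [hγ, zpow_zero, one_mul] at h
    have : s' = s := hinj h
    subst this
    exact ⟨rfl, hγ⟩

lemma dvrPD_pi (p : ℕ) (g : A) (hg : Irreducible g) (θ : A →+* E)
    (hθ : ∀ a, θ a = 0 ↔ g ∣ a) (h : algebraMap A L g ≠ 0) :
    (dvrPD p L g hg θ hθ).f (Additive.ofMul (Units.mk0 _ h)) = 0 ∧
    (dvrPD p L g hg θ hθ).v (Additive.ofMul (Units.mk0 _ h)) = 1 := by
  have h1 : (dvrPD p L g hg θ hθ).θ 1 ≠ 0 := by rw [map_one]; exact one_ne_zero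
  have h2 : ((Units.mk0 _ h : Lˣ) : L) * (dvrPD p L g hg θ hθ).i 1
      = (dvrPD p L g hg θ hθ).ι (Multiplicative.ofAdd 1) * (dvrPD p L g hg θ hθ).i 1 := by
    congr 1
    change _ = ((zpowersHom Lˣ _ (Multiplicative.ofAdd 1) : Lˣ) : L)
    rw [zpowersHom_apply, toAdd_ofAdd, zpow_one]
  refine ⟨?_, ?_⟩
  · rw [PD.f_eq _ h1 h1 h2, sub_self]
  · rw [PD.v_eq _ h1 h1 h2]; rfl

lemma dvrPD_surj (p : ℕ) (g : A) (hg : Irreducible g) (θ : A →+* E)
    (hθ : ∀ a, θ a = 0 ↔ g ∣ a) (hs : Function.Surjective θ) : (dvrPD p L g hg θ hθ).Surj := by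
  intro e
  obtain ⟨s, hs⟩ := hs e
  refine ⟨s, 1, ?_, ?_, ?_⟩
  · change θ s ≠ 0
    rw [hs]; exact e.ne_zero
  · rw [map_one]; exact one_ne_zero
  · rw [map_one, mul_one]; exact hs.symm

end

end Run7.h753
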