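import Mathlib

/-!
# Fraction fields of polynomial rings
-/

set_option autoImplicit false
open Polynomial

namespace Run7.h753

universe u v w

/-- `Frac (R[X])` versus `Frac (Frac(R)[X])`. -/
lemma frac_ringEquiv_aux (R : Type u) [CommRing R] [IsDomain R] :
    Nonempty (FractionRing (Polynomial R) ≃+* FractionRing (Polynomial (FractionRing R))) := by
  have hinj0 : Function.Injective (algebraMap R (FractionRing R)) :=
    IsFractionRing.injective R (FractionRing R)
  have hinj1 : Function.Injective (Polynomial.mapRingHom (algebraMap R (FractionRing R))) :=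
    Polynomial.map_injective _ hinj0
  have hinj2 : Function.Injective (algebraMap (Polynomial (FractionRing R))
      (FractionRing (Polynomial (FractionRing R)))) := IsFractionRing.injective _ _
  let : Algebra (Polynomial R) (FractionRing (Polynomial (FractionRing R))) :=
    ((algebraMap (Polynomial (FractionRing R)) (FractionRing (Polynomial (FractionRing R)))).comp
      (Polynomial.mapRingHom (algebraMap R (FractionRing R)))).toAlgebra
  have hmap : ∀ P : Polynomial R, algebraMap (Polynomial R)
      (FractionRing (Polynomial (FractionRing R))) P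
      = algebraMap (Polynomial (FractionRing R)) _ (P.map (algebraMap R (FractionRing R))) :=
    fun P => rfl
  have : FaithfulSMul (Polynomial R) (FractionRing (Polynomial (FractionRing R))) := by
    rw [faithfulSMul_iff_algebraMap_injective]
    exact hinj2.comp hinj1
  have hfrac : IsFractionRing (Polynomial R) (FractionRing (Polynomial (FractionRing R))) := by
    refine IsFractionRing.of_field _ _ fun z => ?_
    obtain ⟨P, Q, hQ, rfl⟩ := IsFractionRing.div_surjective (A := Polynomial (FractionRing R)) z
    obtain ⟨b, hb, hP⟩ := IsLocalization.integerNormalization_spec (nonZeroDivisors R) P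
    obtain ⟨c, hc, hQ'⟩ := IsLocalization.integerNormalization_spec (nonZeroDivisors R) Q
    have hb0 : b ≠ 0 := nonZeroDivisors.ne_zero hb
    have hc0 : c ≠ 0 := nonZeroDivisors.ne_zero hc
    refine ⟨Polynomial.C c * IsLocalization.integerNormalization (nonZeroDivisors R) P,
      Polynomial.C b * IsLocalization.integerNormalization (nonZeroDivisors R) Q, ?_⟩
    rw [hmap, hmap, Polynomial.map_mul, Polynomial.map_mul, hP, hQ', Polynomial.map_C,
      Polynomial.map_C]
    have e1 : b • P = Polynomial.C (algebraMap R (FractionRing R) b) * P := by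
      rw [← algebraMap_smul (FractionRing R) b P, Polynomial.smul_eq_C_mul]
    have e2 : c • Q = Polynomial.C (algebraMap R (FractionRing R) c) * Q := by
      rw [← algebraMap_smul (FractionRing R) c Q, Polynomial.smul_eq_C_mul]
    rw [e1, e2]
    simp only [map_mul]
    have h1 : algebraMap (Polynomial (FractionRing R)) (FractionRing (Polynomial (FractionRing R)))
        (Polynomial.C (algebraMap R (FractionRing R) b)) ≠ 0 := by
      rw [ne_eq, map_eq_zero_iff _ hinj2, Polynomial.C_eq_zero, map_eq_zero_iff _ hinj0]
      exact hb0
    have h2 : algebraMap (Polynomial (FractionRing R)) (FractionRing (Polynomial (FractionRing R)))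
        (Polynomial.C (algebraMap R (FractionRing R) c)) ≠ 0 := by
      rw [ne_eq, map_eq_zero_iff _ hinj2, Polynomial.C_eq_zero, map_eq_zero_iff _ hinj0]
      exact hc0
    have h3 : algebraMap (Polynomial (FractionRing R)) (FractionRing (Polynomial (FractionRing R)))
        Q ≠ 0 := by
      rw [ne_eq, map_eq_zero_iff _ hinj2]
      exact nonZeroDivisors.ne_zero hQ
    field_simp
  exact ⟨IsFractionRing.ringEquivOfRingEquiv (RingEquiv.refl (Polynomial R))⟩

/-- `F(x_0, …, x_m)` as the fraction field of `F(x_1, …, x_m)[X]`. -/
lemma frac_ringEquiv (F : Type u) [Field F] (m : ℕ) :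
    Nonempty (FractionRing (MvPolynomial (Fin (m + 1)) F) ≃+*
      FractionRing (Polynomial (FractionRing (MvPolynomial (Fin m) F)))) := by
  obtain ⟨e⟩ := frac_ringEquiv_aux (MvPolynomial (Fin m) F)
  exact ⟨(IsFractionRing.ringEquivOfRingEquiv (K := FractionRing (MvPolynomial (Fin (m + 1)) F))
    (L := FractionRing (Polynomial (MvPolynomial (Fin m) F)))
    (MvPolynomial.finSuccEquiv F m).toRingEquiv).trans e⟩

end Run7.h753
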