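import Pool.Agent.Run7.h753.GaussInst
import Pool.Agent.Run7.h753.DVR
import Pool.Agent.Run7.h753.Frac

/-!
# From rational function fields in m+1 variables to function fields of transcendence degree m
-/

set_option autoImplicit false
open scoped TensorProduct

namespace Run7.h753

universe u v w

/-- The algebraic closure of `κ(s)`. -/
abbrev K1 (κ : Type u) [Field κ] : Type u := AlgebraicClosure (RatFunc κ)

/-- The variable. -/
noncomputable def sK (κ : Type u) [Field κ] : K1 κ := algebraMap (RatFunc κ) (K1 κ) RatFunc.X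

lemma exists_place_at (κ : Type u) [Field κ] [IsAlgClosed κ] (a : κ) :
    ∃ (V : ValuationSubring (K1 κ)) (_ : Algebra κ V) (_ : IsScalarTower κ V (K1 κ))
      (φ : V →ₐ[κ] κ) (hs : sK κ ∈ V), φ ⟨sK κ, hs⟩ = a := by
  let i : Polynomial κ →+* K1 κ := (algebraMap (RatFunc κ) (K1 κ)).comp
    (algebraMap (Polynomial κ) (RatFunc κ))
  have hi : Function.Injective i :=
    (algebraMap (RatFunc κ) (K1 κ)).injective.comp (IsFractionRing.injective _ _)
  have hiC : ∀ c : κ, i (Polynomial.C c) = algebraMap κ (K1 κ) c := by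
    intro c
    rw [IsScalarTower.algebraMap_apply κ (RatFunc κ) (K1 κ)]
    rfl
  obtain ⟨V, φ, hφ, -⟩ := exists_place i (Polynomial.evalRingHom a)
    (fun c => ⟨Polynomial.C c, by simp⟩) (fun r hr => by
      have : r = 0 := hi (by rw [hr, map_zero])
      rw [this, map_zero])
  have hV : ∀ c : κ, algebraMap κ (K1 κ) c ∈ V := fun c => by
    rw [← hiC]; exact (hφ _).1
  let inc : κ →+* V :=
    { toFun := fun c => ⟨algebraMap κ (K1 κ) c, hV c⟩
      map_one' := Subtype.ext (map_one _)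
      map_mul' := fun a b => Subtype.ext (map_mul _ _ _)
      map_zero' := Subtype.ext (map_zero _)
      map_add' := fun a b => Subtype.ext (map_add _ _ _) }
  let inst : Algebra κ V := inc.toAlgebra
  have tower : IsScalarTower κ V (K1 κ) := IsScalarTower.of_algebraMap_eq (fun c => rfl)
  have hX : i Polynomial.X = sK κ := by
    change algebraMap (RatFunc κ) (K1 κ) (algebraMap (Polynomial κ) (RatFunc κ) Polynomial.X) = _
    rw [RatFunc.algebraMap_X]; rfl
  have hs : sK κ ∈ V := by rw [← hX]; exact (hφ _).1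
  refine ⟨V, inst, tower, { φ with commutes' := ?_ }, hs, ?_⟩
  · intro c
    obtain ⟨h1, h2⟩ := hφ (Polynomial.C c)
    have : (⟨i (Polynomial.C c), h1⟩ : V) = algebraMap κ V c := Subtype.ext (hiC c)
    rw [this] at h2
    simpa using h2
  · obtain ⟨h1, h2⟩ := hφ Polynomial.X
    have : (⟨i Polynomial.X, h1⟩ : V) = ⟨sK κ, hs⟩ := Subtype.ext hX
    rw [this] at h2
    simpa using h2

lemma pow_surj_units {κ : Type u} [Field κ] [IsAlgClosed κ] {p : ℕ} (hp : 0 < p) (c : κˣ) :
    ∃ d : κˣ, d ^ p = c := by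
  obtain ⟨z, hz⟩ := IsAlgClosed.exists_pow_nat_eq (c : κ) hp
  have hz0 : z ≠ 0 := by
    rintro rfl
    rw [zero_pow hp.ne'] at hz
    exact c.ne_zero hz.symm
  refine ⟨Units.mk0 z hz0, ?_⟩
  ext
  simp [hz]

lemma negOne_of_algebra {κ : Type u} [Field κ] [IsAlgClosed κ] {p : ℕ} (hp : 0 < p)
    {E : Type v} [Field E] (j : κ →+* E) : NegOne p E := by
  obtain ⟨d, hd⟩ := pow_surj_units (κ := κ) hp (-1)
  refine ⟨Units.map (j : κ →* E) d, ?_⟩
  rw [← map_pow, hd]
  ext
  simp

/-- If every unit is a `p`-th power then `Kp` vanishes. -/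
lemma symLE_of_perfect {p : ℕ} {K : Type u} [Field K] (h : ∀ c : Kˣ, ∃ d : Kˣ, d ^ p = c) (k : ℕ) :
    SymLE p K k := by
  rw [symLE_iff]
  intro x
  refine ⟨fun _ => 1, fun _ => 1, ?_⟩
  have h0 : ∀ y : Kp p K, y = 0 := by
    intro y
    induction y using Kp_induction with
    | h0 => rfl
    | hs a b =>
      rw [← symQ_cl, cl_eq_zero_iff.mpr (h a), map_zero]; rfl
    | ha x y hx hy => rw [hx, hy, add_zero]
  rw [h0 x]
  symm
  exact Finset.sum_eq_zero fun i _ => sym_one_left _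

section

variable {p : ℕ} {κ : Type u} [Field κ] [IsAlgClosed κ] {K : Type v} [Field K] [Algebra κ K]
  {m : ℕ}

omit [IsAlgClosed κ] in
lemma aeval_tensor_injective (Ω : Type w) [Field Ω] [Algebra κ Ω] (x : Fin m → K)
    (hx : AlgebraicIndependent κ x) :
    Function.Injective (MvPolynomial.aeval (fun i => (1 : Ω) ⊗ₜ[κ] x i) :
      MvPolynomial (Fin m) Ω →ₐ[Ω] Ω ⊗[κ] K) := by
  have h1 : (MvPolynomial.aeval (fun i => (1 : Ω) ⊗ₜ[κ] x i) :
      MvPolynomial (Fin m) Ω →ₐ[Ω] Ω ⊗[κ] K)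
      = (Algebra.TensorProduct.map (AlgHom.id Ω Ω) (MvPolynomial.aeval x)).comp
        (MvPolynomial.algebraTensorAlgEquiv κ Ω (σ := Fin m)).symm.toAlgHom := by
    apply MvPolynomial.algHom_ext
    intro i
    simp
  rw [h1, AlgHom.coe_comp]
  refine Function.Injective.comp ?_ (AlgEquiv.injective _)
  have h2 : Function.Injective (LinearMap.lTensor Ω (MvPolynomial.aeval x).toLinearMap) :=
    Module.Flat.lTensor_preserves_injective_linearMap _ hx
  exact h2

/-- The key step. -/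
theorem stepK (hp : p.Prime) (x : Fin m → K) (hx : AlgebraicIndependent κ x) (y : K)
    (hy : ∃ q : Polynomial (MvPolynomial (Fin m) κ), q ≠ 0 ∧
      q.eval₂ (MvPolynomial.aeval x : MvPolynomial (Fin m) κ →ₐ[κ] K).toRingHom y = 0)
    (htop : IntermediateField.adjoin κ (insert y (Set.range x)) = ⊤) {k : ℕ}
    (h : SymLE p (FractionRing (MvPolynomial (Fin (m + 1)) (K1 κ))) (k + 1)) : SymLE p K k := by
  by_cases hall : ∀ c : Kˣ, ∃ d : Kˣ, d ^ p = c
  · exact symLE_of_perfect hall k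
  push Not at hall
  obtain ⟨χ, hχ⟩ := hall
  have hχ' : cl p χ ≠ 0 := by
    rw [ne_eq, cl_eq_zero_iff]
    rintro ⟨d, hd⟩
    exact hχ d hd
  obtain ⟨V0, inst0, tower0, φ0, hs0, hφ0⟩ := exists_place_at κ 0
  obtain ⟨V1, inst1, tower1, φ1, hs1, hφ1⟩ := exists_place_at κ 1
  have hdom : IsDomain (K1 κ ⊗[κ] K) := (tensorGD K V0 φ0).isDomain
  have hκ : ∀ c : κˣ, ∃ d : κˣ, d ^ p = c := pow_surj_units hp.pos
  have hinjD : Function.Injective (algebraMap (K1 κ ⊗[κ] K) (FractionRing (K1 κ ⊗[κ] K))) :=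
    IsFractionRing.injective _ _
  -- the embedding of `K`
  let j : K →+* FractionRing (K1 κ ⊗[κ] K) :=
    (algebraMap (K1 κ ⊗[κ] K) (FractionRing (K1 κ ⊗[κ] K))).comp
      (Algebra.TensorProduct.includeRight : K →ₐ[κ] K1 κ ⊗[κ] K).toRingHom
  have hj : ∀ a, j a = algebraMap (K1 κ ⊗[κ] K) (FractionRing (K1 κ ⊗[κ] K)) (1 ⊗ₜ a) :=
    fun a => rfl
  -- the rational function field
  let a1 : MvPolynomial (Fin m) (K1 κ) →+* FractionRing (K1 κ ⊗[κ] K) :=
    (algebraMap (K1 κ ⊗[κ] K) (FractionRing (K1 κ ⊗[κ] K))).comp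
      (MvPolynomial.aeval (fun i => (1 : K1 κ) ⊗ₜ[κ] x i) :
        MvPolynomial (Fin m) (K1 κ) →ₐ[K1 κ] K1 κ ⊗[κ] K).toRingHom
  have ha1 : Function.Injective a1 := hinjD.comp (aeval_tensor_injective (K1 κ) x hx)
  let a2 : FractionRing (MvPolynomial (Fin m) (K1 κ)) →+* FractionRing (K1 κ ⊗[κ] K) :=
    IsFractionRing.lift ha1
  have ha2 : ∀ P, a2 (algebraMap _ _ P) = a1 P := fun P => IsFractionRing.lift_algebraMap ha1 P
  let alg : Algebra (FractionRing (MvPolynomial (Fin m) (K1 κ))) (FractionRing (K1 κ ⊗[κ] K)) :=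
    a2.toAlgebra
  have halg : ∀ z, algebraMap (FractionRing (MvPolynomial (Fin m) (K1 κ)))
      (FractionRing (K1 κ ⊗[κ] K)) z = a2 z := fun z => rfl
  have hCc : ∀ c : K1 κ, algebraMap (K1 κ ⊗[κ] K) (FractionRing (K1 κ ⊗[κ] K)) (c ⊗ₜ 1)
      = a2 (algebraMap (MvPolynomial (Fin m) (K1 κ)) _ (MvPolynomial.C c)) := by
    intro c
    rw [ha2]
    change _ = algebraMap (K1 κ ⊗[κ] K) (FractionRing (K1 κ ⊗[κ] K))
      (MvPolynomial.aeval (fun i => (1 : K1 κ) ⊗ₜ[κ] x i) (MvPolynomial.C c))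
    rw [MvPolynomial.aeval_C, Algebra.TensorProduct.algebraMap_apply]
    rfl
  have hXi : ∀ i, j (x i) = a2 (algebraMap (MvPolynomial (Fin m) (K1 κ)) _
      (MvPolynomial.X i)) := by
    intro i
    rw [ha2]
    change _ = algebraMap (K1 κ ⊗[κ] K) (FractionRing (K1 κ ⊗[κ] K))
      (MvPolynomial.aeval (fun i => (1 : K1 κ) ⊗ₜ[κ] x i) (MvPolynomial.X i))
    rw [MvPolynomial.aeval_X, hj]
  have hjc : ∀ c : κ, j (algebraMap κ K c)
      = a2 (algebraMap (MvPolynomial (Fin m) (K1 κ)) _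
        (MvPolynomial.C (algebraMap κ (K1 κ) c))) := by
    intro c
    rw [← hCc, hj]
    congr 1
    rw [Algebra.algebraMap_eq_smul_one, Algebra.algebraMap_eq_smul_one,
      TensorProduct.tmul_smul, TensorProduct.smul_tmul']
  -- algebraicity of `j y`
  have hYalg : IsAlgebraic (FractionRing (MvPolynomial (Fin m) (K1 κ))) (j y) := by
    obtain ⟨q, hq0, hq⟩ := hy
    let b1 : MvPolynomial (Fin m) κ →+* FractionRing (MvPolynomial (Fin m) (K1 κ)) :=
      (algebraMap (MvPolynomial (Fin m) (K1 κ)) (FractionRing (MvPolynomial (Fin m) (K1 κ)))).comp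
        (MvPolynomial.map (algebraMap κ (K1 κ)))
    have hb1 : Function.Injective b1 := (IsFractionRing.injective _ _).comp
      (MvPolynomial.map_injective _ (algebraMap κ (K1 κ)).injective)
    refine ⟨q.map b1, ?_, ?_⟩
    · rw [ne_eq, Polynomial.map_eq_zero_iff hb1]
      exact hq0
    · rw [Polynomial.aeval_def, Polynomial.eval₂_map]
      have hcomp : (algebraMap (FractionRing (MvPolynomial (Fin m) (K1 κ)))
          (FractionRing (K1 κ ⊗[κ] K))).comp b1
          = j.comp (MvPolynomial.aeval x : MvPolynomial (Fin m) κ →ₐ[κ] K).toRingHom := by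
        apply MvPolynomial.ringHom_ext
        · intro c
          change a2 (algebraMap (MvPolynomial (Fin m) (K1 κ)) _
            (MvPolynomial.map (algebraMap κ (K1 κ)) (MvPolynomial.C c)))
            = j (MvPolynomial.aeval x (MvPolynomial.C c))
          rw [MvPolynomial.map_C, MvPolynomial.aeval_C, hjc]
        · intro i
          change a2 (algebraMap (MvPolynomial (Fin m) (K1 κ)) _
            (MvPolynomial.map (algebraMap κ (K1 κ)) (MvPolynomial.X i)))
            = j (MvPolynomial.aeval x (MvPolynomial.X i))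
          rw [MvPolynomial.map_X, MvPolynomial.aeval_X, hXi]
      rw [hcomp, ← Polynomial.hom_eval₂, hq, map_zero]
  -- generation
  have hgen : IntermediateField.adjoin (FractionRing (MvPolynomial (Fin m) (K1 κ))) {j y} = ⊤ := by
    set F1 := IntermediateField.adjoin (FractionRing (MvPolynomial (Fin m) (K1 κ))) {j y} with hF1
    have hbase : ∀ z, a2 z ∈ F1 := fun z => F1.algebraMap_mem z
    have hY : j y ∈ F1 := IntermediateField.mem_adjoin_simple_self _ _
    have hKF : ∀ z : K, j z ∈ F1 := by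
      let S : IntermediateField κ K := Subfield.toIntermediateField (F1.toSubfield.comap j)
        (fun c => by
          change j (algebraMap κ K c) ∈ F1
          rw [hjc]
          exact hbase _)
      have hS : S = ⊤ := by
        rw [eq_top_iff, ← htop, IntermediateField.adjoin_le_iff]
        rintro z (rfl | ⟨i, rfl⟩)
        · exact hY
        · change j (x i) ∈ F1
          rw [hXi]
          exact hbase _
      intro z
      have : z ∈ S := by rw [hS]; exact IntermediateField.mem_top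
      exact this
    have hD : ∀ d : K1 κ ⊗[κ] K, algebraMap _ (FractionRing (K1 κ ⊗[κ] K)) d ∈ F1 := by
      intro d
      induction d using TensorProduct.induction_on with
      | zero => rw [map_zero]; exact F1.zero_mem
      | tmul c z =>
        have : c ⊗ₜ[κ] z = (c ⊗ₜ 1) * ((1 : K1 κ) ⊗ₜ z) := by
          rw [Algebra.TensorProduct.tmul_mul_tmul, mul_one, one_mul]
        rw [this, map_mul]
        exact F1.mul_mem (by rw [hCc]; exact hbase _) (hKF z)
      | add a b ha hb => rw [map_add]; exact F1.add_mem ha hb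
    rw [eq_top_iff]
    intro z _
    obtain ⟨P, Q, -, rfl⟩ := IsFractionRing.div_surjective (A := K1 κ ⊗[κ] K) z
    exact F1.div_mem (hD P) (hD Q)
  have hsurj : Function.Surjective (Polynomial.aeval (R := FractionRing
      (MvPolynomial (Fin m) (K1 κ))) (j y)) := by
    intro z
    have hz : z ∈ (IntermediateField.adjoin (FractionRing (MvPolynomial (Fin m) (K1 κ)))
        {j y}).toSubalgebra := by rw [hgen]; exact Algebra.mem_top
    rw [IntermediateField.adjoin_simple_toSubalgebra_of_isAlgebraic hYalg,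
      Algebra.adjoin_singleton_eq_range_aeval] at hz
    exact hz
  have hYint : IsIntegral (FractionRing (MvPolynomial (Fin m) (K1 κ))) (j y) := hYalg.isIntegral
  have hirr := minpoly.irreducible hYint
  -- transfer to the other model of the rational function field
  obtain ⟨e⟩ := frac_ringEquiv (K1 κ) m
  have h' := h.of_ringEquiv e
  have hn : NegOne p (FractionRing (K1 κ ⊗[κ] K)) := negOne_of_algebra hp.pos
    (j.comp (algebraMap κ K))
  have hg0 : algebraMap (Polynomial (FractionRing (MvPolynomial (Fin m) (K1 κ))))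
      (FractionRing (Polynomial (FractionRing (MvPolynomial (Fin m) (K1 κ)))))
      (minpoly (FractionRing (MvPolynomial (Fin m) (K1 κ))) (j y)) ≠ 0 := by
    rw [ne_eq, map_eq_zero_iff _ (IsFractionRing.injective _ _)]
    exact hirr.ne_zero
  have hθ : ∀ a, ((Polynomial.aeval (R := FractionRing (MvPolynomial (Fin m) (K1 κ)))
      (j y)).toRingHom) a = 0 ↔ minpoly (FractionRing (MvPolynomial (Fin m) (K1 κ))) (j y) ∣ a :=
    fun a => (minpoly.dvd_iff).symm
  obtain ⟨hπ, hπ'⟩ := dvrPD_pi (L := FractionRing (Polynomial (FractionRing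
    (MvPolynomial (Fin m) (K1 κ))))) p _ hirr _ hθ hg0
  -- the class `X`
  let t : K1 κ ⊗[κ] K := 1 + sK κ ⊗ₜ ((χ : K) - 1)
  let t0 : V0 ⊗[κ] K := 1 + (⟨sK κ, hs0⟩ : V0) ⊗ₜ ((χ : K) - 1)
  let t1 : V1 ⊗[κ] K := 1 + (⟨sK κ, hs1⟩ : V1) ⊗ₜ ((χ : K) - 1)
  have ht0 : (tensorGD K V0 φ0).r t0 = t := by
    change tensorR K V0 t0 = t
    rw [map_add, map_one, tensorR_tmul]
  have ht1 : (tensorGD K V1 φ1).r t1 = t := by
    change tensorR K V1 t1 = t
    rw [map_add, map_one, tensorR_tmul]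
  have hθ0 : (tensorGD K V0 φ0).θ t0 = 1 := by
    change tensorθ K V0 φ0 t0 = 1
    rw [map_add, map_one, tensorθ_tmul, hφ0, map_zero, zero_mul, add_zero]
  have hθ1 : (tensorGD K V1 φ1).θ t1 = χ := by
    change tensorθ K V1 φ1 t1 = χ
    rw [map_add, map_one, tensorθ_tmul, hφ1, map_one, one_mul]
    ring
  let P0 := (tensorGD K V0 φ0).pd p hκ (FractionRing (K1 κ ⊗[κ] K))
  let P1 := (tensorGD K V1 φ1).pd p hκ (FractionRing (K1 κ ⊗[κ] K))
  have hP0t : P0.θ t0 ≠ 0 := by
    change (tensorGD K V0 φ0).θ t0 ≠ 0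
    rw [hθ0]; exact one_ne_zero
  have hP1t : P1.θ t1 ≠ 0 := by
    change (tensorGD K V1 φ1).θ t1 ≠ 0
    rw [hθ1]; exact χ.ne_zero
  have hP01 : P0.θ 1 ≠ 0 := by rw [map_one]; exact one_ne_zero
  have hP11 : P1.θ 1 ≠ 0 := by rw [map_one]; exact one_ne_zero
  have htne : algebraMap (K1 κ ⊗[κ] K) (FractionRing (K1 κ ⊗[κ] K)) t ≠ 0 := by
    have := P0.i_ne hP0t
    change algebraMap _ _ ((tensorGD K V0 φ0).r t0) ≠ 0 at this
    rwa [ht0] at this
  have hf0 : P0.f (Additive.ofMul (Units.mk0 _ htne)) = 0 := by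
    have h1 : ((Units.mk0 _ htne : (FractionRing (K1 κ ⊗[κ] K))ˣ) : FractionRing (K1 κ ⊗[κ] K))
        * P0.i 1 = P0.i t0 := by
      rw [map_one, mul_one]
      change algebraMap _ _ t = algebraMap _ _ ((tensorGD K V0 φ0).r t0)
      rw [ht0]
    rw [(P0.f_of_A hP0t hP01 h1).1, P0.c_of_ne hP0t, P0.c_of_ne hP01, sub_eq_zero]
    congr 1
    ext
    change (tensorGD K V0 φ0).θ t0 = P0.θ 1
    rw [hθ0, map_one]
  have hf1 : P1.f (Additive.ofMul (Units.mk0 _ htne)) = cl p χ := by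
    have h1 : ((Units.mk0 _ htne : (FractionRing (K1 κ ⊗[κ] K))ˣ) : FractionRing (K1 κ ⊗[κ] K))
        * P1.i 1 = P1.i t1 := by
      rw [map_one, mul_one]
      change algebraMap _ _ t = algebraMap _ _ ((tensorGD K V1 φ1).r t1)
      rw [ht1]
    rw [(P1.f_of_A hP1t hP11 h1).1, P1.c_of_ne hP1t, P1.c_of_ne hP11]
    have e1 : Units.mk0 _ hP1t = χ := by
      ext
      exact hθ1
    have e2 : Units.mk0 _ hP11 = 1 := by
      ext
      exact map_one _
    rw [e1, e2, cl_one, sub_zero]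
  have hXne : cl p (Units.mk0 _ htne) ≠ 0 := by
    intro h0
    obtain ⟨d, hd⟩ := cl_eq_zero_iff.mp h0
    apply hχ'
    rw [← hf1, ← hd, ofMul_pow, map_nsmul, p_nsmul_Q]
  have hnK : NegOne p K := negOne_of_algebra hp.pos (algebraMap κ K)
  refine symLE_of_tame (dvrPD p (FractionRing (Polynomial (FractionRing
    (MvPolynomial (Fin m) (K1 κ))))) _ hirr _ hθ) hp hn (dvrPD_surj p _ hirr _ hθ hsurj) h'
    _ hπ hπ' j (P0.spec hnK) ?_ _ hXne hf0
  intro a
  change P0.f (Additive.ofMul (Units.map (j : K →* _) a)) = cl p a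
  have hθa : (tensorGD K V0 φ0).θ (1 ⊗ₜ (a : K)) = a := by
    change tensorθ K V0 φ0 (1 ⊗ₜ (a : K)) = a
    rw [tensorθ_tmul, map_one, map_one, one_mul]
  have hPa : P0.θ (1 ⊗ₜ (a : K)) ≠ 0 := by
    change (tensorGD K V0 φ0).θ (1 ⊗ₜ (a : K)) ≠ 0
    rw [hθa]; exact a.ne_zero
  have h1 : ((Units.map (j : K →* _) a : (FractionRing (K1 κ ⊗[κ] K))ˣ) :
      FractionRing (K1 κ ⊗[κ] K)) * P0.i 1 = P0.i (1 ⊗ₜ (a : K)) := by
    rw [map_one, mul_one]
    change j a = algebraMap _ _ ((tensorGD K V0 φ0).r (1 ⊗ₜ (a : K)))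
    rw [hj]
    congr 1
  rw [(P0.f_of_A hPa hP01 h1).1, P0.c_of_ne hPa, P0.c_of_ne hP01]
  have e1 : Units.mk0 _ hPa = a := by
    ext
    exact hθa
  have e2 : Units.mk0 _ hP01 = 1 := by
    ext
    exact map_one _
  rw [e1, e2, cl_one, sub_zero]

end

end Run7.h753
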