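import Pool.Agent.Run7.h753.GaussInst
import Pool.Agent.Run7.h753.StepK

/-!
# From the complex numbers to algebraically closed fields of arbitrary characteristic
-/

set_option autoImplicit false
open scoped TensorProduct Cardinal

namespace Run7.h753

universe u v w

/-- index set -/
abbrev Idx (κ : Type u) : Type u := κ ⊕ ULift.{u} ℝ

/-- the polynomial ring -/
abbrev RR (κ : Type u) : Type u := MvPolynomial (Idx κ) ℤ

/-- A big algebraically closed field of characteristic zero. -/
abbrev BigF (κ : Type u) : Type u := AlgebraicClosure (FractionRing (RR κ))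

lemma bigF_card (κ : Type u) (hκ : #κ ≤ 𝔠) : #(BigF κ) = 𝔠 := by
  apply le_antisymm
  · have h1 : #(BigF κ) ≤ max #(FractionRing (RR κ)) ℵ₀ :=
      Algebra.IsAlgebraic.cardinalMk_le_max _ _
    have h2 : #(FractionRing (RR κ)) = #(RR κ) := IsFractionRing.cardinalMk (RR κ) _
    have h3 : #(RR κ) ≤ max (max (Cardinal.lift.{u} #ℤ) (Cardinal.lift.{0} #(Idx κ))) ℵ₀ :=
      MvPolynomial.cardinalMk_le_max_lift
    have h4 : #(Idx κ) ≤ 𝔠 := by
      rw [Cardinal.mk_sum, Cardinal.lift_id, Cardinal.lift_id, Cardinal.mk_uLift, Cardinal.mk_real,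
        Cardinal.lift_continuum]
      exact (Cardinal.add_le_max _ _).trans (max_le (max_le hκ le_rfl) Cardinal.aleph0_le_continuum)
    rw [h2] at h1
    refine h1.trans (max_le (h3.trans (max_le (max_le ?_ ?_) Cardinal.aleph0_le_continuum))
      Cardinal.aleph0_le_continuum)
    · rw [Cardinal.mk_int, Cardinal.lift_aleph0]
      exact Cardinal.aleph0_le_continuum
    · rw [Cardinal.lift_uzero]; exact h4
  · have hinj : Function.Injective (fun r : ULift.{u} ℝ =>
        (algebraMap (FractionRing (RR κ)) (BigF κ)) (algebraMap (RR κ) (FractionRing (RR κ))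
          (MvPolynomial.X (Sum.inr r)))) := by
      intro a b hab
      have h1 := (algebraMap (FractionRing (RR κ)) (BigF κ)).injective hab
      have h2 := IsFractionRing.injective (RR κ) (FractionRing (RR κ)) h1
      have h3 := MvPolynomial.X_injective h2
      exact Sum.inr_injective h3
    have h1 := Cardinal.mk_le_of_injective hinj
    rwa [Cardinal.mk_uLift, Cardinal.mk_real, Cardinal.lift_continuum] at h1

/-- Rational function fields: from `ℂ` to any algebraically closed field of cardinality at most
the continuum. -/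
theorem symLE_of_complex {p : ℕ} (hp : 0 < p) (κ : Type u) [Field κ] [IsAlgClosed κ]
    (hκ : #κ ≤ 𝔠) {n k : ℕ} (h : SymLE p (FractionRing (MvPolynomial (Fin n) ℂ)) k) :
    SymLE p (FractionRing (MvPolynomial (Fin n) κ)) k := by
  have hinj1 : Function.Injective (algebraMap (RR κ) (FractionRing (RR κ))) :=
    IsFractionRing.injective _ _
  let i : RR κ →+* BigF κ := (algebraMap (FractionRing (RR κ)) (BigF κ)).comp
    (algebraMap (RR κ) (FractionRing (RR κ)))
  have hi : Function.Injective i :=
    (algebraMap (FractionRing (RR κ)) (BigF κ)).injective.comp hinj1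
  let φ₀ : RR κ →+* κ := MvPolynomial.eval₂Hom (Int.castRingHom κ) (Sum.elim id (fun _ => 0))
  obtain ⟨V, φ, hφ, -⟩ := exists_place i φ₀ (fun c => ⟨MvPolynomial.X (Sum.inl c), by simp [φ₀]⟩)
    (fun r hr => by
      have : r = 0 := hi (by rw [hr, map_zero])
      rw [this, map_zero])
  have hφs : Function.Surjective φ := by
    intro c
    obtain ⟨h1, h2⟩ := hφ (MvPolynomial.X (Sum.inl c))
    exact ⟨_, by rw [h2]; simp [φ₀]⟩
  have hchar : CharZero (BigF κ) := by
    have : CharZero (FractionRing (RR κ)) := charZero_of_injective_algebraMap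
      (R := RR κ) hinj1
    exact charZero_of_injective_algebraMap (algebraMap (FractionRing (RR κ)) (BigF κ)).injective
  have hcard : Nonempty (ℂ ≃ BigF κ) := by
    rw [← Cardinal.lift_mk_eq', bigF_card κ hκ, Cardinal.mk_complex, Cardinal.lift_continuum,
      Cardinal.lift_continuum]
  obtain ⟨e⟩ := IsAlgClosed.ringEquiv_of_equiv_of_charZero (K := ℂ) (L := BigF κ)
    (by rw [Cardinal.mk_complex]; exact Cardinal.aleph0_lt_continuum) hcard
  have e' : FractionRing (MvPolynomial (Fin n) ℂ) ≃+* FractionRing (MvPolynomial (Fin n) (BigF κ)) :=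
    IsFractionRing.ringEquivOfRingEquiv (MvPolynomial.mapEquiv (Fin n) e)
  exact symLE_mv V φ (Fin n) (pow_surj_units hp) hφs (h.of_ringEquiv e')

/-- Dropping one variable. -/
theorem symLE_drop {p : ℕ} (hp : 0 < p) (F : Type u) [Field F] [IsAlgClosed F] {n k : ℕ}
    (h : SymLE p (FractionRing (MvPolynomial (Fin (n + 1)) F)) k) :
    SymLE p (FractionRing (MvPolynomial (Fin n) F)) k := by
  obtain ⟨e⟩ := frac_ringEquiv F n
  have h' := h.of_ringEquiv e
  have hn : NegOne p (FractionRing (MvPolynomial (Fin n) F)) := negOne_of_algebra hp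
    (algebraMap F (FractionRing (MvPolynomial (Fin n) F)))
  have hθ : ∀ a : Polynomial (FractionRing (MvPolynomial (Fin n) F)),
      Polynomial.evalRingHom 0 a = 0 ↔ Polynomial.X ∣ a := by
    intro a
    rw [Polynomial.coe_evalRingHom, Polynomial.X_dvd_iff, Polynomial.coeff_zero_eq_eval_zero]
  exact (dvrPD p (FractionRing (Polynomial (FractionRing (MvPolynomial (Fin n) F))))
    Polynomial.X Polynomial.irreducible_X (Polynomial.evalRingHom 0) hθ).symLE hn
    (dvrPD_surj p _ _ _ hθ (fun c => ⟨Polynomial.C c, by simp⟩)) h'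

/-- Dropping several variables. -/
theorem symLE_drop' {p : ℕ} (hp : 0 < p) (F : Type u) [Field F] [IsAlgClosed F] {n m k : ℕ}
    (hnm : n ≤ m) (h : SymLE p (FractionRing (MvPolynomial (Fin m) F)) k) :
    SymLE p (FractionRing (MvPolynomial (Fin n) F)) k := by
  induction m, hnm using Nat.le_induction with
  | base => exact h
  | succ m _ ih => exact ih (symLE_drop hp F h)

end Run7.h753
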