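import Mathlib

/-!
# Generators of finitely generated field extensions
-/

set_option autoImplicit false

namespace Run7.h753

universe u v w

lemma exists_data (F : Type u) [Field F] [PerfectField F] (K : Type v) [Field K] [Algebra F K]
    [Algebra.EssFiniteType F K] {n : ℕ} (h : Algebra.trdeg F K = n) :
    ∃ (x : Fin n → K) (y : K), AlgebraicIndependent F x ∧
      IsAlgebraic (IntermediateField.adjoin F (Set.range x)) y ∧
      IntermediateField.adjoin F (insert y (Set.range x)) = ⊤ := by
  obtain ⟨s, hs, hsep⟩ := exists_isTranscendenceBasis_and_isSeparable_of_perfectField F K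
  have hcard : s.card = n := by
    have h1 := hs.cardinalMk_eq_trdeg
    rw [h] at h1
    have h2 : Cardinal.mk s = s.card := by simp
    rw [h2] at h1
    exact_mod_cast h1
  let e : Fin n ≃ s := (Fin.castOrderIso hcard.symm).toEquiv.trans s.equivFin.symm
  let x : Fin n → K := fun i => (e i : K)
  have hrange : Set.range x = (s : Set K) := by
    ext z
    constructor
    · rintro ⟨i, rfl⟩
      exact (e i).2
    · intro hz
      exact ⟨e.symm ⟨z, hz⟩, by simp [x]⟩
  have hx : AlgebraicIndependent F x := hs.1.comp e e.injective
  have hft : Algebra.EssFiniteType (IntermediateField.adjoin F (s : Set K)) K :=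
    Algebra.EssFiniteType.of_comp F _ K
  have hfin : FiniteDimensional (IntermediateField.adjoin F (s : Set K)) K := by
    obtain ⟨t, ht⟩ := IntermediateField.fg_top (IntermediateField.adjoin F (s : Set K)) K
    have h1 : FiniteDimensional (IntermediateField.adjoin F (s : Set K))
        (IntermediateField.adjoin (IntermediateField.adjoin F (s : Set K)) (t : Set K)) :=
      IntermediateField.finiteDimensional_adjoin
        (fun z _ => (Algebra.IsSeparable.isAlgebraic _ K).isAlgebraic z |>.isIntegral)
    rw [ht] at h1
    exact IntermediateField.topEquiv.toLinearEquiv.finiteDimensional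
  obtain ⟨y, hy⟩ := Field.exists_primitive_element (IntermediateField.adjoin F (s : Set K)) K
  refine ⟨x, y, hx, ?_, ?_⟩
  · rw [hrange]
    exact (Algebra.IsSeparable.isAlgebraic _ K).isAlgebraic y
  · rw [hrange]
    have h1 := IntermediateField.adjoin_adjoin_left F (s : Set K) {y}
    rw [hy, IntermediateField.restrictScalars_top] at h1
    rw [h1, Set.union_singleton]

lemma exists_poly_of_isAlgebraic {F : Type u} [Field F] {K : Type v} [Field K] [Algebra F K]
    {n : ℕ} {x : Fin n → K} (hx : AlgebraicIndependent F x) {y : K}
    (hy : IsAlgebraic (IntermediateField.adjoin F (Set.range x)) y) :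
    ∃ q : Polynomial (MvPolynomial (Fin n) F), q ≠ 0 ∧
      q.eval₂ (MvPolynomial.aeval x : MvPolynomial (Fin n) F →ₐ[F] K).toRingHom y = 0 := by
  rw [IntermediateField.isAlgebraic_adjoin_iff] at hy
  obtain ⟨q, hq0, hq⟩ := hy
  refine ⟨q.map hx.aevalEquiv.symm.toRingEquiv.toRingHom, ?_, ?_⟩
  · rw [ne_eq, Polynomial.map_eq_zero_iff hx.aevalEquiv.symm.injective]
    exact hq0
  · rw [Polynomial.eval₂_map, ← hq, Polynomial.aeval_def]
    congr 1
    ext z
    change MvPolynomial.aeval x (hx.aevalEquiv.symm z) = z
    have := hx.algebraMap_aevalEquiv (hx.aevalEquiv.symm z)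
    rw [← this, AlgEquiv.apply_symm_apply]
    rfl

end Run7.h753
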