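import Pool.Agent.Run7.h753.Card
import Pool.Agent.Run7.h753.Data

/-!
# Descent to countable algebraically closed fields, and the upper half of the theorem
-/

set_option autoImplicit false
open scoped TensorProduct Cardinal

namespace Run7.h753

universe u v w

lemma exists_countable_algClosed {κ : Type u} [Field κ] [IsAlgClosed κ] (C : Set κ)
    (hC : C.Countable) : ∃ (κ₀ : Type u) (_ : Field κ₀) (_ : Algebra κ₀ κ), IsAlgClosed κ₀ ∧
      #κ₀ ≤ ℵ₀ ∧ ∀ c ∈ C, c ∈ (algebraMap κ₀ κ).range := by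
  refine ⟨algebraicClosure (Subfield.closure C) κ, inferInstance, inferInstance, ?_, ?_, ?_⟩
  · exact (algebraicClosure.isAlgClosure (Subfield.closure C) κ).isAlgClosed
  · have h1 : #(Subfield.closure C) ≤ ℵ₀ := by
      refine (Subfield.cardinalMk_closure_le_max C).trans (max_le ?_ le_rfl)
      exact Cardinal.mk_le_aleph0_iff.mpr hC
    exact (Algebra.IsAlgebraic.cardinalMk_le_max (Subfield.closure C) _).trans
      (max_le h1 le_rfl)
  · intro c hc
    refine ⟨⟨c, ?_⟩, rfl⟩
    rw [mem_algebraicClosure_iff]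
    exact isAlgebraic_algebraMap (⟨c, Subfield.subset_closure hc⟩ : Subfield.closure C)

lemma card_K1 {κ : Type u} [Field κ] (h : #κ ≤ ℵ₀) : #(K1 κ) ≤ 𝔠 := by
  have h1 : #(K1 κ) ≤ max #(RatFunc κ) ℵ₀ := Algebra.IsAlgebraic.cardinalMk_le_max _ _
  have h2 : #(RatFunc κ) = #(Polynomial κ) := IsFractionRing.cardinalMk (Polynomial κ) _
  have h3 : #(Polynomial κ) ≤ max #κ ℵ₀ := Polynomial.cardinalMk_le_max
  rw [h2] at h1
  exact (h1.trans (max_le (h3.trans (max_le h le_rfl)) le_rfl)).trans Cardinal.aleph0_le_continuum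

lemma trdeg_eq_of_poly {F : Type u} [Field F] {K : Type v} [Field K] [Algebra F K] {n : ℕ}
    {x : Fin n → K} (hx : AlgebraicIndependent F x)
    (h : ∀ z : K, ∃ q : Polynomial (MvPolynomial (Fin n) F), q ≠ 0 ∧
      q.eval₂ (MvPolynomial.aeval x : MvPolynomial (Fin n) F →ₐ[F] K).toRingHom z = 0) :
    Algebra.trdeg F K = n := by
  have halg : Algebra.IsAlgebraic (Algebra.adjoin F (Set.range x)) K := by
    refine ⟨fun z => ?_⟩
    obtain ⟨q, hq0, hq⟩ := h z
    refine ⟨q.map hx.aevalEquiv.toRingEquiv.toRingHom, ?_, ?_⟩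
    · rw [ne_eq, Polynomial.map_eq_zero_iff hx.aevalEquiv.injective]
      exact hq0
    · rw [Polynomial.aeval_def, Polynomial.eval₂_map, ← hq]
      congr 1
  have hb : IsTranscendenceBasis F x := hx.isTranscendenceBasis_iff_isAlgebraic.mpr halg
  have h1 := hb.lift_cardinalMk_eq_trdeg
  rw [Cardinal.mk_fin, Cardinal.lift_natCast, Cardinal.lift_uzero] at h1
  exact h1.symm

/-- Every class comes from a suitable subfield. -/
lemma Kp_exists_finset {p : ℕ} {K : Type v} [Field K] (x : Kp p K) : ∃ S : Finset K,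
    ∀ (K₀ : Type w) [Field K₀] (j : K₀ →+* K), (S : Set K) ⊆ Set.range j →
      ∃ y : Kp p K₀, (Spec.ofRingHom p j).map y = x := by
  classical
  induction x using Kp_induction with
  | h0 => exact ⟨∅, fun K₀ _ j _ => ⟨0, map_zero _⟩⟩
  | hs a b =>
    refine ⟨{(a : K), (b : K)}, fun K₀ _ j hj => ?_⟩
    obtain ⟨a', ha'⟩ := hj (by simp : (a : K) ∈ (({(a : K), (b : K)} : Finset K) : Set K))
    obtain ⟨b', hb'⟩ := hj (by simp : (b : K) ∈ (({(a : K), (b : K)} : Finset K) : Set K))
    have ha0 : a' ≠ 0 := by rintro rfl; rw [map_zero] at ha'; exact a.ne_zero ha'.symm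
    have hb0 : b' ≠ 0 := by rintro rfl; rw [map_zero] at hb'; exact b.ne_zero hb'.symm
    refine ⟨sym p (Units.mk0 a' ha0) (Units.mk0 b' hb0), ?_⟩
    rw [Spec.ofRingHom_sym]
    congr 1
    · ext; simpa using ha'
    · ext; simpa using hb'
  | ha x y hx hy =>
    obtain ⟨S, hS⟩ := hx
    obtain ⟨T, hT⟩ := hy
    refine ⟨S ∪ T, fun K₀ _ j hj => ?_⟩
    rw [Finset.coe_union, Set.union_subset_iff] at hj
    obtain ⟨x', hx'⟩ := hS K₀ j hj.1
    obtain ⟨y', hy'⟩ := hT K₀ j hj.2
    exact ⟨x' + y', by rw [map_add, hx', hy']⟩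

/-- The upper half: from rational function fields over `ℂ` in `m + 1` variables to all fields of
transcendence degree at most `m` over algebraically closed fields. -/
theorem symLE_upper {p : ℕ} (hp : p.Prime) {m k : ℕ}
    (h : SymLE p (FractionRing (MvPolynomial (Fin (m + 1)) ℂ)) (k + 1))
    {κ : Type u} [Field κ] [IsAlgClosed κ] {K : Type v} [Field K] [Algebra κ K]
    (htr : Algebra.trdeg κ K ≤ m) : SymLE p K k := by
  classical
  rw [symLE_iff]
  intro α
  obtain ⟨S, hS⟩ := Kp_exists_finset.{v, v} α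
  -- a finite transcendence basis
  obtain ⟨B, hB⟩ := exists_isTranscendenceBasis κ K
  have hBcard : #B ≤ m := by rw [hB.cardinalMk_eq_trdeg]; exact htr
  have hBfin : Finite B := by
    rw [← Cardinal.lt_aleph0_iff_finite]
    exact hBcard.trans_lt (Cardinal.natCast_lt_aleph0)
  obtain ⟨n, ⟨e⟩⟩ := Finite.exists_equiv_fin B
  have hnm : n ≤ m := by
    have h1 : Nat.card B = n := Nat.card_eq_of_equiv_fin e
    rw [← Nat.cast_card, h1] at hBcard
    exact_mod_cast hBcard
  let x : Fin n → K := fun i => (e.symm i : K)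
  have hx : AlgebraicIndependent κ x := hB.1.comp e.symm e.symm.injective
  have hrange : Set.range x = B := by
    ext z
    constructor
    · rintro ⟨i, rfl⟩
      exact (e.symm i).2
    · intro hz
      exact ⟨e ⟨z, hz⟩, by simp [x]⟩
  have hq : ∀ s : K, ∃ q : Polynomial (MvPolynomial (Fin n) κ), q ≠ 0 ∧
      q.eval₂ (MvPolynomial.aeval x : MvPolynomial (Fin n) κ →ₐ[κ] K).toRingHom s = 0 := by
    intro s
    apply exists_poly_of_isAlgebraic hx
    rw [IntermediateField.isAlgebraic_adjoin_iff, hrange]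
    have := hB.isAlgebraic
    rw [Subtype.range_coe] at this
    exact this.isAlgebraic s
  choose q hq0 hq using hq
  -- the coefficients
  let C : Set κ := ⋃ s ∈ S, Set.range (fun (i : ℕ × (Fin n →₀ ℕ)) =>
    MvPolynomial.coeff i.2 ((q s).coeff i.1))
  have hC : C.Countable := by
    refine Set.Countable.biUnion S.countable_toSet fun s _ => ?_
    exact Set.countable_range _
  obtain ⟨κ₀, fκ₀, aκ₀, hκ₀, hcard, hCκ⟩ := exists_countable_algClosed C hC
  let aK : Algebra κ₀ K := ((algebraMap κ K).comp (algebraMap κ₀ κ)).toAlgebra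
  have tower : IsScalarTower κ₀ κ K := IsScalarTower.of_algebraMap_eq (fun _ => rfl)
  have hx₀ : AlgebraicIndependent κ₀ x := hx.restrictScalars (algebraMap κ₀ κ).injective
  -- descended polynomials
  have hq' : ∀ s ∈ S, ∃ r : Polynomial (MvPolynomial (Fin n) κ₀), r ≠ 0 ∧
      r.eval₂ (MvPolynomial.aeval x : MvPolynomial (Fin n) κ₀ →ₐ[κ₀] K).toRingHom s = 0 := by
    intro s hs
    have h1 : q s ∈ (Polynomial.mapRingHom (MvPolynomial.map (σ := Fin n)
        (algebraMap κ₀ κ))).range := by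
      rw [Polynomial.mem_map_range]
      intro i
      have h2 : ((q s).coeff i) ∈ Set.range (MvPolynomial.map (σ := Fin n) (algebraMap κ₀ κ)) := by
        rw [MvPolynomial.mem_range_map_iff_coeffs_subset]
        intro c hc
        rw [Finset.mem_coe, MvPolynomial.mem_coeffs_iff] at hc
        obtain ⟨μ, -, rfl⟩ := hc
        exact hCκ _ (Set.mem_biUnion hs ⟨(i, μ), rfl⟩)
      exact h2
    obtain ⟨r, hr⟩ := h1
    refine ⟨r, ?_, ?_⟩
    · rintro rfl
      rw [map_zero] at hr
      exact hq0 s hr.symm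
    · rw [← hq s, ← hr, Polynomial.coe_mapRingHom, Polynomial.eval₂_map]
      congr 1
      apply MvPolynomial.ringHom_ext
      · intro c
        change MvPolynomial.aeval x (MvPolynomial.C c)
          = MvPolynomial.aeval x (MvPolynomial.map (algebraMap κ₀ κ) (MvPolynomial.C c))
        rw [MvPolynomial.map_C, MvPolynomial.aeval_C, MvPolynomial.aeval_C]
        rfl
      · intro i
        change MvPolynomial.aeval x (MvPolynomial.X i)
          = MvPolynomial.aeval x (MvPolynomial.map (algebraMap κ₀ κ) (MvPolynomial.X i))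
        rw [MvPolynomial.map_X, MvPolynomial.aeval_X, MvPolynomial.aeval_X]
  -- the subfield
  let F1 : IntermediateField κ₀ K := IntermediateField.adjoin κ₀ (Set.range x)
  let K₀ : IntermediateField κ₀ K := IntermediateField.adjoin κ₀ (S ∪ Set.range x)
  have hK₀fg : Algebra.EssFiniteType κ₀ K₀ := by
    rw [IntermediateField.essFiniteType_iff]
    refine ⟨S ∪ Finset.univ.image x, ?_⟩
    rw [Finset.coe_union, Finset.coe_image, Finset.coe_univ, Set.image_univ]
  have hsub : (S : Set K) ∪ Set.range x ⊆ K₀ := IntermediateField.subset_adjoin _ _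
  have hK₀alg : ∀ z ∈ K₀, IsAlgebraic F1 z := by
    have hle : K₀ ≤ (algebraicClosure F1 K).restrictScalars κ₀ := by
      rw [IntermediateField.adjoin_le_iff]
      rintro z (hz | hz)
      · rw [SetLike.mem_coe, IntermediateField.mem_restrictScalars, mem_algebraicClosure_iff]
        obtain ⟨r, hr0, hr⟩ := hq' z hz
        rw [IntermediateField.isAlgebraic_adjoin_iff]
        refine ⟨r.map hx₀.aevalEquiv.toRingEquiv.toRingHom, ?_, ?_⟩
        · rw [ne_eq, Polynomial.map_eq_zero_iff hx₀.aevalEquiv.injective]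
          exact hr0
        · rw [Polynomial.aeval_def, Polynomial.eval₂_map, ← hr]
          congr 1
      · rw [SetLike.mem_coe, IntermediateField.mem_restrictScalars, mem_algebraicClosure_iff]
        have hz' : z ∈ F1 := IntermediateField.subset_adjoin _ _ hz
        exact isAlgebraic_algebraMap (⟨z, hz'⟩ : F1)
    intro z hz
    exact mem_algebraicClosure_iff.mp (hle hz)
  let x' : Fin n → K₀ := fun i => ⟨x i, hsub (Or.inr ⟨i, rfl⟩)⟩
  have hx' : AlgebraicIndependent κ₀ x' := by
    exact AlgebraicIndependent.of_comp K₀.val hx₀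
  have htr₀ : Algebra.trdeg κ₀ K₀ = n := by
    apply trdeg_eq_of_poly hx'
    intro z
    obtain ⟨r, hr0, hr⟩ := exists_poly_of_isAlgebraic hx₀ (hK₀alg z z.2)
    refine ⟨r, hr0, ?_⟩
    apply K₀.val.injective
    rw [map_zero, ← hr]
    change (K₀.val : K₀ →+* K) _ = _
    rw [Polynomial.hom_eval₂]
    congr 1
    apply MvPolynomial.ringHom_ext
    · intro c
      change K₀.val (MvPolynomial.aeval x' (MvPolynomial.C c))
        = MvPolynomial.aeval x (MvPolynomial.C c)
      rw [MvPolynomial.aeval_C, MvPolynomial.aeval_C]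
      rfl
    · intro i
      change K₀.val (MvPolynomial.aeval x' (MvPolynomial.X i))
        = MvPolynomial.aeval x (MvPolynomial.X i)
      rw [MvPolynomial.aeval_X, MvPolynomial.aeval_X]
      rfl
  obtain ⟨X, Y, hX, hY, htop⟩ := exists_data κ₀ K₀ htr₀
  have hfin : SymLE p K₀ k := by
    refine stepK hp X hX Y (exists_poly_of_isAlgebraic hX hY) htop ?_
    exact symLE_of_complex hp.pos (K1 κ₀) (card_K1 hcard)
      (symLE_drop' hp.pos ℂ (Nat.succ_le_succ hnm) h)
  obtain ⟨β, hβ⟩ := hS K₀ K₀.val.toRingHom (by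
    intro z hz
    exact ⟨⟨z, hsub (Or.inl hz)⟩, rfl⟩)
  obtain ⟨a, b, hab⟩ := (symLE_iff.mp hfin) β
  refine ⟨fun i => Units.map (K₀.val.toRingHom : K₀ →* K) (a i),
    fun i => Units.map (K₀.val.toRingHom : K₀ →* K) (b i), ?_⟩
  rw [← hβ, hab, map_sum]
  rfl

end Run7.h753
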