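import Mathlib

/-!
# Valuation rings dominating a prime given by a homomorphism
-/

set_option autoImplicit false

namespace Run7.h753

universe u v w

lemma exists_dominating {R : Type u} [CommRing R] {K : Type v} [Field K] {B : Type w} [CommRing B]
    [IsDomain B] (i : R →+* K) (θ : R →+* B) (hker : ∀ r, i r = 0 → θ r = 0) :
    ∃ W : ValuationSubring K, ∀ r, i r ∈ W ∧ (θ r ≠ 0 → (i r)⁻¹ ∈ W) ∧
      (θ r = 0 → i r ∈ W.nonunits) := by
  have hs := i.rangeRestrict_surjective
  let θA : i.range →+* B := RingHom.liftOfSurjective i.rangeRestrict hs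
    ⟨θ, fun r hr => hker r (congrArg Subtype.val hr)⟩
  have hθA : ∀ r, θA (i.rangeRestrict r) = θ r := fun r =>
    RingHom.liftOfRightInverse_comp_apply i.rangeRestrict _ _
      ⟨θ, fun r hr => hker r (congrArg Subtype.val hr)⟩ r
  have hP : (RingHom.ker θA).IsPrime := RingHom.ker_isPrime θA
  obtain ⟨W, hW⟩ := (LocalSubring.ofPrime i.range (RingHom.ker θA)).exists_le_valuationSubring
  obtain ⟨hle, hloc⟩ := hW
  have hmem : ∀ r, i r ∈ (LocalSubring.ofPrime i.range (RingHom.ker θA)).toSubring := fun r =>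
    LocalSubring.le_ofPrime _ _ ⟨r, rfl⟩
  have hunit : ∀ r, IsUnit (⟨i r, hmem r⟩ :
      (LocalSubring.ofPrime i.range (RingHom.ker θA)).toSubring) ↔ θ r ≠ 0 := by
    intro r
    have h1 := IsLocalization.AtPrime.isUnit_to_map_iff
      (LocalSubring.ofPrime i.range (RingHom.ker θA)).toSubring (RingHom.ker θA)
      (i.rangeRestrict r)
    rw [Ideal.mem_primeCompl_iff, RingHom.mem_ker, hθA] at h1
    exact h1
  refine ⟨W, fun r => ⟨hle (hmem r), ?_, ?_⟩⟩
  · intro h
    obtain ⟨u, hu⟩ := (hunit r).mpr h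
    have h2 : ((u⁻¹ : (LocalSubring.ofPrime i.range (RingHom.ker θA)).toSubringˣ) :
        (LocalSubring.ofPrime i.range (RingHom.ker θA)).toSubring) = (i r)⁻¹ := by
      have h3 := Units.mul_inv u
      rw [hu] at h3
      have h4 := congrArg Subtype.val h3
      exact (inv_eq_of_mul_eq_one_right h4).symm
    rw [← h2]
    exact hle (Subtype.mem _)
  · intro h
    rw [ValuationSubring.mem_nonunits_iff_exists_mem_maximalIdeal]
    refine ⟨hle (hmem r), ?_⟩
    rw [IsLocalRing.mem_maximalIdeal, mem_nonunits_iff]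
    intro hu
    have h5 : IsUnit (⟨i r, hmem r⟩ :
        (LocalSubring.ofPrime i.range (RingHom.ker θA)).toSubring) := by
      apply hloc.map_nonunit
      exact hu
    exact (hunit r).mp h5 h

end Run7.h753
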