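import Mathlib

/-!
# Extension of homomorphisms to places (Chevalley)
-/

set_option autoImplicit false

namespace Run7.h753

universe u v w

/-- A nonzero algebra of finite type over an algebraically closed field has a rational point. -/
lemma exists_algHom_point (κ : Type u) (S : Type v) [Field κ] [IsAlgClosed κ] [CommRing S]
    [Nontrivial S] [Algebra κ S] [Algebra.FiniteType κ S] : Nonempty (S →ₐ[κ] κ) := by
  obtain ⟨m, hm⟩ := Ideal.exists_maximal S
  let := Ideal.Quotient.field m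
  have hf : Module.Finite κ (S ⧸ m) := finite_of_finite_type_of_isJacobsonRing κ (S ⧸ m)
  have hint : Algebra.IsIntegral κ (S ⧸ m) := Algebra.IsIntegral.of_finite κ (S ⧸ m)
  have hb := IsAlgClosed.algebraMap_bijective_of_isIntegral (k := κ) (K := S ⧸ m)
  let e : κ ≃ₐ[κ] (S ⧸ m) := AlgEquiv.ofBijective (Algebra.ofId κ (S ⧸ m)) hb
  exact ⟨(e.symm : (S ⧸ m) →ₐ[κ] κ).comp (Ideal.Quotient.mkₐ κ m)⟩

/-- Chevalley's extension theorem for homomorphisms onto an algebraically closed field. -/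
theorem exists_place {Ω : Type u} {κ : Type v} {R : Type w} [Field Ω] [Field κ] [IsAlgClosed κ]
    [CommRing R] (i : R →+* Ω) (φ₀ : R →+* κ) (hφ : Function.Surjective φ₀)
    (hker : ∀ r, i r = 0 → φ₀ r = 0) :
    ∃ (V : ValuationSubring Ω) (φ : V →+* κ), (∀ r, ∃ h : i r ∈ V, φ ⟨i r, h⟩ = φ₀ r) ∧
      ∀ x : V, φ x ≠ 0 → (x : Ω)⁻¹ ∈ V := by
  classical
  let P : Set (Subring (Ω × κ)) := {G | ∀ c, ((0 : Ω), c) ∈ G → c = 0}
  have hG₀ : (i.prod φ₀).range ∈ P := by
    rintro c ⟨r, hr⟩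
    rw [RingHom.prod_apply, Prod.mk.injEq] at hr
    rw [← hr.2]
    exact hker r hr.1
  obtain ⟨G, hG₀G, hGmax⟩ := zorn_le_nonempty₀ P (by
    intro c hc hchain y hy
    refine ⟨sSup c, ?_, fun z hz => le_sSup hz⟩
    intro d hd
    rw [Subring.mem_sSup_of_directedOn ⟨y, hy⟩ hchain.directedOn] at hd
    obtain ⟨s, hs, hds⟩ := hd
    exact hc hs d hds) _ hG₀
  have hGP : ∀ c, ((0 : Ω), c) ∈ G → c = 0 := hGmax.1
  let π : G →+* Ω := (RingHom.fst Ω κ).comp G.subtype
  have hπ : Function.Injective π := by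
    rw [injective_iff_map_eq_zero]
    rintro ⟨⟨x, c⟩, hx⟩ h
    have hx0 : x = 0 := h
    subst hx0
    have := hGP c hx
    subst this
    rfl
  let A : Subring Ω := π.range
  let e : G ≃+* A := RingEquiv.ofBijective π.rangeRestrict
    ⟨fun a b h => hπ (congrArg Subtype.val h), π.rangeRestrict_surjective⟩
  let φA : A →+* κ := ((RingHom.snd Ω κ).comp G.subtype).comp e.symm.toRingHom
  have hφA : ∀ (x : Ω) (c : κ) (h : (x, c) ∈ G), ∃ hA : x ∈ A, φA ⟨x, hA⟩ = c := by
    intro x c h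
    have hA : x ∈ A := ⟨⟨(x, c), h⟩, rfl⟩
    refine ⟨hA, ?_⟩
    have : e ⟨(x, c), h⟩ = ⟨x, hA⟩ := rfl
    change ((RingHom.snd Ω κ).comp G.subtype) (e.symm ⟨x, hA⟩) = c
    rw [← this, RingEquiv.symm_apply_apply]
    rfl
  have hmemG : ∀ (x : A), ((x : Ω), φA x) ∈ G := by
    intro x
    obtain ⟨⟨⟨y, c⟩, hy⟩, hyx⟩ := x.2
    have hyx' : y = x := hyx
    obtain ⟨hA, hc⟩ := hφA y c hy
    have : (⟨y, hA⟩ : A) = x := Subtype.ext hyx'
    rw [this] at hc
    rw [hc, ← hyx']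
    exact hy
  have hφAs : Function.Surjective φA := by
    intro c
    obtain ⟨r, hr⟩ := hφ c
    have : (i r, φ₀ r) ∈ G := hG₀G ⟨r, rfl⟩
    obtain ⟨hA, hc⟩ := hφA _ _ this
    exact ⟨_, hc.trans hr⟩
  have hI : RingHom.ker φA ≠ ⊤ := RingHom.ker_ne_top φA
  obtain ⟨V, hAV, hIV⟩ := Ideal.image_subset_nonunits_valuationSubring (A := A) _ hI
  let inc : A →+* V := Subring.inclusion hAV
  let res : V →+* IsLocalRing.ResidueField V := IsLocalRing.residue V
  have hres0 : ∀ x : A, φA x = 0 → res (inc x) = 0 := by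
    intro x hx
    have h1 : (x : Ω) ∈ V.nonunits := hIV ⟨x, hx, rfl⟩
    rw [IsLocalRing.residue_eq_zero_iff]
    rw [ValuationSubring.mem_nonunits_iff_exists_mem_maximalIdeal] at h1
    obtain ⟨h2, h3⟩ := h1
    exact h3
  let ψ : κ →+* IsLocalRing.ResidueField V :=
    RingHom.liftOfSurjective φA hφAs ⟨res.comp inc, fun x hx => hres0 x hx⟩
  have hψ : ∀ x : A, ψ (φA x) = res (inc x) := fun x =>
    RingHom.liftOfRightInverse_comp_apply φA _ _ ⟨res.comp inc, fun x hx => hres0 x hx⟩ x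
  let : Algebra κ (IsLocalRing.ResidueField V) := ψ.toAlgebra
  have hVA : ∀ v : V, (v : Ω) ∈ A := by
    intro v
    let S : Subalgebra κ (IsLocalRing.ResidueField V) := Algebra.adjoin κ {res v}
    have hS : Algebra.FiniteType κ S := by
      rw [← Subalgebra.fg_iff_finiteType]
      exact ⟨{res v}, by simp [S]⟩
    obtain ⟨τ⟩ := exists_algHom_point κ S
    let T : Subring V := Subring.comap res S.toSubring
    let g : T →+* S := (res.comp T.subtype).codRestrict S.toSubring (fun x => x.2)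
    let h : T →+* Ω × κ := (V.subtype.comp T.subtype).prod ((τ : S →+* κ).comp g)
    have hGG' : G ≤ h.range := by
      rintro ⟨x, c⟩ hxc
      obtain ⟨hA, hc⟩ := hφA x c hxc
      have hr : res (inc ⟨x, hA⟩) = algebraMap κ _ c := by rw [← hψ, hc]; rfl
      have hT : inc ⟨x, hA⟩ ∈ T := by
        change res (inc ⟨x, hA⟩) ∈ S.toSubring
        rw [hr]
        exact S.algebraMap_mem c
      refine ⟨⟨inc ⟨x, hA⟩, hT⟩, ?_⟩
      change (x, τ (g ⟨inc ⟨x, hA⟩, hT⟩)) = (x, c)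
      congr 1
      have : g ⟨inc ⟨x, hA⟩, hT⟩ = algebraMap κ S c := Subtype.ext hr
      rw [this, AlgHom.commutes]
      rfl
    have hG'P : h.range ∈ P := by
      rintro c ⟨x, hx⟩
      have h1 : ((x : V) : Ω) = 0 := congrArg Prod.fst hx
      have h2 : τ (g x) = c := congrArg Prod.snd hx
      have h3 : x = 0 := Subtype.ext (Subtype.ext h1)
      rw [← h2, h3, map_zero, map_zero]
    have hle : h.range ≤ G := hGmax.2 hG'P hGG'
    have hvT : v ∈ T := by
      change res v ∈ S.toSubring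
      exact Algebra.subset_adjoin (Set.mem_singleton _)
    have := hle ⟨⟨v, hvT⟩, rfl⟩
    exact (hφA _ _ this).1
  let φ : V →+* κ := φA.comp (Subring.inclusion (S := V.toSubring) (T := A) fun x hx => hVA ⟨x, hx⟩)
  refine ⟨V, φ, ?_, ?_⟩
  · intro r
    have : (i r, φ₀ r) ∈ G := hG₀G ⟨r, rfl⟩
    obtain ⟨hA, hc⟩ := hφA _ _ this
    exact ⟨hAV hA, hc⟩
  · intro x hx
    obtain ⟨y, hy⟩ := hφAs (φ x)⁻¹
    have hxA : (x : Ω) ∈ A := hVA x
    have h1 : φA (⟨x, hxA⟩ * y - 1) = 0 := by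
      rw [map_sub, map_mul, hy, map_one]
      have : φA ⟨x, hxA⟩ = φ x := rfl
      rw [this, mul_inv_cancel₀ hx, sub_self]
    have h2 := hres0 _ h1
    rw [map_sub, map_mul, map_one, map_sub, map_mul, map_one] at h2
    have h3 : res (inc ⟨x, hxA⟩) ≠ 0 := by
      intro h3
      rw [h3, zero_mul, zero_sub, neg_eq_zero] at h2
      exact one_ne_zero h2
    have h4 : IsUnit x := by
      have : res x ≠ 0 := h3
      rwa [ne_eq, IsLocalRing.residue_eq_zero_iff, IsLocalRing.mem_maximalIdeal,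
        mem_nonunits_iff, not_not] at this
    obtain ⟨u, hu⟩ := h4
    have h5 : (x : Ω)⁻¹ = ((u⁻¹ : Vˣ) : V) := by
      rw [← hu]
      apply inv_eq_of_mul_eq_one_right
      have : ((u : V) * ((u⁻¹ : Vˣ) : V) : V) = 1 := Units.mul_inv u
      exact_mod_cast congrArg (Subtype.val) this
    rw [h5]
    exact ((u⁻¹ : Vˣ) : V).2

end Run7.h753
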