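import Pool.Agent.Run7.h753.Aff2
import Pool.Agent.Run7.h753.Data
import Pool.Agent.Run7.h753.Place

/-!
# From a finitely generated field to the place data
-/

set_option autoImplicit false
open scoped TensorProduct

namespace Run7.h753

universe u v w

open MvPolynomial

section

variable {Ω : Type v} [Field Ω] {n : ℕ}

lemma optionEquivLeft_pderiv (q : MvPolynomial (Option (Fin n)) Ω) :
    optionEquivLeft Ω (Fin n) (pderiv none q)
      = Polynomial.derivative (optionEquivLeft Ω (Fin n) q) := by
  induction q using MvPolynomial.induction_on with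
  | C a => rw [pderiv_C, map_zero, optionEquivLeft_C, Polynomial.derivative_C]
  | add p q hp hq => rw [map_add, map_add, hp, hq, map_add, map_add]
  | mul_X p o hp =>
    rw [Derivation.leibniz, map_add, smul_eq_mul, smul_eq_mul, map_mul, map_mul, hp, map_mul,
      Polynomial.derivative_mul]
    rcases o with _ | i
    · rw [pderiv_X_self, optionEquivLeft_X_none, Polynomial.derivative_X, map_one]
      ring
    · rw [pderiv_X_of_ne (by simp), optionEquivLeft_X_some, Polynomial.derivative_C, map_zero]
      ring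

/-- Generators and a defining equation. -/
theorem exists_ev [PerfectField Ω] [CharZero Ω]
    {K : Type w} [Field K] [Algebra Ω K] [Algebra.EssFiniteType Ω K]
    (htr : Algebra.trdeg Ω K = n) : ∃ (gen : Option (Fin n) → K)
      (f : MvPolynomial (Option (Fin n)) Ω), aeval gen f = 0 ∧
      (∀ q : MvPolynomial (Option (Fin n)) Ω, aeval gen q = 0 → f ∣ q) ∧
      (∀ r : MvPolynomial (Fin n) Ω, aeval gen (rename some r) = 0 → r = 0) ∧
      (∀ g : K, ∃ P Q : MvPolynomial (Option (Fin n)) Ω,
        aeval gen Q ≠ 0 ∧ g * aeval gen Q = aeval gen P) ∧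
      (∀ q : MvPolynomial (Option (Fin n)) Ω, aeval gen q ≠ 0 →
        ∃ (q' : MvPolynomial (Option (Fin n)) Ω) (r : MvPolynomial (Fin n) Ω),
          r ≠ 0 ∧ aeval gen q * aeval gen q' = aeval gen (rename some r)) ∧
      aeval gen (pderiv none f) ≠ 0 := by
  obtain ⟨x, y0, hx, hy0, htop⟩ := exists_data Ω K htr
  obtain ⟨q0, hq00, hq0⟩ := exists_poly_of_isAlgebraic hx hy0
  let algR : Algebra (MvPolynomial (Fin n) Ω) K :=
    (aeval x : MvPolynomial (Fin n) Ω →ₐ[Ω] K).toRingHom.toAlgebra
  have hmapR : ∀ r : MvPolynomial (Fin n) Ω, algebraMap (MvPolynomial (Fin n) Ω) K r = aeval x r :=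
    fun r => rfl
  have tower : IsScalarTower Ω (MvPolynomial (Fin n) Ω) K := IsScalarTower.of_algebraMap_eq
    (fun c => by rw [hmapR, algebraMap_eq, aeval_C])
  have hinjR : Function.Injective (algebraMap (MvPolynomial (Fin n) Ω) K) := hx
  have faith : FaithfulSMul (MvPolynomial (Fin n) Ω) K := by
    rw [faithfulSMul_iff_algebraMap_injective]; exact hinjR
  have hyalg : IsAlgebraic (MvPolynomial (Fin n) Ω) y0 := ⟨q0, hq00, hq0⟩
  obtain ⟨r, hr0, hint0⟩ := hyalg.exists_integral_multiple
  obtain ⟨y, hy⟩ : ∃ y : K, y = r • y0 := ⟨_, rfl⟩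
  have hint : IsIntegral (MvPolynomial (Fin n) Ω) y := by rw [hy]; exact hint0
  have hy' : y = algebraMap (MvPolynomial (Fin n) Ω) K r * y0 := by rw [hy, Algebra.smul_def]
  obtain ⟨gen, hgen⟩ : ∃ gen : Option (Fin n) → K, gen = fun o => o.elim y x := ⟨_, rfl⟩
  have hgn : gen none = y := by rw [hgen]; rfl
  have hgs : ∀ i, gen (some i) = x i := fun i => by rw [hgen]; rfl
  have hrange : Set.range gen = insert y (Set.range x) := by
    ext z
    constructor
    · rintro ⟨_ | i, rfl⟩
      · exact Or.inl hgn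
      · exact Or.inr ⟨i, (hgs i).symm⟩
    · rintro (rfl | ⟨i, rfl⟩)
      · exact ⟨none, hgn⟩
      · exact ⟨some i, hgs i⟩
  have htop' : IntermediateField.adjoin Ω (Set.range gen) = ⊤ := by
    rw [hrange, eq_top_iff, ← htop, IntermediateField.adjoin_le_iff]
    have hxmem : ∀ s : MvPolynomial (Fin n) Ω, aeval x s ∈
        IntermediateField.adjoin Ω (insert y (Set.range x)) := by
      intro s
      apply IntermediateField.algebra_adjoin_le_adjoin
      have : aeval x s ∈ Algebra.adjoin Ω (Set.range x) := by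
        rw [Algebra.adjoin_range_eq_range_aeval]; exact ⟨s, rfl⟩
      exact Algebra.adjoin_mono (Set.subset_insert _ _) this
    rintro z (rfl | hz)
    · have h1 : z = y / algebraMap (MvPolynomial (Fin n) Ω) K r := by
        rw [hy']
        have : algebraMap (MvPolynomial (Fin n) Ω) K r ≠ 0 := by
          rw [ne_eq, map_eq_zero_iff _ hinjR]; exact hr0
        field_simp
      rw [h1]
      refine div_mem (IntermediateField.subset_adjoin _ _ (Or.inl rfl)) ?_
      exact hxmem r
    · exact IntermediateField.subset_adjoin _ _ (Or.inr hz)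
  obtain ⟨f0, hf0def⟩ : ∃ f0, f0 = minpoly (MvPolynomial (Fin n) Ω) y := ⟨_, rfl⟩
  have hf0 : Polynomial.aeval y f0 = 0 := by rw [hf0def]; exact minpoly.aeval _ _
  have hker0 : ∀ q : Polynomial (MvPolynomial (Fin n) Ω), Polynomial.aeval y q = 0 → f0 ∣ q :=
    fun q hq => by rw [hf0def]; exact minpoly.isIntegrallyClosed_dvd hint hq
  have hder : Polynomial.aeval y (Polynomial.derivative f0) ≠ 0 := by
    intro h0
    have h1 := hker0 _ h0
    have hpos : 0 < f0.natDegree := by rw [hf0def]; exact minpoly.natDegree_pos hint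
    have h2 : (Polynomial.derivative f0).natDegree < f0.natDegree :=
      Polynomial.natDegree_derivative_lt hpos.ne'
    have h3 : Polynomial.derivative f0 = 0 := by
      by_contra h3
      have := Polynomial.natDegree_le_of_dvd h1 h3
      omega
    have h4 := Polynomial.derivative_eq_zero.mp h3
    omega
  have hev : ∀ q : MvPolynomial (Option (Fin n)) Ω,
      aeval gen q = Polynomial.aeval y (optionEquivLeft Ω (Fin n) q) := by
    intro q
    have h1 : aeval gen = ((Polynomial.aeval y : Polynomial (MvPolynomial (Fin n) Ω) →ₐ[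
        MvPolynomial (Fin n) Ω] K).restrictScalars Ω).comp
          (optionEquivLeft Ω (Fin n)).toAlgHom := by
      apply MvPolynomial.algHom_ext
      rintro (_ | i)
      · change aeval gen (X none) = Polynomial.aeval y (optionEquivLeft Ω (Fin n) (X none))
        rw [optionEquivLeft_X_none, Polynomial.aeval_X, aeval_X, hgn]
      · change aeval gen (X (some i)) = Polynomial.aeval y (optionEquivLeft Ω (Fin n) (X (some i)))
        rw [optionEquivLeft_X_some, Polynomial.aeval_C, hmapR, aeval_X, aeval_X, hgs]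
    exact DFunLike.congr_fun h1 q
  have hevren : ∀ s : MvPolynomial (Fin n) Ω, aeval gen (rename some s) = aeval x s := by
    intro s
    rw [aeval_rename]
    congr 1
    have : gen ∘ some = x := funext hgs
    rw [this]
  refine ⟨gen, (optionEquivLeft Ω (Fin n)).symm f0, ?_, ?_, ?_, ?_, ?_, ?_⟩
  · rw [hev, AlgEquiv.apply_symm_apply, hf0]
  · intro q hq
    rw [hev] at hq
    obtain ⟨s, hs⟩ := hker0 _ hq
    refine ⟨(optionEquivLeft Ω (Fin n)).symm s, ?_⟩
    apply (optionEquivLeft Ω (Fin n)).injective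
    rw [map_mul, AlgEquiv.apply_symm_apply, AlgEquiv.apply_symm_apply, hs]
  · intro s hs
    rw [hevren] at hs
    exact hx (by rw [hs, map_zero])
  · intro g
    have hg : g ∈ IntermediateField.adjoin Ω (Set.range gen) := by
      rw [htop']; exact IntermediateField.mem_top
    rw [IntermediateField.mem_adjoin_range_iff] at hg
    obtain ⟨P, Q, hPQ⟩ := hg
    by_cases hQ : aeval gen Q = 0
    · refine ⟨0, 1, by rw [map_one]; exact one_ne_zero, ?_⟩
      rw [hPQ, hQ, div_zero, map_zero, zero_mul]
    · refine ⟨P, Q, hQ, ?_⟩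
      rw [hPQ]
      exact div_mul_cancel₀ _ hQ
  · intro q hq
    have hS : Algebra.IsIntegral (MvPolynomial (Fin n) Ω)
        (Algebra.adjoin (MvPolynomial (Fin n) Ω) {y}) := Algebra.IsIntegral.adjoin (by
      rintro z hz
      rw [Set.mem_singleton_iff] at hz
      rw [hz]; exact hint)
    have hmem : Polynomial.aeval y (optionEquivLeft Ω (Fin n) q)
        ∈ Algebra.adjoin (MvPolynomial (Fin n) Ω) {y} := by
      rw [Algebra.adjoin_singleton_eq_range_aeval]
      exact ⟨_, rfl⟩
    have ha0 : (⟨_, hmem⟩ : Algebra.adjoin (MvPolynomial (Fin n) Ω) {y}) ≠ 0 := by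
      intro h0
      apply hq
      rw [hev]
      exact congrArg Subtype.val h0
    obtain ⟨s, hs0, b, hb⟩ := (hS.isIntegral _).isAlgebraic.exists_nonzero_dvd
      (mem_nonZeroDivisors_of_ne_zero ha0)
    have hb2 : ∀ z ∈ Algebra.adjoin (MvPolynomial (Fin n) Ω) {y},
        ∃ P : Polynomial (MvPolynomial (Fin n) Ω), Polynomial.aeval y P = z := by
      intro z hz
      rw [Algebra.adjoin_singleton_eq_range_aeval] at hz
      exact hz
    obtain ⟨P, hP⟩ := hb2 b b.2
    refine ⟨(optionEquivLeft Ω (Fin n)).symm P, s, hs0, ?_⟩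
    rw [hevren, hev, hev, AlgEquiv.apply_symm_apply]
    have h1 := congrArg Subtype.val hb
    have hP' : Polynomial.aeval y P = (b : K) := hP
    rw [hP', ← hmapR]
    exact h1.symm
  · rw [hev, optionEquivLeft_pderiv, AlgEquiv.apply_symm_apply]
    exact hder

theorem exists_HD_of_field [IsAlgClosed Ω] [CharZero Ω] {V : ValuationSubring Ω} (ε : V)
    (hε0 : (ε : Ω) ≠ 0) (harch : ∀ e : Ω, e ≠ 0 → ∃ k : ℕ, (ε : Ω) ^ k / e ∈ V)
    {K : Type w} [Field K] [Algebra Ω K] [Algebra.EssFiniteType Ω K]
    (htr : Algebra.trdeg Ω K = n) : Nonempty (HD V ε K n) := by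
  obtain ⟨gen, f, hf, hker, hinj, hfrac, halg, hder⟩ := exists_ev (Ω := Ω) (n := n) htr
  -- the point
  let S2 : Subalgebra Ω K := Algebra.adjoin Ω
    (insert (aeval gen (pderiv none f))⁻¹ (Set.range gen))
  have hS2 : Algebra.FiniteType Ω S2 := by
    rw [← Subalgebra.fg_iff_finiteType]
    have hfin : (insert (aeval gen (pderiv none f))⁻¹ (Set.range gen)).Finite :=
      (Set.finite_range gen).insert _
    exact ⟨hfin.toFinset, by rw [hfin.coe_toFinset]⟩
  obtain ⟨t⟩ := exists_algHom_point Ω S2
  have hgS : ∀ o, gen o ∈ S2 := fun o => Algebra.subset_adjoin (Or.inr ⟨o, rfl⟩)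
  let g : Option (Fin n) → S2 := fun o => ⟨gen o, hgS o⟩
  let τ : Option (Fin n) → Ω := fun o => t (g o)
  have hcoe : ∀ q : MvPolynomial (Option (Fin n)) Ω, ((aeval g q : S2) : K) = aeval gen q := by
    intro q
    have h1 : S2.val.comp (aeval g) = aeval gen := by
      apply MvPolynomial.algHom_ext
      intro o
      rw [AlgHom.comp_apply, aeval_X, aeval_X]
      rfl
    exact DFunLike.congr_fun h1 q
  have heval : ∀ q : MvPolynomial (Option (Fin n)) Ω, eval τ q = t (aeval g q) := by
    intro q
    have h1 : t.comp (aeval g) = aeval τ := by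
      apply MvPolynomial.algHom_ext
      intro o
      rw [AlgHom.comp_apply, aeval_X, aeval_X]
    have h2 : t (aeval g q) = aeval τ q := DFunLike.congr_fun h1 q
    rw [h2]
    rfl
  have hτ : eval τ f = 0 := by
    rw [heval]
    have : aeval g f = 0 := Subtype.ext (by rw [hcoe, hf]; rfl)
    rw [this, map_zero]
  have hτ' : eval τ (pderiv none f) ≠ 0 := by
    rw [heval]
    have hDi : (aeval gen (pderiv none f))⁻¹ ∈ S2 := Algebra.subset_adjoin (Or.inl rfl)
    have h2 : aeval g (pderiv none f) * ⟨(aeval gen (pderiv none f))⁻¹, hDi⟩ = 1 := by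
      apply Subtype.ext
      change ((aeval g (pderiv none f) : S2) : K) * (aeval gen (pderiv none f))⁻¹ = 1
      rw [hcoe]
      exact mul_inv_cancel₀ hder
    intro h3
    have h4 := congrArg t h2
    rw [map_mul, h3, zero_mul, map_one] at h4
    exact zero_ne_one h4
  exact exists_HD ε hε0 harch (aeval gen) f hf hker hinj hfrac halg τ hτ hτ'

end

end Run7.h753
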