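import Mathlib

/-!
# The symbol length of degree two Milnor K-theory modulo `p`
-/

set_option autoImplicit false
open scoped TensorProduct

namespace Run7.h753

universe u

/-- The subgroup of the tensor square of the unit group of `F` which is generated by the
multiples of `p` and by the Steinberg tensors. The quotient is `K₂^M(F)/p`. -/
def symbolRelations (p : ℕ) (F : Type u) [Field F] :
    AddSubgroup (Additive Fˣ ⊗[ℤ] Additive Fˣ) :=
  AddSubgroup.closure
    ({x | ∃ y : Additive Fˣ ⊗[ℤ] Additive Fˣ, x = p • y} ∪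
     {x | ∃ c d : Fˣ, (c : F) + (d : F) = 1 ∧
        x = Additive.ofMul c ⊗ₜ[ℤ] Additive.ofMul d})

/-- The class of the tensor `t` in `K₂^M(F)/p` is a sum of `k` symbols. -/
def IsSumOfSymbols (p : ℕ) {F : Type u} [Field F] (t : Additive Fˣ ⊗[ℤ] Additive Fˣ)
    (k : ℕ) : Prop :=
  ∃ a b : Fin k → Fˣ,
    t - (∑ i, Additive.ofMul (a i) ⊗ₜ[ℤ] Additive.ofMul (b i)) ∈ symbolRelations p F

/-- The symbol length of the class of the tensor `t` in `K₂^M(F)/p`: the smallest number of
symbols in a sum representing it. -/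
noncomputable def classSymbolLength (p : ℕ) {F : Type u} [Field F]
    (t : Additive Fˣ ⊗[ℤ] Additive Fˣ) : ℕ :=
  sInf {k | IsSumOfSymbols p t k}

/-- The symbol length of `K₂^M(F)/p`: the supremum of the symbol lengths of its classes. -/
noncomputable def symbolLength (p : ℕ) (F : Type u) [Field F] : ℕ∞ :=
  ⨆ t : Additive Fˣ ⊗[ℤ] Additive Fˣ, (classSymbolLength p t : ℕ∞)

end Run7.h753
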