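import Pool.Agent.Run7.h753.Basic
import Pool.Agent.Run7.h753.LengthDef

/-!
# The symbol length in terms of `SymLE`
-/

set_option autoImplicit false
open scoped TensorProduct

namespace Run7.h753

universe u

variable {p : ℕ} {F : Type u} [Field F]

lemma isSum_succ {t : Additive Fˣ ⊗[ℤ] Additive Fˣ} {k : ℕ} (h : IsSumOfSymbols p t k) :
    IsSumOfSymbols p t (k + 1) := by
  obtain ⟨a, b, hab⟩ := h
  refine ⟨Fin.cons 1 a, Fin.cons 1 b, ?_⟩
  rw [Fin.sum_univ_succ]
  simp only [Fin.cons_zero, Fin.cons_succ]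
  rw [ofMul_one, TensorProduct.zero_tmul, zero_add]
  exact hab

lemma isSum_mono {t : Additive Fˣ ⊗[ℤ] Additive Fˣ} {k l : ℕ} (hkl : k ≤ l)
    (h : IsSumOfSymbols p t k) : IsSumOfSymbols p t l := by
  induction l, hkl using Nat.le_induction with
  | base => exact h
  | succ l _ ih => exact isSum_succ ih

lemma exists_isSum (t : Additive Fˣ ⊗[ℤ] Additive Fˣ) : ∃ k, IsSumOfSymbols p t k := by
  have h : ∃ (k : ℕ) (a b : Fin k → Fˣ),
      t = ∑ i, Additive.ofMul (a i) ⊗ₜ[ℤ] Additive.ofMul (b i) := by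
    induction t using TensorProduct.induction_on with
    | zero => exact ⟨0, fun i => i.elim0, fun i => i.elim0, by simp⟩
    | tmul a b => exact ⟨1, fun _ => Additive.toMul a, fun _ => Additive.toMul b, by simp⟩
    | add x y hx hy =>
      obtain ⟨k, a, b, rfl⟩ := hx
      obtain ⟨l, c, d, rfl⟩ := hy
      refine ⟨k + l, Fin.append a c, Fin.append b d, ?_⟩
      rw [Fin.sum_univ_add]
      simp only [Fin.append_left, Fin.append_right]
  obtain ⟨k, a, b, rfl⟩ := h
  refine ⟨k, a, b, ?_⟩
  rw [sub_self]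
  exact AddSubgroup.zero_mem _

lemma classSymbolLength_le_iff {t : Additive Fˣ ⊗[ℤ] Additive Fˣ} {k : ℕ} :
    classSymbolLength p t ≤ k ↔ IsSumOfSymbols p t k := by
  constructor
  · intro h
    have h1 : classSymbolLength p t ∈ {k | IsSumOfSymbols p t k} :=
      Nat.sInf_mem (exists_isSum t)
    exact isSum_mono h h1
  · intro h
    exact Nat.sInf_le h

lemma symbolLength_le_iff {k : ℕ} : symbolLength p F ≤ k ↔ SymLE p F k := by
  unfold symbolLength
  rw [iSup_le_iff]
  constructor
  · intro h t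
    have := h t
    rw [Nat.cast_le, classSymbolLength_le_iff] at this
    exact this
  · intro h t
    rw [Nat.cast_le, classSymbolLength_le_iff]
    exact h t

end Run7.h753
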