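import Pool.Agent.Run7.h753.Descent

/-!
# Rational function fields over arbitrary algebraically closed fields
-/

set_option autoImplicit false
open scoped TensorProduct Cardinal

namespace Run7.h753

universe u v w

/-- From `ℂ(x₁, …, xₙ)` to `κ(x₁, …, xₙ)` for every algebraically closed field `κ`. -/
theorem symLE_rat {p : ℕ} (hp : 0 < p) (κ : Type u) [Field κ] [IsAlgClosed κ]
    {n k : ℕ} (h : SymLE p (FractionRing (MvPolynomial (Fin n) ℂ)) k) :
    SymLE p (FractionRing (MvPolynomial (Fin n) κ)) k := by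
  classical
  rw [symLE_iff]
  intro α
  obtain ⟨S, hS⟩ := Kp_exists_finset.{u, u} α
  have hPQ : ∀ s : FractionRing (MvPolynomial (Fin n) κ), ∃ PQ : MvPolynomial (Fin n) κ ×
      MvPolynomial (Fin n) κ, algebraMap _ (FractionRing (MvPolynomial (Fin n) κ)) PQ.1 /
        algebraMap _ (FractionRing (MvPolynomial (Fin n) κ)) PQ.2 = s := by
    intro s
    obtain ⟨P, Q, -, h⟩ := IsFractionRing.div_surjective (A := MvPolynomial (Fin n) κ) s
    exact ⟨(P, Q), h⟩
  choose PQ hPQ using hPQ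
  let C : Set κ := ⋃ s ∈ S, (Set.range (fun i => MvPolynomial.coeff i (PQ s).1) ∪
    Set.range (fun i => MvPolynomial.coeff i (PQ s).2))
  have hC : C.Countable := by
    refine Set.Countable.biUnion S.countable_toSet fun s _ => ?_
    exact (Set.countable_range _).union (Set.countable_range _)
  obtain ⟨κ₀, fκ₀, aκ₀, hκ₀, hcard, hCκ⟩ := exists_countable_algClosed C hC
  have hinj : Function.Injective ((algebraMap (MvPolynomial (Fin n) κ)
      (FractionRing (MvPolynomial (Fin n) κ))).comp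
        (MvPolynomial.map (σ := Fin n) (algebraMap κ₀ κ))) :=
    (IsFractionRing.injective _ _).comp (MvPolynomial.map_injective _ (algebraMap κ₀ κ).injective)
  let j : FractionRing (MvPolynomial (Fin n) κ₀) →+* FractionRing (MvPolynomial (Fin n) κ) :=
    IsFractionRing.lift hinj
  have hj : ∀ P, j (algebraMap _ _ P) = algebraMap _ _ (MvPolynomial.map (algebraMap κ₀ κ) P) :=
    fun P => IsFractionRing.lift_algebraMap hinj P
  have hlift : ∀ P : MvPolynomial (Fin n) κ, (∀ i, MvPolynomial.coeff i P ∈ C) →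
      ∃ P₀ : MvPolynomial (Fin n) κ₀, MvPolynomial.map (algebraMap κ₀ κ) P₀ = P := by
    intro P hP
    have h2 : P ∈ Set.range (MvPolynomial.map (σ := Fin n) (algebraMap κ₀ κ)) := by
      rw [MvPolynomial.mem_range_map_iff_coeffs_subset]
      intro c hc
      rw [Finset.mem_coe, MvPolynomial.mem_coeffs_iff] at hc
      obtain ⟨μ, -, rfl⟩ := hc
      exact hCκ _ (hP μ)
    exact h2
  have hcov : (S : Set (FractionRing (MvPolynomial (Fin n) κ))) ⊆ Set.range j := by
    intro s hs
    obtain ⟨P₀, hP₀⟩ := hlift (PQ s).1 (fun i => Set.mem_biUnion hs (Or.inl ⟨i, rfl⟩))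
    obtain ⟨Q₀, hQ₀⟩ := hlift (PQ s).2 (fun i => Set.mem_biUnion hs (Or.inr ⟨i, rfl⟩))
    refine ⟨algebraMap _ _ P₀ / algebraMap _ _ Q₀, ?_⟩
    rw [map_div₀, hj, hj, hP₀, hQ₀, hPQ]
  obtain ⟨β, hβ⟩ := hS (FractionRing (MvPolynomial (Fin n) κ₀)) j hcov
  have hfin : SymLE p (FractionRing (MvPolynomial (Fin n) κ₀)) k :=
    symLE_of_complex hp κ₀ (hcard.trans Cardinal.aleph0_le_continuum) h
  obtain ⟨a, b, hab⟩ := (symLE_iff.mp hfin) β
  refine ⟨fun i => Units.map (j : _ →* _) (a i), fun i => Units.map (j : _ →* _) (b i), ?_⟩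
  rw [← hβ, hab, map_sum]
  rfl

end Run7.h753
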