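import Pool.Agent.Run7.h753.Lower
import Pool.Agent.Run7.h753.Length
import Pool.Agent.Run7.h753.Rat

/-!
# The two theorems on symbol lengths
-/

set_option autoImplicit false
open scoped TensorProduct Cardinal

namespace Run7.h753

universe u v w

/-- The place data of `E(X)` at `X = 0`. -/
noncomputable def pdX (p : ℕ) (E : Type u) [Field E] :
    PD p (FractionRing (Polynomial E)) E (Polynomial E) (Multiplicative ℤ) :=
  dvrPD p (FractionRing (Polynomial E)) Polynomial.X Polynomial.irreducible_X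
    (Polynomial.evalRingHom 0) (fun a => by
      rw [Polynomial.coe_evalRingHom, Polynomial.X_dvd_iff, Polynomial.coeff_zero_eq_eval_zero])

lemma pdX_surj (p : ℕ) (E : Type u) [Field E] : (pdX p E).Surj :=
  dvrPD_surj p _ _ _ _ (fun c => ⟨Polynomial.C c, by simp⟩)

lemma pdX_pi (p : ℕ) (E : Type u) [Field E] : ∃ π : (FractionRing (Polynomial E))ˣ,
    (pdX p E).f (Additive.ofMul π) = 0 ∧ (pdX p E).v (Additive.ofMul π) = 1 := by
  have h : algebraMap (Polynomial E) (FractionRing (Polynomial E)) Polynomial.X ≠ 0 := by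
    rw [ne_eq, map_eq_zero_iff _ (IsFractionRing.injective _ _)]
    exact Polynomial.X_ne_zero
  exact ⟨_, dvrPD_pi p _ _ _ _ h⟩

/-- There is a unit of `F(x₀, …, xₙ)` which is not a `p`-th power. -/
lemma exists_cl_ne_zero {p : ℕ} (hp : p.Prime) (F : Type u) [Field F] (n : ℕ) :
    ∃ e : (FractionRing (MvPolynomial (Fin (n + 1)) F))ˣ, cl p e ≠ 0 := by
  obtain ⟨φ⟩ := frac_ringEquiv F n
  obtain ⟨π, -, hπ⟩ := pdX_pi p (FractionRing (MvPolynomial (Fin n) F))
  refine ⟨Units.map (φ.symm : _ →* _) π, ?_⟩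
  intro h
  obtain ⟨y, hy⟩ := cl_eq_zero_iff.mp h
  have h1 : (Units.map (φ : _ →* _) y) ^ p = π := by
    rw [← map_pow, hy]
    ext
    simp
  rw [← h1, ofMul_pow, map_nsmul, nsmul_eq_mul] at hπ
  have h2 : (p : ℤ) ∣ 1 := ⟨_, hπ.symm⟩
  have h3 := Int.eq_one_of_dvd_one (by positivity) h2
  exact hp.one_lt.ne' (by exact_mod_cast h3)

/-- `K₂(F(x₀, …, x_{n+1}))/p` is not zero. -/
lemma not_symLE_zero {p : ℕ} (hp : p.Prime) (F : Type u) [Field F] [IsAlgClosed F] (n : ℕ) :
    ¬ SymLE p (FractionRing (MvPolynomial (Fin (n + 2)) F)) 0 := by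
  intro h
  obtain ⟨φ⟩ := frac_ringEquiv F (n + 1)
  have h' := symLE_iff.mp (h.of_ringEquiv φ)
  obtain ⟨e, he⟩ := exists_cl_ne_zero hp F n
  have hn : NegOne p (FractionRing (MvPolynomial (Fin (n + 1)) F)) := negOne_of_algebra hp.pos
    (algebraMap F (FractionRing (MvPolynomial (Fin (n + 1)) F)))
  obtain ⟨π, hπ, hπ'⟩ := pdX_pi p (FractionRing (MvPolynomial (Fin (n + 1)) F))
  obtain ⟨x, hx, hx'⟩ := (pdX p _).lift_unit (pdX_surj p _) e
  obtain ⟨a, b, hab⟩ := h' (sym p x π)
  rw [Finset.univ_eq_empty, Finset.sum_empty] at hab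
  have h1 := congrArg ((pdX p _).res hn) hab
  rw [map_zero, PD.res_sym, hx, hx', hπ, hπ', one_smul, zero_smul, sub_zero] at h1
  exact he h1

/-- The transcendence degree of the rational function field. -/
lemma trdeg_rat (F : Type u) [Field F] (n : ℕ) :
    Algebra.trdeg F (FractionRing (MvPolynomial (Fin n) F)) = n := by
  have halg : Algebra.IsAlgebraic (MvPolynomial (Fin n) F)
      (FractionRing (MvPolynomial (Fin n) F)) :=
    IsLocalization.isAlgebraic _ (nonZeroDivisors (MvPolynomial (Fin n) F))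
  have h1 := _root_.trdeg_add_eq F (MvPolynomial (Fin n) F)
    (A := FractionRing (MvPolynomial (Fin n) F))
  rw [_root_.trdeg_eq_zero (R := MvPolynomial (Fin n) F), add_zero,
    MvPolynomial.trdeg_of_isDomain, Cardinal.mk_fin, Cardinal.lift_natCast] at h1
  exact h1.symm

/-- The chain of rational function fields. -/
lemma symLE_chain {p : ℕ} (hp : p.Prime) {κ : Type u} [Field κ] [IsAlgClosed κ] {K : Type v}
    [Field K] [Algebra κ K] {a : ℕ} (ha : 1 ≤ a) (hK : Algebra.trdeg κ K ≤ a) (d : ℕ) {k : ℕ}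
    (h : SymLE p (FractionRing (MvPolynomial (Fin (a + (d + 1))) ℂ)) k) :
    d + 1 ≤ k ∧ SymLE p K (k - (d + 1)) := by
  induction d generalizing k with
  | zero =>
    have hk : k ≠ 0 := by
      rintro rfl
      exact not_symLE_zero hp ℂ 0 (symLE_drop' hp.pos ℂ (by omega) h)
    obtain ⟨k, rfl⟩ := Nat.exists_eq_succ_of_ne_zero hk
    exact ⟨by omega, symLE_upper hp (m := a) h hK⟩
  | succ d ih =>
    have hk : k ≠ 0 := by
      rintro rfl
      exact not_symLE_zero hp ℂ 0 (symLE_drop' hp.pos ℂ (by omega) h)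
    obtain ⟨k, rfl⟩ := Nat.exists_eq_succ_of_ne_zero hk
    have h1 : SymLE p (FractionRing (MvPolynomial (Fin (a + (d + 1))) ℂ)) k :=
      symLE_upper hp (m := a + (d + 1)) h (trdeg_rat ℂ _).le
    obtain ⟨h2, h3⟩ := ih h1
    refine ⟨by omega, ?_⟩
    have h4 : k.succ - (d + 1 + 1) = k - (d + 1) := by omega
    rw [h4]
    exact h3

lemma essFinite_of_adjoin {F : Type u} [Field F] {L : Type v} [Field L] [Algebra F L]
    (h : ∃ s : Finset L, IntermediateField.adjoin F (s : Set L) = ⊤) :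
    Algebra.EssFiniteType F L := by
  have h1 : (⊤ : IntermediateField F L).FG := h
  have h2 : Algebra.EssFiniteType F (⊤ : IntermediateField F L) :=
    IntermediateField.essFiniteType_iff.mpr h1
  exact Algebra.EssFiniteType.of_surjective
    (IntermediateField.topEquiv (F := F) (E := L)).toAlgHom
    (IntermediateField.topEquiv (F := F) (E := L)).surjective

lemma le_of_forall_nat {x y : ℕ∞} (h : ∀ k : ℕ, y ≤ k → x ≤ k) : x ≤ y := by
  induction y using ENat.recTopCoe with
  | top => exact le_top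
  | coe n => exact h n le_rfl

/-- Strict growth of the symbol length. -/
theorem symbolLength_growth {p : ℕ} (hp : p.Prime) {a b : ℕ} (ha : 1 ≤ a) (hab : a < b)
    {κ : Type u} [Field κ] [IsAlgClosed κ] {K : Type v} [Field K] [Algebra κ K]
    (hK : Algebra.trdeg κ K ≤ a)
    {L : Type w} [Field L] [Algebra ℂ L]
    (hfg : ∃ s : Finset L, IntermediateField.adjoin ℂ (s : Set L) = ⊤)
    (hL : Algebra.trdeg ℂ L = b) :
    symbolLength p K + ((b - a : ℕ) : ℕ∞) ≤ symbolLength p L := by
  have hess := essFinite_of_adjoin hfg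
  obtain ⟨d, rfl⟩ : ∃ d, b = a + (d + 1) := ⟨b - a - 1, by omega⟩
  apply le_of_forall_nat
  intro k hk
  rw [symbolLength_le_iff] at hk
  obtain ⟨h1, h2⟩ := symLE_chain hp ha hK d (symLE_lower hp.pos hL hk)
  rw [← symbolLength_le_iff] at h2
  have h3 : a + (d + 1) - a = d + 1 := by omega
  rw [h3]
  calc symbolLength p K + ((d + 1 : ℕ) : ℕ∞) ≤ ((k - (d + 1) : ℕ) : ℕ∞) + ((d + 1 : ℕ) : ℕ∞) := by
        gcongr
    _ = ((k - (d + 1) + (d + 1) : ℕ) : ℕ∞) := by push_cast; rfl
    _ = k := by rw [Nat.sub_add_cancel h1]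

/-- The rational function field has the smallest symbol length in its dimension. -/
theorem symbolLength_rational {p : ℕ} (hp : p.Prime) {m : ℕ}
    {κ : Type u} [Field κ] [IsAlgClosed κ] {K : Type v} [Field K]
    [Algebra (MvPolynomial (Fin m) κ) K] [IsFractionRing (MvPolynomial (Fin m) κ) K]
    {L : Type w} [Field L] [Algebra ℂ L]
    (hfg : ∃ s : Finset L, IntermediateField.adjoin ℂ (s : Set L) = ⊤)
    (hL : Algebra.trdeg ℂ L = m) :
    symbolLength p K ≤ symbolLength p L := by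
  have hess := essFinite_of_adjoin hfg
  apply le_of_forall_nat
  intro k hk
  rw [symbolLength_le_iff] at hk ⊢
  exact (symLE_rat hp.pos κ (symLE_lower hp.pos hL hk)).of_ringEquiv
    (FractionRing.algEquiv (MvPolynomial (Fin m) κ) K).toRingEquiv

end Run7.h753
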