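import Pool.Agent.Run7.h753.Tame
import Pool.Agent.Run7.h753.Place

/-!
# Gauss extensions of places
-/

set_option autoImplicit false
open scoped TensorProduct

namespace Run7.h753

universe u v w w' u' v'

/-- scaling a finite family of elements of a valued field -/
lemma exists_content {Ω : Type u} [Field Ω] (V : ValuationSubring Ω) {ι : Type v} (c : ι →₀ Ω)
    (hc : c ≠ 0) : ∃ (o : Ωˣ) (d : ι →₀ V), (∀ i, c i = o * d i) ∧ ∃ i₀, d i₀ = 1 := by
  classical
  have hne : c.support.Nonempty := Finsupp.support_nonempty_iff.mpr hc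
  obtain ⟨i₀, hi₀, hmax⟩ := Finset.exists_max_image c.support (fun i => V.valuation (c i)) hne
  have h0 : c i₀ ≠ 0 := Finsupp.mem_support_iff.mp hi₀
  have hall : ∀ i, c i / c i₀ ∈ V := by
    intro i
    rw [← V.valuation_le_one_iff, map_div₀]
    by_cases hi : i ∈ c.support
    · have hpos : 0 < V.valuation (c i₀) := by
        rw [zero_lt_iff]
        exact (V.valuation.ne_zero_iff).mpr h0
      exact (div_le_one₀ hpos).mpr (hmax i hi)
    · rw [Finsupp.notMem_support_iff.mp hi, map_zero, zero_div]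
      exact zero_le_one
  refine ⟨Units.mk0 _ h0, Finsupp.onFinset c.support (fun i => ⟨c i / c i₀, hall i⟩) ?_, ?_,
    i₀, ?_⟩
  · intro i hi
    rw [Finsupp.mem_support_iff]
    intro h
    apply hi
    ext
    simp [h]
  · intro i
    simp only [Units.val_mk0, Finsupp.onFinset_apply]
    field_simp
  · rw [Finsupp.onFinset_apply]
    ext
    simp [h0]

/-- Data for a Gauss extension of a place `φ : V → κ` of `Ω`. -/
structure GD {Ω : Type u} {κ : Type v} [Field Ω] [Field κ] (V : ValuationSubring Ω) (φ : V →+* κ)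
    (A : Type w) [CommRing A] [Algebra V A] (B : Type w') [CommRing B] [Algebra Ω B]
    (E : Type u') [Field E] [Algebra κ E] (ι : Type v') where
  b : Module.Basis ι V A
  b' : Module.Basis ι Ω B
  r : A →+* B
  r_alg : ∀ o : V, r (algebraMap V A o) = algebraMap Ω B o
  r_b : ∀ i, r (b i) = b' i
  θ : A →+* E
  θ_alg : ∀ o : V, θ (algebraMap V A o) = algebraMap κ E (φ o)
  li : LinearIndependent κ (fun i => θ (b i))

namespace GD

variable {Ω : Type u} {κ : Type v} [Field Ω] [Field κ] {V : ValuationSubring Ω} {φ : V →+* κ}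
    {A : Type w} [CommRing A] [Algebra V A] {B : Type w'} [CommRing B] [Algebra Ω B]
    {E : Type u'} [Field E] [Algebra κ E] {ι : Type v'} (G : GD V φ A B E ι)

lemma r_expand (a : A) : G.r a = ∑ i ∈ (G.b.repr a).support, ((G.b.repr a i : V) : Ω) • G.b' i := by
  conv_lhs => rw [← G.b.linearCombination_repr a]
  rw [Finsupp.linearCombination_apply, Finsupp.sum, map_sum]
  refine Finset.sum_congr rfl fun i _ => ?_
  rw [Algebra.smul_def, map_mul, G.r_alg, G.r_b, Algebra.smul_def]

lemma r_repr (a : A) (i : ι) : G.b'.repr (G.r a) i = ((G.b.repr a i : V) : Ω) := by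
  have h : G.r a = Finsupp.linearCombination Ω G.b'
      ((G.b.repr a).mapRange (fun x : V => (x : Ω)) rfl) := by
    rw [r_expand, Finsupp.linearCombination_apply,
      Finsupp.sum_mapRange_index (h := fun i (c : Ω) => c • G.b' i)
        (fun i => zero_smul Ω (G.b' i))]
    rfl
  rw [h, Module.Basis.repr_linearCombination, Finsupp.mapRange_apply]

lemma r_inj : Function.Injective G.r := by
  rw [injective_iff_map_eq_zero]
  intro a ha
  rw [r_expand] at ha
  have h := linearIndependent_iff'.mp G.b'.linearIndependent _ _ ha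
  apply G.b.repr.map_eq_zero_iff.mp
  ext i
  by_cases hi : i ∈ (G.b.repr a).support
  · simp [h i hi]
  · rw [Finsupp.notMem_support_iff.mp hi]; rfl

lemma θ_ne {a : A} {i₀ : ι} (h : G.b.repr a i₀ = 1) : G.θ a ≠ 0 := by
  intro h0
  have h1 : G.θ a = ∑ i ∈ (G.b.repr a).support, (φ (G.b.repr a i)) • G.θ (G.b i) := by
    conv_lhs => rw [← G.b.linearCombination_repr a]
    rw [Finsupp.linearCombination_apply, Finsupp.sum, map_sum]
    refine Finset.sum_congr rfl fun i _ => ?_
    rw [Algebra.smul_def, map_mul, G.θ_alg, Algebra.smul_def]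
  rw [h0] at h1
  have h2 := linearIndependent_iff'.mp G.li _ _ h1.symm i₀ (by
    rw [Finsupp.mem_support_iff, h]; exact one_ne_zero)
  rw [h, map_one] at h2
  exact one_ne_zero h2

lemma content {P : B} (hP : P ≠ 0) : ∃ (γ : Ωˣ) (s : A), G.θ s ≠ 0 ∧
    P = algebraMap Ω B γ * G.r s := by
  have hc : G.b'.repr P ≠ 0 := fun h => hP (G.b'.repr.map_eq_zero_iff.mp h)
  obtain ⟨o, d, hd, i₀, hi₀⟩ := exists_content V (G.b'.repr P) hc
  refine ⟨o, G.b.repr.symm d, G.θ_ne (i₀ := i₀) (by rw [LinearEquiv.apply_symm_apply, hi₀]), ?_⟩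
  apply G.b'.repr.injective
  rw [← Algebra.smul_def, map_smul]
  ext i
  rw [Finsupp.smul_apply, hd i, smul_eq_mul]
  rw [r_repr, LinearEquiv.apply_symm_apply]

include G in
lemma isDomain : IsDomain B := by
  have hnt : Nontrivial B := by
    have : G.θ 1 ≠ 0 := by rw [map_one]; exact one_ne_zero
    refine ⟨0, 1, fun h => this ?_⟩
    have : G.r 1 = 0 := by rw [map_one, h]
    have h1 : (1 : A) = 0 := G.r_inj (by rw [this, map_zero])
    rw [h1, map_zero]
  have hnz : NoZeroDivisors B := by
    refine ⟨fun {P Q} hPQ => ?_⟩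
    by_contra hcon
    push Not at hcon
    obtain ⟨γ, s, hs, rfl⟩ := G.content hcon.1
    obtain ⟨δ, t, ht, rfl⟩ := G.content hcon.2
    have h1 : algebraMap Ω B (γ * δ : Ωˣ) * G.r (s * t) = 0 := by
      rw [Units.val_mul, map_mul, map_mul, ← hPQ]; ring
    have hu : IsUnit (algebraMap Ω B (γ * δ : Ωˣ)) := (Units.isUnit _).map _
    have h2 : G.r (s * t) = 0 := (hu.mul_right_eq_zero).mp h1
    have h3 : s * t = 0 := G.r_inj (by rw [h2, map_zero])
    have h4 : G.θ s * G.θ t = 0 := by rw [← map_mul, h3, map_zero]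
    exact (mul_ne_zero hs ht) h4
  exact NoZeroDivisors.to_isDomain B

/-- The Gauss place data. -/
noncomputable def pd (p : ℕ) (hκ : ∀ c : κˣ, ∃ d : κˣ, d ^ p = c)
    (L : Type*) [Field L] [Algebra B L] [IsFractionRing B L] : PD p L E A Ωˣ where
  i := (algebraMap B L).comp G.r
  inj := (IsFractionRing.injective B L).comp G.r_inj
  θ := G.θ
  ι := Units.map ((algebraMap B L).comp (algebraMap Ω B) : Ω →* L)
  w := 1
  dec := by
    have := G.isDomain
    intro x
    obtain ⟨P, Q, hQ, hx⟩ := IsFractionRing.div_surjective (A := B) (x : L)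
    have hQ0 : Q ≠ 0 := nonZeroDivisors.ne_zero hQ
    have hP0 : P ≠ 0 := by
      rintro rfl
      rw [map_zero, zero_div] at hx
      exact x.ne_zero hx.symm
    obtain ⟨γ, s, hs, rfl⟩ := G.content hP0
    obtain ⟨δ, t, ht, rfl⟩ := G.content hQ0
    refine ⟨γ / δ, s, t, hs, ht, ?_⟩
    rw [← hx]
    have h1 : (algebraMap B L) (G.r t) ≠ 0 := by
      intro h
      rw [map_eq_zero_iff _ (IsFractionRing.injective B L), map_eq_zero_iff _ G.r_inj] at h
      exact ht (by rw [h, map_zero])
    have h2 : (algebraMap B L) (algebraMap Ω B δ) ≠ 0 := by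
      intro h
      have hu : IsUnit ((algebraMap B L) (algebraMap Ω B δ)) := ((Units.isUnit δ).map _).map _
      exact hu.ne_zero h
    rw [map_div, Units.val_div_eq_div_val]
    simp only [Units.coe_map, MonoidHom.coe_coe, RingHom.comp_apply, map_mul]
    field_simp
  ord := by
    intro γ
    rcases V.mem_or_inv_mem (γ : Ω) with h | h
    · left
      refine ⟨algebraMap V A ⟨γ, h⟩, ?_⟩
      simp only [Units.coe_map, MonoidHom.coe_coe, RingHom.comp_apply, G.r_alg]
    · right
      refine ⟨algebraMap V A ⟨_, h⟩, ?_⟩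
      simp only [Units.coe_map, MonoidHom.coe_coe, RingHom.comp_apply, G.r_alg,
        Units.val_inv_eq_inv_val]
  unit := by
    intro γ s s' hs hs' h
    refine ⟨?_, rfl⟩
    have hinj := (IsFractionRing.injective B L)
    have key : ∀ (s s' : A) (hs : G.θ s ≠ 0) (hs' : G.θ s' ≠ 0) (g : V),
        (algebraMap V A g) * s' = s → cl p (Units.mk0 _ hs) = cl p (Units.mk0 _ hs') := by
      intro s s' hs hs' g hg
      have h1 : G.θ s = algebraMap κ E (φ g) * G.θ s' := by rw [← hg, map_mul, G.θ_alg]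
      have h2 : φ g ≠ 0 := by
        intro h2
        rw [h2, map_zero, zero_mul] at h1
        exact hs h1
      obtain ⟨d, hd⟩ := hκ (Units.mk0 _ h2)
      have h3 : Units.mk0 _ hs = (Units.map (algebraMap κ E : κ →* E) d) ^ p * Units.mk0 _ hs' := by
        rw [← map_pow, hd]
        ext
        simp [h1]
      rw [h3, cl_mul, cl_pow_p, zero_add]
    simp only [Units.coe_map, MonoidHom.coe_coe, RingHom.comp_apply] at h
    rcases V.mem_or_inv_mem (γ : Ω) with hγ | hγ
    · refine key s s' hs hs' ⟨γ, hγ⟩ ?_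
      apply G.r_inj
      apply hinj
      rw [map_mul, map_mul, G.r_alg]
      exact h
    · refine (key s' s hs' hs ⟨_, hγ⟩ ?_).symm
      apply G.r_inj
      apply hinj
      rw [map_mul, map_mul, G.r_alg, ← h, ← mul_assoc, ← map_mul]
      have h1 : (algebraMap Ω B) ((γ : Ω)⁻¹) * (algebraMap Ω B) γ = 1 := by
        rw [← map_mul, inv_mul_cancel₀ γ.ne_zero, map_one]
      rw [h1, map_one, one_mul]

end GD

end Run7.h753
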