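import Pool.Agent.Run7.h753.Gauss

/-!
# Gauss extensions: constant field extensions and polynomial rings
-/

set_option autoImplicit false
open scoped TensorProduct

namespace Run7.h753

universe u v w

section tensor

variable {κ : Type u} {Ω : Type v} (K : Type w) [Field κ] [Field Ω] [Algebra κ Ω] [Field K]
  [Algebra κ K] (V : ValuationSubring Ω) [Algebra κ V] [IsScalarTower κ V Ω] (φ : V →ₐ[κ] κ)

/-- The map `V ⊗ K → Ω ⊗ K`. -/
noncomputable def tensorR : V ⊗[κ] K →ₐ[κ] Ω ⊗[κ] K :=
  Algebra.TensorProduct.map (IsScalarTower.toAlgHom κ V Ω) (AlgHom.id κ K)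

/-- The map `V ⊗ K → K`. -/
noncomputable def tensorθ : V ⊗[κ] K →ₐ[κ] K :=
  Algebra.TensorProduct.lift ((Algebra.ofId κ K).comp φ) (AlgHom.id κ K)
    (fun _ _ => Commute.all _ _)

lemma tensorR_tmul (o : V) (k : K) : tensorR K V (o ⊗ₜ[κ] k) = (o : Ω) ⊗ₜ[κ] k := by
  unfold tensorR
  rw [Algebra.TensorProduct.map_tmul]
  rfl

omit [Algebra κ Ω] [IsScalarTower κ V Ω] in
lemma tensorθ_tmul (o : V) (k : K) : tensorθ K V φ (o ⊗ₜ[κ] k) = algebraMap κ K (φ o) * k := by
  unfold tensorθ
  rw [Algebra.TensorProduct.lift_tmul]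
  rfl

/-- Gauss data for a constant field extension. -/
noncomputable def tensorGD : GD V (φ : V →+* κ) (V ⊗[κ] K) (Ω ⊗[κ] K) K
    (Module.Free.ChooseBasisIndex κ K) where
  b := Algebra.TensorProduct.basis V (Module.Free.chooseBasis κ K)
  b' := Algebra.TensorProduct.basis Ω (Module.Free.chooseBasis κ K)
  r := (tensorR (κ := κ) K V).toRingHom
  r_alg := by
    intro o
    rw [Algebra.TensorProduct.algebraMap_apply, Algebra.TensorProduct.algebraMap_apply]
    exact tensorR_tmul (κ := κ) K V o 1
  r_b := by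
    intro i
    rw [Algebra.TensorProduct.basis_apply, Algebra.TensorProduct.basis_apply]
    exact tensorR_tmul (κ := κ) K V 1 _
  θ := (tensorθ K V φ).toRingHom
  θ_alg := by
    intro o
    rw [Algebra.TensorProduct.algebraMap_apply]
    refine (tensorθ_tmul K V φ o 1).trans ?_
    rw [mul_one]
    rfl
  li := by
    have : (fun i => (tensorθ K V φ).toRingHom
        (Algebra.TensorProduct.basis V (Module.Free.chooseBasis κ K) i))
        = Module.Free.chooseBasis κ K := by
      funext i
      rw [Algebra.TensorProduct.basis_apply]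
      refine (tensorθ_tmul K V φ 1 _).trans ?_
      rw [map_one, map_one, one_mul]
    rw [this]
    exact (Module.Free.chooseBasis κ K).linearIndependent

end tensor

section mv

variable {κ : Type u} {Ω : Type v} [Field κ] [Field Ω] (V : ValuationSubring Ω) (φ : V →+* κ)
  (σ : Type w)

/-- Gauss data for polynomial rings. -/
noncomputable def mvGD : GD V φ (MvPolynomial σ V) (MvPolynomial σ Ω)
    (FractionRing (MvPolynomial σ κ)) (σ →₀ ℕ) where
  b := MvPolynomial.basisMonomials σ V
  b' := MvPolynomial.basisMonomials σ Ω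
  r := MvPolynomial.map V.subtype
  r_alg := by
    intro o
    rw [MvPolynomial.algebraMap_eq, MvPolynomial.map_C]
    rfl
  r_b := by
    intro i
    rw [MvPolynomial.coe_basisMonomials, MvPolynomial.coe_basisMonomials, MvPolynomial.map_monomial,
      map_one]
  θ := (algebraMap (MvPolynomial σ κ) (FractionRing (MvPolynomial σ κ))).comp (MvPolynomial.map φ)
  θ_alg := by
    intro o
    rw [MvPolynomial.algebraMap_eq, RingHom.comp_apply, MvPolynomial.map_C,
      IsScalarTower.algebraMap_apply κ (MvPolynomial σ κ) (FractionRing (MvPolynomial σ κ)),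
      MvPolynomial.algebraMap_eq]
  li := by
    have h1 : (fun i => ((algebraMap (MvPolynomial σ κ) (FractionRing (MvPolynomial σ κ))).comp
        (MvPolynomial.map φ)) (MvPolynomial.basisMonomials σ V i))
        = (Algebra.linearMap (MvPolynomial σ κ) (FractionRing (MvPolynomial σ κ))).restrictScalars κ
          ∘ (MvPolynomial.basisMonomials σ κ) := by
      funext i
      rw [MvPolynomial.coe_basisMonomials, RingHom.comp_apply, MvPolynomial.map_monomial, map_one]
      simp
    rw [h1]
    refine (MvPolynomial.basisMonomials σ κ).linearIndependent.map' _ ?_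
    rw [LinearMap.ker_eq_bot]
    exact IsFractionRing.injective (MvPolynomial σ κ) (FractionRing (MvPolynomial σ κ))

/-- Specialisation of symbol length bounds between rational function fields. -/
theorem symLE_mv {p : ℕ} (hκ : ∀ c : κˣ, ∃ d : κˣ, d ^ p = c) (hφ : Function.Surjective φ) {k : ℕ}
    (h : SymLE p (FractionRing (MvPolynomial σ Ω)) k) :
    SymLE p (FractionRing (MvPolynomial σ κ)) k := by
  have hn : NegOne p (FractionRing (MvPolynomial σ κ)) := by
    obtain ⟨d, hd⟩ := hκ (-1)
    refine ⟨Units.map (algebraMap κ (FractionRing (MvPolynomial σ κ)) : κ →* _) d, ?_⟩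
    rw [← map_pow, hd]
    ext
    simp
  refine ((mvGD V φ σ).pd p hκ (FractionRing (MvPolynomial σ Ω))).symLE hn ?_ h
  intro e
  obtain ⟨P, Q, hQ, he⟩ := IsFractionRing.div_surjective (A := MvPolynomial σ κ)
    (e : FractionRing (MvPolynomial σ κ))
  obtain ⟨P', hP'⟩ := MvPolynomial.map_surjective φ hφ P
  obtain ⟨Q', hQ'⟩ := MvPolynomial.map_surjective φ hφ Q
  have hinj := IsFractionRing.injective (MvPolynomial σ κ) (FractionRing (MvPolynomial σ κ))
  have h1 : ((mvGD V φ σ).pd p hκ (FractionRing (MvPolynomial σ Ω))).θ P'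
      = algebraMap _ _ P := by
    change algebraMap _ _ (MvPolynomial.map φ P') = _
    rw [hP']
  have h2 : ((mvGD V φ σ).pd p hκ (FractionRing (MvPolynomial σ Ω))).θ Q'
      = algebraMap _ _ Q := by
    change algebraMap _ _ (MvPolynomial.map φ Q') = _
    rw [hQ']
  have hQ0 : algebraMap (MvPolynomial σ κ) (FractionRing (MvPolynomial σ κ)) Q ≠ 0 := by
    rw [ne_eq, map_eq_zero_iff _ hinj]
    exact nonZeroDivisors.ne_zero hQ
  have hP0 : algebraMap (MvPolynomial σ κ) (FractionRing (MvPolynomial σ κ)) P ≠ 0 := by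
    intro h0
    rw [h0, zero_div] at he
    exact e.ne_zero he.symm
  refine ⟨P', Q', by rwa [h1], by rwa [h2], ?_⟩
  rw [h1, h2, ← he]
  field_simp

end mv

end Run7.h753
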