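import Pool.Agent.Run7.h753.StepK
import Pool.Agent.Run7.h753.Dom

/-!
# A rational place of a function field after a constant field extension
-/

set_option autoImplicit false
open scoped TensorProduct

namespace Run7.h753

universe u v w

section content

variable {κ : Type u} {Ω : Type v} [Field κ] [Field Ω] (V : ValuationSubring Ω) (φ : V →+* κ)

lemma mv_content (σ : Type w) (P : MvPolynomial σ Ω) (hP : P ≠ 0) :
    ∃ (γ : Ωˣ) (s : MvPolynomial σ V), MvPolynomial.map φ s ≠ 0 ∧
      P = MvPolynomial.C (γ : Ω) * MvPolynomial.map V.subtype s := by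
  obtain ⟨γ, s, hs, hP'⟩ := (mvGD V φ σ).content hP
  refine ⟨γ, s, ?_, hP'⟩
  intro h
  apply hs
  change algebraMap _ _ (MvPolynomial.map φ s) = 0
  rw [h, map_zero]

end content

/-- Data for a place of a function field. -/
structure HD {Ω : Type v} [Field Ω] (V : ValuationSubring Ω) (ε : V) (K : Type w) [Field K] [Algebra Ω K] (n : ℕ) where
  ψ : MvPolynomial (Option (Fin n)) Ω →ₐ[Ω] K
  H : MvPolynomial (Option (Fin n)) V
  hG : ψ (MvPolynomial.X none + MvPolynomial.C (ε : Ω) * MvPolynomial.map V.subtype H) = 0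
  hker : ∀ q, ψ q = 0 →
    (MvPolynomial.X none + MvPolynomial.C (ε : Ω) * MvPolynomial.map V.subtype H) ∣ q
  hinj : ∀ r : MvPolynomial (Fin n) Ω, ψ (MvPolynomial.rename some r) = 0 → r = 0
  hfrac : ∀ g : K, ∃ P Q, ψ Q ≠ 0 ∧ g * ψ Q = ψ P
  halg : ∀ q, ψ q ≠ 0 → ∃ (q' : MvPolynomial (Option (Fin n)) Ω) (r : MvPolynomial (Fin n) Ω),
    r ≠ 0 ∧ ψ q * ψ q' = ψ (MvPolynomial.rename some r)

section

variable {κ : Type u} {Ω : Type v} [Field κ] [Field Ω] {V : ValuationSubring Ω}
    {K : Type w} [Field K] [Algebra Ω K] {n : ℕ}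

/-- reduction map -/
noncomputable def θV (φ : V →+* κ) : MvPolynomial (Option (Fin n)) V →+* MvPolynomial (Fin n) κ :=
  MvPolynomial.eval₂Hom (MvPolynomial.C.comp φ) (fun o => o.elim 0 MvPolynomial.X)

lemma θV_C (φ : V →+* κ) (o : V) : θV (n := n) φ (MvPolynomial.C o) = MvPolynomial.C (φ o) := by
  unfold θV
  rw [MvPolynomial.coe_eval₂Hom, MvPolynomial.eval₂_C]; rfl

lemma θV_none (φ : V →+* κ) : θV (n := n) φ (MvPolynomial.X none) = 0 := by
  unfold θV
  rw [MvPolynomial.coe_eval₂Hom, MvPolynomial.eval₂_X]; rfl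

lemma θV_some (φ : V →+* κ) (i : Fin n) :
    θV (n := n) φ (MvPolynomial.X (some i)) = MvPolynomial.X i := by
  unfold θV
  rw [MvPolynomial.coe_eval₂Hom, MvPolynomial.eval₂_X]; rfl

lemma θV_rename (φ : V →+* κ) (r : MvPolynomial (Fin n) V) :
    θV φ (MvPolynomial.rename some r) = MvPolynomial.map φ r := by
  have : (θV (n := n) φ).comp (MvPolynomial.rename some).toRingHom = MvPolynomial.map φ := by
    apply MvPolynomial.ringHom_ext
    · intro o
      change θV φ (MvPolynomial.rename some (MvPolynomial.C o)) = _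
      rw [MvPolynomial.rename_C, θV_C, MvPolynomial.map_C]
    · intro i
      change θV φ (MvPolynomial.rename some (MvPolynomial.X i)) = _
      rw [MvPolynomial.rename_X, θV_some, MvPolynomial.map_X]
  exact congrArg (fun f => f r) this

/-- substitution -/
noncomputable def subH (y : MvPolynomial (Fin n) V) :
    MvPolynomial (Option (Fin n)) V →+* MvPolynomial (Fin n) V :=
  MvPolynomial.eval₂Hom MvPolynomial.C (fun o => o.elim y MvPolynomial.X)

lemma subH_C (y : MvPolynomial (Fin n) V) (o : V) :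
    subH y (MvPolynomial.C o) = MvPolynomial.C o := by
  unfold subH
  rw [MvPolynomial.coe_eval₂Hom, MvPolynomial.eval₂_C]

lemma subH_none (y : MvPolynomial (Fin n) V) : subH y (MvPolynomial.X none) = y := by
  unfold subH
  rw [MvPolynomial.coe_eval₂Hom, MvPolynomial.eval₂_X]; rfl

lemma subH_some (y : MvPolynomial (Fin n) V) (i : Fin n) :
    subH y (MvPolynomial.X (some i)) = MvPolynomial.X i := by
  unfold subH
  rw [MvPolynomial.coe_eval₂Hom, MvPolynomial.eval₂_X]; rfl

/-- Newton iteration -/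
noncomputable def newtonY (ε : V) (H : MvPolynomial (Option (Fin n)) V) : ℕ → MvPolynomial (Fin n) V
  | 0 => 0
  | k + 1 => - (MvPolynomial.C ε * subH (newtonY ε H k) H)

namespace HD

variable {ε : V} (D : HD V ε K n)

/-- restriction to `V`-coefficients -/
noncomputable def ψV : MvPolynomial (Option (Fin n)) V →+* K :=
  D.ψ.toRingHom.comp (MvPolynomial.map V.subtype)

lemma ψV_apply (q : MvPolynomial (Option (Fin n)) V) :
    D.ψV q = D.ψ (MvPolynomial.map V.subtype q) := rfl

lemma ψV_C (o : V) : D.ψV (MvPolynomial.C o) = algebraMap Ω K o := by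
  rw [ψV_apply, MvPolynomial.map_C, MvPolynomial.algHom_C]; rfl

lemma kerV (φ : V →+* κ) (hφε : φ ε = 0)
    (q : MvPolynomial (Option (Fin n)) V) (hq : D.ψV q = 0) : θV φ q = 0 := by
  have hmapinj : Function.Injective (MvPolynomial.map (σ := Option (Fin n)) V.subtype) :=
    MvPolynomial.map_injective _ Subtype.val_injective
  obtain ⟨q', hq'⟩ := D.hker _ hq
  let G : MvPolynomial (Option (Fin n)) V := MvPolynomial.X none + MvPolynomial.C ε * D.H
  have hGmap : MvPolynomial.map V.subtype G = MvPolynomial.X none +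
      MvPolynomial.C (ε : Ω) * MvPolynomial.map V.subtype D.H := by
    simp only [G, map_add, map_mul, MvPolynomial.map_X, MvPolynomial.map_C]
    rfl
  have hG0 : θV φ G = 0 := by
    simp only [G, map_add, map_mul, θV_none, θV_C, hφε, map_zero, zero_mul, add_zero]
  have hG1 : MvPolynomial.map φ G ≠ 0 := by
    simp only [G, map_add, map_mul, MvPolynomial.map_X, MvPolynomial.map_C, hφε, map_zero,
      zero_mul, add_zero]
    exact MvPolynomial.X_ne_zero none
  rw [← hGmap] at hq'
  by_cases h0 : q' = 0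
  · rw [h0, mul_zero] at hq'
    have : q = 0 := hmapinj (by rw [hq', map_zero])
    rw [this, map_zero]
  obtain ⟨γ, s, hs, rfl⟩ := mv_content V φ _ q' h0
  rcases V.mem_or_inv_mem (γ : Ω) with hγ | hγ
  · have : q = MvPolynomial.C ⟨γ, hγ⟩ * (G * s) := by
      apply hmapinj
      rw [hq', map_mul, map_mul, MvPolynomial.map_C]
      change _ = MvPolynomial.C (γ : Ω) * _
      ring
    rw [this, map_mul, map_mul, hG0, zero_mul, mul_zero]
  · have h1 : MvPolynomial.C ⟨(γ : Ω)⁻¹, hγ⟩ * q = G * s := by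
      apply hmapinj
      rw [map_mul, map_mul, hq', MvPolynomial.map_C]
      change MvPolynomial.C ((γ : Ω)⁻¹) * _ = _
      have : MvPolynomial.C ((γ : Ω)⁻¹) * (MvPolynomial.map V.subtype G *
          (MvPolynomial.C (γ : Ω) * MvPolynomial.map V.subtype s))
          = (MvPolynomial.C ((γ : Ω)⁻¹) * MvPolynomial.C (γ : Ω)) *
            (MvPolynomial.map V.subtype G * MvPolynomial.map V.subtype s) := by ring
      rw [this, ← MvPolynomial.C_mul, inv_mul_cancel₀ γ.ne_zero, MvPolynomial.C_1, one_mul]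
    by_cases h2 : φ ⟨(γ : Ω)⁻¹, hγ⟩ = 0
    · exfalso
      have h3 := congrArg (MvPolynomial.map φ) h1
      rw [map_mul, map_mul, MvPolynomial.map_C, h2, map_zero, zero_mul] at h3
      exact (mul_ne_zero hG1 hs) h3.symm
    · have h3 := congrArg (θV φ) h1
      rw [map_mul, map_mul, hG0, zero_mul, θV_C] at h3
      rcases mul_eq_zero.mp h3 with h4 | h4
      · exfalso
        rw [MvPolynomial.C_eq_zero] at h4
        exact h2 h4
      · exact h4

variable {W : ValuationSubring K} {φ : V →+* κ}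
  (hW : ∀ r, D.ψV r ∈ W ∧ (θV φ r ≠ 0 → (D.ψV r)⁻¹ ∈ W) ∧ (θV φ r = 0 → D.ψV r ∈ W.nonunits))

/-- corestriction to `W` -/
noncomputable def ψW : MvPolynomial (Option (Fin n)) V →+* W :=
  D.ψV.codRestrict W.toSubring (fun r => (hW r).1)

lemma ψW_coe (q : MvPolynomial (Option (Fin n)) V) : (D.ψW hW q : K) = D.ψV q := rfl

lemma res_eq_zero {q : MvPolynomial (Option (Fin n)) V} (h : θV φ q = 0) :
    IsLocalRing.residue W (D.ψW hW q) = 0 := by
  rw [IsLocalRing.residue_eq_zero_iff]
  have h1 := (hW q).2.2 h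
  rw [ValuationSubring.mem_nonunits_iff_exists_mem_maximalIdeal] at h1
  exact h1.2

include hW in
lemma res_ne_zero (hk : ∀ q, D.ψV q = 0 → θV φ q = 0)
    {q : MvPolynomial (Option (Fin n)) V} (h : θV φ q ≠ 0) :
    IsLocalRing.residue W (D.ψW hW q) ≠ 0 := by
  have h1 := (hW q).2.1 h
  have h0 : D.ψV q ≠ 0 := fun h0 => h (hk q h0)
  rw [ne_eq, IsLocalRing.residue_eq_zero_iff, IsLocalRing.mem_maximalIdeal, mem_nonunits_iff,
    not_not]
  exact IsUnit.of_mul_eq_one ⟨_, h1⟩ (Subtype.ext (mul_inv_cancel₀ h0))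

lemma newton (k : ℕ) (q : MvPolynomial (Option (Fin n)) V) :
    ∃ w : W, D.ψW hW q - D.ψW hW (MvPolynomial.rename some (subH (newtonY ε D.H k) q))
      = (D.ψW hW (MvPolynomial.C ε)) ^ k * w := by
  induction k generalizing q with
  | zero => exact ⟨_, by rw [pow_zero, one_mul]⟩
  | succ k ih =>
    let I : Ideal W := Ideal.span {(D.ψW hW (MvPolynomial.C ε)) ^ (k + 1)}
    let a : MvPolynomial (Option (Fin n)) V →+* W ⧸ I := (Ideal.Quotient.mk I).comp (D.ψW hW)
    let b : MvPolynomial (Option (Fin n)) V →+* W ⧸ I := ((Ideal.Quotient.mk I).comp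
      (D.ψW hW)).comp ((MvPolynomial.rename some).toRingHom.comp (subH (newtonY ε D.H (k + 1))))
    have hab : a = b := by
      apply MvPolynomial.ringHom_ext
      · intro o
        change Ideal.Quotient.mk I (D.ψW hW (MvPolynomial.C o)) = Ideal.Quotient.mk I
          (D.ψW hW (MvPolynomial.rename some (subH (newtonY ε D.H (k + 1)) (MvPolynomial.C o))))
        rw [subH_C, MvPolynomial.rename_C]
      · rintro (_ | i)
        · change Ideal.Quotient.mk I (D.ψW hW (MvPolynomial.X none)) = Ideal.Quotient.mk I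
            (D.ψW hW (MvPolynomial.rename some (subH (newtonY ε D.H (k + 1))
              (MvPolynomial.X none))))
          rw [subH_none, Ideal.Quotient.mk_eq_mk_iff_sub_mem, Ideal.mem_span_singleton']
          obtain ⟨w, hw⟩ := ih D.H
          refine ⟨-w, ?_⟩
          have h1 : D.ψW hW (MvPolynomial.X none)
              = - (D.ψW hW (MvPolynomial.C ε) * D.ψW hW D.H) := by
            rw [eq_neg_iff_add_eq_zero]
            apply Subtype.ext
            have := D.hG
            rw [map_add, map_mul] at this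
            change D.ψV _ + D.ψV _ * D.ψV _ = 0
            rw [ψV_apply, ψV_apply, ψV_apply, MvPolynomial.map_X, MvPolynomial.map_C]
            exact this
          have h2 : newtonY ε D.H (k + 1)
              = - (MvPolynomial.C ε * subH (newtonY ε D.H k) D.H) := rfl
          rw [h1, h2, map_neg, map_mul, MvPolynomial.rename_C, map_neg, map_mul]
          linear_combination (D.ψW hW (MvPolynomial.C ε)) * hw
        · change Ideal.Quotient.mk I (D.ψW hW (MvPolynomial.X (some i))) = Ideal.Quotient.mk I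
            (D.ψW hW (MvPolynomial.rename some (subH (newtonY ε D.H (k + 1))
              (MvPolynomial.X (some i)))))
          rw [subH_some, MvPolynomial.rename_X]
    have h1 : a q = b q := by rw [hab]
    change Ideal.Quotient.mk I (D.ψW hW q) = Ideal.Quotient.mk I
          (D.ψW hW (MvPolynomial.rename some (subH (newtonY ε D.H (k + 1)) q))) at h1
    rw [Ideal.Quotient.mk_eq_mk_iff_sub_mem, Ideal.mem_span_singleton'] at h1
    obtain ⟨w, hw⟩ := h1
    exact ⟨w, by rw [← hw, mul_comm]⟩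

include hW in
/-- units of `V` and of `W` -/
lemma mem_V_of_mem_W (hVu : ∀ x : V, φ x ≠ 0 → (x : Ω)⁻¹ ∈ V) {o : Ω} (ho : algebraMap Ω K o ∈ W) : o ∈ V := by
  by_contra hcon
  have h0 : o ≠ 0 := by rintro rfl; exact hcon V.zero_mem
  have h1 : o⁻¹ ∈ V := (V.mem_or_inv_mem o).resolve_left hcon
  have h2 : φ ⟨o⁻¹, h1⟩ = 0 := by
    by_contra h2
    have := hVu _ h2
    rw [inv_inv] at this
    exact hcon this
  have h3 : θV (n := n) φ (MvPolynomial.C ⟨o⁻¹, h1⟩) = 0 := by rw [θV_C, h2, map_zero]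
  have h4 := (hW _).2.2 h3
  rw [D.ψV_C] at h4
  change algebraMap Ω K o⁻¹ ∈ W.nonunits at h4
  rw [map_inv₀, ValuationSubring.inv_mem_nonunits_iff] at h4
  rcases h4 with h4 | h4
  · exact h0 ((map_eq_zero _).mp h4)
  · exact h4 ho

include hW in
lemma dec1 (hk : ∀ q, D.ψV q = 0 → θV φ q = 0)
    (harch : ∀ e : Ω, e ≠ 0 → ∃ (k : ℕ) (h : (ε : Ω) ^ k / e ∈ V), φ ⟨_, h⟩ = 0)
    (q : MvPolynomial (Option (Fin n)) V) (hq : D.ψV q ≠ 0) :
    ∃ (γ : Ωˣ) (s : MvPolynomial (Fin n) V) (u : W), MvPolynomial.map φ s ≠ 0 ∧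
      IsLocalRing.residue W u = 1 ∧
      D.ψV q * u = algebraMap Ω K γ * D.ψV (MvPolynomial.rename some s) := by
  obtain ⟨q', r, hr0, hqr⟩ := D.halg _ hq
  have hr0' : D.ψ (MvPolynomial.rename some r) ≠ 0 := fun h => hr0 (D.hinj r h)
  have hq'0 : q' ≠ 0 := by
    rintro rfl
    rw [map_zero, mul_zero] at hqr
    exact hr0' hqr.symm
  obtain ⟨c1, b, hb, rfl⟩ := mv_content V φ _ q' hq'0
  obtain ⟨c2, s0, hs0, rfl⟩ := mv_content V φ _ r hr0
  have hs0' : θV φ (MvPolynomial.rename some s0) ≠ 0 := by rw [θV_rename]; exact hs0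
  have hu0 : IsUnit (D.ψW hW (MvPolynomial.rename some s0)) := by
    have := D.res_ne_zero hW hk hs0'
    rwa [ne_eq, IsLocalRing.residue_eq_zero_iff, IsLocalRing.mem_maximalIdeal, mem_nonunits_iff,
      not_not] at this
  obtain ⟨u0, hu0⟩ := hu0
  -- the scalar
  have hc1 : algebraMap Ω K c1 ≠ 0 := by rw [ne_eq, map_eq_zero]; exact c1.ne_zero
  have hmain : D.ψV q * D.ψV b = algebraMap Ω K (c2 / c1 : Ω) * D.ψV (MvPolynomial.rename some s0) := by
    rw [map_mul, MvPolynomial.algHom_C, map_mul, MvPolynomial.rename_C, map_mul,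
      MvPolynomial.algHom_C, ← MvPolynomial.map_rename] at hqr
    rw [map_div₀]
    have h1 : D.ψ (MvPolynomial.map V.subtype b) = D.ψV b := rfl
    have h2 : D.ψ (MvPolynomial.map V.subtype (MvPolynomial.rename some s0))
        = D.ψV (MvPolynomial.rename some s0) := rfl
    have h3 : D.ψ (MvPolynomial.map V.subtype q) = D.ψV q := rfl
    rw [h1, h2, h3] at hqr
    field_simp
    linear_combination hqr
  have he0 : (c2 / c1 : Ω) ≠ 0 := div_ne_zero c2.ne_zero c1.ne_zero
  have hu0i : D.ψV (MvPolynomial.rename some s0) * ((u0⁻¹ : Wˣ) : W) = 1 := by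
    have h1 := Units.mul_inv u0
    rw [hu0] at h1
    exact congrArg Subtype.val h1
  obtain ⟨k, hkV, hk0⟩ := harch _ he0
  obtain ⟨w, hw⟩ := D.newton hW k q
  -- the small element
  have hsmall : IsLocalRing.residue W (D.ψW hW (MvPolynomial.C ⟨_, hkV⟩)) = 0 := by
    apply D.res_eq_zero hW
    rw [θV_C, hk0, map_zero]
  let d : W := D.ψW hW (MvPolynomial.C ⟨_, hkV⟩) * D.ψW hW b * ((u0⁻¹ : Wˣ) : W) * w
  have hd : IsLocalRing.residue W d = 0 := by
    simp only [d, map_mul, hsmall, zero_mul]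
  have hkey : D.ψV q * (1 - d) = D.ψV (MvPolynomial.rename some (subH (newtonY ε D.H k) q)) := by
    have h1 : (D.ψV q : K) - D.ψV (MvPolynomial.rename some (subH (newtonY ε D.H k) q))
        = (algebraMap Ω K ε) ^ k * w := by
      have := congrArg Subtype.val hw
      rw [← D.ψV_C]
      exact this
    have h2 : D.ψV q * (d : K) = (algebraMap Ω K ε) ^ k * w := by
      have h3 : (d : K) = algebraMap Ω K ((ε : Ω) ^ k / (c2 / c1 : Ω)) * D.ψV b
          * ((u0⁻¹ : Wˣ) : W) * w := by
        rw [← D.ψV_C ⟨_, hkV⟩]; rfl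
      rw [h3]
      have h4 : algebraMap Ω K (c2 / c1 : Ω) ≠ 0 := by rw [ne_eq, map_eq_zero]; exact he0
      rw [map_div₀ (algebraMap Ω K) ((ε : Ω) ^ k), map_pow]
      calc D.ψV q * ((algebraMap Ω K ε) ^ k / algebraMap Ω K (c2 / c1 : Ω) * D.ψV b
            * ((u0⁻¹ : Wˣ) : W) * w)
          = (algebraMap Ω K ε) ^ k / algebraMap Ω K (c2 / c1 : Ω) * (D.ψV q * D.ψV b)
            * ((u0⁻¹ : Wˣ) : W) * w := by ring
        _ = (algebraMap Ω K ε) ^ k / algebraMap Ω K (c2 / c1 : Ω) * (algebraMap Ω K (c2 / c1 : Ω)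
            * D.ψV (MvPolynomial.rename some s0)) * ((u0⁻¹ : Wˣ) : W) * w := by rw [hmain]
        _ = (algebraMap Ω K ε) ^ k * (D.ψV (MvPolynomial.rename some s0)
            * ((u0⁻¹ : Wˣ) : W)) * w := by field_simp
        _ = _ := by rw [hu0i, mul_one]
    rw [mul_sub, mul_one, h2, ← h1]
    ring
  have hres1 : IsLocalRing.residue W (1 - d) = 1 := by rw [map_sub, map_one, hd, sub_zero]
  have h1d : ((1 - d : W) : K) ≠ 0 := by
    intro h0
    have : (1 - d : W) = 0 := Subtype.ext h0
    rw [this, map_zero] at hres1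
    exact zero_ne_one hres1
  have hne : subH (newtonY ε D.H k) q ≠ 0 := by
    intro h0
    rw [h0, map_zero, map_zero] at hkey
    exact (mul_ne_zero hq h1d) hkey
  have hmapinj : Function.Injective (MvPolynomial.map (σ := Fin n) V.subtype) :=
    MvPolynomial.map_injective _ Subtype.val_injective
  have hne' : MvPolynomial.map V.subtype (subH (newtonY ε D.H k) q) ≠ 0 := by
    rw [ne_eq, map_eq_zero_iff _ hmapinj]; exact hne
  obtain ⟨γ, s, hs, hs'⟩ := mv_content V φ _ _ hne'
  refine ⟨γ, s, 1 - d, hs, hres1, ?_⟩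
  have h5 : D.ψV (MvPolynomial.rename some (subH (newtonY ε D.H k) q))
      = algebraMap Ω K γ * D.ψV (MvPolynomial.rename some s) := by
    rw [ψV_apply, ψV_apply, MvPolynomial.map_rename, hs', map_mul, MvPolynomial.rename_C, map_mul,
      MvPolynomial.algHom_C, MvPolynomial.map_rename]
  rw [← h5]
  exact hkey

end HD

end

end Run7.h753
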