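import Pool.Agent.Run7.h753.Hensel

/-!
# A rational place of a function field after a constant field extension, II
-/

set_option autoImplicit false
open scoped TensorProduct

namespace Run7.h753

universe u v w

section

variable {κ : Type u} {Ω : Type v} [Field κ] [Field Ω] {V : ValuationSubring Ω}
    {K : Type w} [Field K] [Algebra Ω K] {n : ℕ}

namespace HD

variable {ε : V} (D : HD V ε K n) {W : ValuationSubring K} {φ : V →+* κ}
  (hW : ∀ r, D.ψV r ∈ W ∧ (θV φ r ≠ 0 → (D.ψV r)⁻¹ ∈ W) ∧ (θV φ r = 0 → D.ψV r ∈ W.nonunits))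

include hW in
lemma dec2 (hk : ∀ q, D.ψV q = 0 → θV φ q = 0)
    (harch : ∀ e : Ω, e ≠ 0 → ∃ (k : ℕ) (h : (ε : Ω) ^ k / e ∈ V), φ ⟨_, h⟩ = 0)
    (g : K) (hg : g ≠ 0) :
    ∃ (γ : Ωˣ) (s₁ s₂ : MvPolynomial (Fin n) V) (u : W), MvPolynomial.map φ s₁ ≠ 0 ∧
      MvPolynomial.map φ s₂ ≠ 0 ∧ IsLocalRing.residue W u = 1 ∧
      g * D.ψV (MvPolynomial.rename some s₂)
        = algebraMap Ω K γ * (D.ψV (MvPolynomial.rename some s₁) * u) := by
  obtain ⟨P, Q, hQ, hPQ⟩ := D.hfrac g
  have hQ0 : Q ≠ 0 := by rintro rfl; exact hQ (map_zero _)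
  have hP : D.ψ P ≠ 0 := by rw [← hPQ]; exact mul_ne_zero hg hQ
  have hP0 : P ≠ 0 := by rintro rfl; exact hP (map_zero _)
  obtain ⟨γ1, P', -, rfl⟩ := mv_content V φ _ P hP0
  obtain ⟨γ2, Q', -, rfl⟩ := mv_content V φ _ Q hQ0
  rw [map_mul, MvPolynomial.algHom_C] at hP hQ
  have hP' : D.ψV P' ≠ 0 := right_ne_zero_of_mul hP
  have hQ' : D.ψV Q' ≠ 0 := right_ne_zero_of_mul hQ
  obtain ⟨γ3, s₁, u1, hs₁, hu1, h1⟩ := D.dec1 hW hk harch P' hP'
  obtain ⟨γ4, s₂, u2, hs₂, hu2, h2⟩ := D.dec1 hW hk harch Q' hQ'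
  have hunit : ∀ u : W, IsLocalRing.residue W u = 1 → ∃ v : W, v * u = 1 := by
    intro u hu
    have h3 : IsUnit u := by
      have : IsLocalRing.residue W u ≠ 0 := by rw [hu]; exact one_ne_zero
      rwa [ne_eq, IsLocalRing.residue_eq_zero_iff, IsLocalRing.mem_maximalIdeal, mem_nonunits_iff,
        not_not] at this
    obtain ⟨v, hv⟩ := h3
    exact ⟨((v⁻¹ : Wˣ) : W), by rw [← hv]; exact Units.inv_mul v⟩
  obtain ⟨v1, hv1⟩ := hunit u1 hu1
  have hv1r : IsLocalRing.residue W v1 = 1 := by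
    have := congrArg (IsLocalRing.residue W) hv1
    rwa [map_mul, hu1, mul_one, map_one] at this
  refine ⟨γ1 * γ3 / (γ2 * γ4), s₁, s₂, v1 * u2, hs₁, hs₂, by rw [map_mul, hv1r, hu2, mul_one], ?_⟩
  have hv1' : (v1 : K) * u1 = 1 := congrArg Subtype.val hv1
  have hg1 : algebraMap Ω K γ1 ≠ 0 := by rw [ne_eq, map_eq_zero]; exact γ1.ne_zero
  have hg2 : algebraMap Ω K γ2 ≠ 0 := by rw [ne_eq, map_eq_zero]; exact γ2.ne_zero
  have hg3 : algebraMap Ω K γ3 ≠ 0 := by rw [ne_eq, map_eq_zero]; exact γ3.ne_zero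
  have hg4 : algebraMap Ω K γ4 ≠ 0 := by rw [ne_eq, map_eq_zero]; exact γ4.ne_zero
  rw [map_mul, map_mul, MvPolynomial.algHom_C, MvPolynomial.algHom_C] at hPQ
  have hPQ' : g * (algebraMap Ω K γ2 * D.ψV Q') = algebraMap Ω K γ1 * D.ψV P' := hPQ
  have e1 : (((γ1 * γ3 / (γ2 * γ4) : Ωˣ)) : Ω) = γ1 * γ3 / (γ2 * γ4) := by
    rw [Units.val_div_eq_div_val, Units.val_mul, Units.val_mul]
  rw [e1, map_div₀, map_mul, map_mul]
  have e2 : ((v1 * u2 : W) : K) = v1 * u2 := rfl
  rw [e2]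
  field_simp
  calc g * D.ψV (MvPolynomial.rename some s₂) * algebraMap Ω K γ2 * algebraMap Ω K γ4
      = g * algebraMap Ω K γ2 * (algebraMap Ω K γ4 * D.ψV (MvPolynomial.rename some s₂)) := by ring
    _ = (g * (algebraMap Ω K γ2 * D.ψV Q')) * u2 := by rw [← h2]; ring
    _ = algebraMap Ω K γ1 * D.ψV P' * u2 := by rw [hPQ']
    _ = algebraMap Ω K γ1 * D.ψV P' * ((v1 : K) * u1) * u2 := by rw [hv1', mul_one]
    _ = algebraMap Ω K γ1 * (D.ψV P' * u1) * v1 * u2 := by ring
    _ = _ := by rw [h1]; ring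

include hW in
lemma mem_W_of_mem_V {o : Ω} (ho : o ∈ V) : algebraMap Ω K o ∈ W := by
  have := (hW (MvPolynomial.C ⟨o, ho⟩)).1
  rwa [D.ψV_C] at this

/-- residue of constants -/
lemma res_const [Algebra κ V] (hφ : ∀ c : κ, φ (algebraMap κ V c) = c) {o : Ω} (ho : o ∈ V) :
    IsLocalRing.residue W (D.ψW hW (MvPolynomial.C ⟨o, ho⟩))
      = IsLocalRing.residue W (D.ψW hW (MvPolynomial.C (algebraMap κ V (φ ⟨o, ho⟩)))) := by
  rw [← sub_eq_zero, ← map_sub, ← map_sub]
  apply D.res_eq_zero hW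
  rw [map_sub, θV_C, θV_C, hφ, sub_self]

/-- The place data with values in the residue field. -/
noncomputable def pd (p : ℕ) (hκ : ∀ c : κˣ, ∃ d : κˣ, d ^ p = c) [Algebra κ V]
    (hφ : ∀ c : κ, φ (algebraMap κ V c) = c)
    (hk : ∀ q, D.ψV q = 0 → θV φ q = 0) (hVu : ∀ x : V, φ x ≠ 0 → (x : Ω)⁻¹ ∈ V)
    (harch : ∀ e : Ω, e ≠ 0 → ∃ (k : ℕ) (h : (ε : Ω) ^ k / e ∈ V), φ ⟨_, h⟩ = 0) :
    PD p K (IsLocalRing.ResidueField W) W Ωˣ where
  i := W.subtype
  inj := Subtype.val_injective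
  θ := IsLocalRing.residue W
  ι := Units.map (algebraMap Ω K : Ω →* K)
  w := 1
  dec := by
    intro x
    obtain ⟨γ, s₁, s₂, u, hs₁, hs₂, hu, h⟩ := D.dec2 hW hk harch (x : K) x.ne_zero
    refine ⟨γ, D.ψW hW (MvPolynomial.rename some s₁) * u, D.ψW hW (MvPolynomial.rename some s₂),
      ?_, ?_, h⟩
    · rw [map_mul, hu, mul_one]
      exact D.res_ne_zero hW hk (by rw [θV_rename]; exact hs₁)
    · exact D.res_ne_zero hW hk (by rw [θV_rename]; exact hs₂)
  ord := by
    intro γ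
    rcases V.mem_or_inv_mem (γ : Ω) with h | h
    · exact Or.inl ⟨⟨_, D.mem_W_of_mem_V hW h⟩, rfl⟩
    · refine Or.inr ⟨⟨_, D.mem_W_of_mem_V hW h⟩, ?_⟩
      change ((Units.map (algebraMap Ω K : Ω →* K) γ⁻¹ : Kˣ) : K) = algebraMap Ω K (γ : Ω)⁻¹
      rw [Units.coe_map, Units.val_inv_eq_inv_val]
      rfl
  unit := by
    intro γ s s' hs hs' h
    refine ⟨?_, rfl⟩
    have hsu : IsUnit s' := by
      rwa [ne_eq, IsLocalRing.residue_eq_zero_iff, IsLocalRing.mem_maximalIdeal,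
        mem_nonunits_iff, not_not] at hs'
    obtain ⟨u, hu⟩ := hsu
    have hu' : (s' : K) * ((u⁻¹ : Wˣ) : W) = 1 := by
      have := Units.mul_inv u
      rw [hu] at this
      exact congrArg Subtype.val this
    have hγW : algebraMap Ω K γ ∈ W := by
      have h1 : algebraMap Ω K γ = ((s * ((u⁻¹ : Wˣ) : W) : W) : K) := by
        have h2 : algebraMap Ω K γ * (s' : K) = s := h
        have h3 : ((s * ((u⁻¹ : Wˣ) : W) : W) : K) = (s : K) * ((u⁻¹ : Wˣ) : W) := rfl
        rw [h3, ← h2, mul_assoc, hu', mul_one]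
      rw [h1]
      exact Subtype.mem _
    have hγV : (γ : Ω) ∈ V := D.mem_V_of_mem_W hW hVu hγW
    have hmul : s = D.ψW hW (MvPolynomial.C ⟨γ, hγV⟩) * s' := by
      apply Subtype.ext
      have h2 : algebraMap Ω K γ * (s' : K) = s := h
      rw [← h2]
      change _ = D.ψV _ * (s' : K)
      rw [D.ψV_C]
    have hres : IsLocalRing.residue W s = IsLocalRing.residue W (D.ψW hW
        (MvPolynomial.C (algebraMap κ V (φ ⟨γ, hγV⟩)))) * IsLocalRing.residue W s' := by
      rw [hmul, map_mul, D.res_const hW hφ hγV]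
    have hφγ : φ ⟨γ, hγV⟩ ≠ 0 := by
      intro h0
      rw [h0, map_zero, map_zero, map_zero, map_zero, zero_mul] at hres
      exact hs hres
    obtain ⟨d, hd⟩ := hκ (Units.mk0 _ hφγ)
    let j : κ →+* IsLocalRing.ResidueField W := (IsLocalRing.residue W).comp
      ((D.ψW hW).comp (MvPolynomial.C.comp (algebraMap κ V)))
    have h3 : Units.mk0 _ hs = (Units.map (j : κ →* _) d) ^ p * Units.mk0 _ hs' := by
      rw [← map_pow, hd]
      ext
      rw [Units.val_mk0, Units.val_mul, Units.coe_map, Units.val_mk0, hres]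
      rfl
    rw [h3, cl_mul, cl_pow_p, zero_add]

end HD

/-- Main consequence: transfer to the rational function field. -/
theorem HD.symLE {p : ℕ} (hp : 0 < p) {ε : V} (D : HD V ε K n) {φ : V →+* κ} [IsAlgClosed κ]
    [Algebra κ V] (hφ : ∀ c : κ, φ (algebraMap κ V c) = c) (hφε : φ ε = 0)
    (hVu : ∀ x : V, φ x ≠ 0 → (x : Ω)⁻¹ ∈ V)
    (harch : ∀ e : Ω, e ≠ 0 → ∃ (k : ℕ) (h : (ε : Ω) ^ k / e ∈ V), φ ⟨_, h⟩ = 0)
    {k : ℕ} (h : SymLE p K k) : SymLE p (FractionRing (MvPolynomial (Fin n) κ)) k := by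
  have hk : ∀ q, D.ψV q = 0 → θV φ q = 0 := fun q hq => D.kerV φ hφε q hq
  obtain ⟨W, hW⟩ := exists_dominating D.ψV (θV φ) hk
  let j : κ →+* IsLocalRing.ResidueField W := (IsLocalRing.residue W).comp
      ((D.ψW hW).comp (MvPolynomial.C.comp (algebraMap κ V)))
  have hn : NegOne p (IsLocalRing.ResidueField W) := negOne_of_algebra hp j
  have h1 : SymLE p (IsLocalRing.ResidueField W) k := by
    refine (D.pd hW p (pow_surj_units hp) hφ hk hVu harch).symLE hn ?_ h
    intro e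
    obtain ⟨w, hw⟩ := IsLocalRing.residue_surjective (e : IsLocalRing.ResidueField W)
    refine ⟨w, 1, ?_, ?_, ?_⟩
    · change IsLocalRing.residue W w ≠ 0
      rw [hw]; exact e.ne_zero
    · rw [map_one]; exact one_ne_zero
    · rw [map_one, mul_one]; exact hw.symm
  -- the residue field is rational
  let lam : MvPolynomial (Fin n) κ →+* IsLocalRing.ResidueField W := (IsLocalRing.residue W).comp
      ((D.ψW hW).comp ((MvPolynomial.rename some).toRingHom.comp
        (MvPolynomial.map (algebraMap κ V))))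
  have hlam : ∀ s : MvPolynomial (Fin n) V,
      IsLocalRing.residue W (D.ψW hW (MvPolynomial.rename some s)) = lam (MvPolynomial.map φ s) := by
    intro s
    change _ = IsLocalRing.residue W (D.ψW hW (MvPolynomial.rename some
      (MvPolynomial.map (algebraMap κ V) (MvPolynomial.map φ s))))
    rw [← sub_eq_zero, ← map_sub, ← map_sub, ← map_sub]
    apply D.res_eq_zero hW
    have hcomp : (φ.comp (algebraMap κ V)).comp φ = φ := RingHom.ext fun c => hφ _
    rw [θV_rename, map_sub, MvPolynomial.map_map, MvPolynomial.map_map, hcomp, sub_self]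
  have hlamC : ∀ c : κ, lam (MvPolynomial.C c) = IsLocalRing.residue W (D.ψW hW
      (MvPolynomial.C (algebraMap κ V c))) := by
    intro c
    change IsLocalRing.residue W (D.ψW hW (MvPolynomial.rename some
      (MvPolynomial.map (algebraMap κ V) (MvPolynomial.C c)))) = _
    rw [MvPolynomial.map_C, MvPolynomial.rename_C]
  have hlaminj : Function.Injective lam := by
    rw [injective_iff_map_eq_zero]
    intro P hP
    by_contra hP0
    apply D.res_ne_zero hW hk (q := MvPolynomial.rename some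
      (MvPolynomial.map (algebraMap κ V) P)) _ hP
    rw [θV_rename, MvPolynomial.map_map]
    have : φ.comp (algebraMap κ V) = RingHom.id κ := by
      ext c
      exact hφ c
    rw [this, MvPolynomial.map_id]
    exact hP0
  let alg : Algebra (MvPolynomial (Fin n) κ) (IsLocalRing.ResidueField W) := lam.toAlgebra
  have hfaith : FaithfulSMul (MvPolynomial (Fin n) κ) (IsLocalRing.ResidueField W) := by
    rw [faithfulSMul_iff_algebraMap_injective]
    exact hlaminj
  have hfrac : IsFractionRing (MvPolynomial (Fin n) κ) (IsLocalRing.ResidueField W) := by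
    refine IsFractionRing.of_field _ _ fun z => ?_
    by_cases hz : z = 0
    · exact ⟨0, 1, by rw [hz, map_zero, zero_div]⟩
    obtain ⟨g, rfl⟩ := IsLocalRing.residue_surjective z
    have hg : (g : K) ≠ 0 := by
      intro h0
      have : g = 0 := Subtype.ext h0
      exact hz (by rw [this, map_zero])
    obtain ⟨γ, s₁, s₂, u, hs₁, hs₂, hu, hgs⟩ := D.dec2 hW hk harch (g : K) hg
    -- the scalar is a unit
    let x : Kˣ := Units.mk0 _ hg
    have hunit : ∀ w : W, IsLocalRing.residue W w ≠ 0 → ∃ v : W, w * v = 1 := by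
      intro w hw
      have h3 : IsUnit w := by
        rwa [ne_eq, IsLocalRing.residue_eq_zero_iff, IsLocalRing.mem_maximalIdeal,
          mem_nonunits_iff, not_not] at hw
      obtain ⟨v, hv⟩ := h3
      exact ⟨((v⁻¹ : Wˣ) : W), by rw [← hv]; exact Units.mul_inv v⟩
    have hr1 : IsLocalRing.residue W (D.ψW hW (MvPolynomial.rename some s₁) * u) ≠ 0 := by
      rw [map_mul, hu, mul_one]
      exact D.res_ne_zero hW hk (by rw [θV_rename]; exact hs₁)
    have hr2 : IsLocalRing.residue W (D.ψW hW (MvPolynomial.rename some s₂)) ≠ 0 :=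
      D.res_ne_zero hW hk (by rw [θV_rename]; exact hs₂)
    obtain ⟨v, hv⟩ := hunit _ hr1
    have hγW : algebraMap Ω K γ ∈ W := by
      have h2 : algebraMap Ω K γ = ((g * D.ψW hW (MvPolynomial.rename some s₂) * v : W) : K) := by
        have h3 : ((g * D.ψW hW (MvPolynomial.rename some s₂) * v : W) : K)
            = g * D.ψV (MvPolynomial.rename some s₂) * v := rfl
        have h4 : (D.ψV (MvPolynomial.rename some s₁) * u : K) * v = 1 := congrArg Subtype.val hv
        rw [h3, hgs, mul_assoc, h4, mul_one]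
      rw [h2]
      exact Subtype.mem _
    have hγV : (γ : Ω) ∈ V := D.mem_V_of_mem_W hW hVu hγW
    have heq : g * D.ψW hW (MvPolynomial.rename some s₂) = D.ψW hW (MvPolynomial.C ⟨γ, hγV⟩)
        * (D.ψW hW (MvPolynomial.rename some s₁) * u) := by
      apply Subtype.ext
      change (g : K) * D.ψV _ = D.ψV _ * (D.ψV _ * u)
      rw [hgs, D.ψV_C]
    have heq' := congrArg (IsLocalRing.residue W) heq
    rw [map_mul, map_mul, map_mul, hu, mul_one, D.res_const hW hφ hγV, hlam, hlam, ← hlamC,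
      ← map_mul] at heq'
    refine ⟨MvPolynomial.C (φ ⟨γ, hγV⟩) * MvPolynomial.map φ s₁, MvPolynomial.map φ s₂, ?_⟩
    change _ = lam _ / lam _
    rw [← heq', mul_div_assoc, div_self, mul_one]
    rw [← hlam]
    exact hr2
  exact h1.of_ringEquiv (FractionRing.algEquiv (MvPolynomial (Fin n) κ)
    (IsLocalRing.ResidueField W)).symm.toRingEquiv

end

end Run7.h753
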