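import Pool.Agent.Run7.h753.Arch
import Pool.Agent.Run7.h753.Card
import Pool.Agent.Run7.h753.Descent
import Pool.Agent.Run7.h753.FieldHD
import Pool.Agent.Run7.h753.Hensel2

/-!
# The lower half: from a finitely generated field to the rational function field
-/

set_option autoImplicit false
open scoped TensorProduct Cardinal

namespace Run7.h753

universe u v w

/-- Transport along an isomorphism of base fields. -/
lemma transport_base {F : Type u} {G : Type v} {K : Type w} [Field F] [Field G] [Field K]
    [Algebra F K] (e : F ≃+* G) [hK : Algebra.EssFiniteType F K] {n : ℕ}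
    (htr : Algebra.trdeg F K = n) :
    ∃ (_ : Algebra G K), Algebra.EssFiniteType G K ∧ Algebra.trdeg G K = n := by
  let algFG : Algebra F G := (e : F →+* G).toAlgebra
  let algGK : Algebra G K := ((algebraMap F K).comp (e.symm : G →+* F)).toAlgebra
  have hFG : ∀ x, algebraMap F G x = e x := fun x => rfl
  have hGK : ∀ x, algebraMap G K x = algebraMap F K (e.symm x) := fun x => rfl
  have tower : IsScalarTower F G K := IsScalarTower.of_algebraMap_eq (fun x => by
    rw [hFG, hGK, RingEquiv.symm_apply_apply])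
  refine ⟨algGK, Algebra.EssFiniteType.of_comp F G K, ?_⟩
  have halg : Algebra.IsAlgebraic F G := by
    refine ⟨fun g => ?_⟩
    have : g = algebraMap F G (e.symm g) := by rw [hFG, RingEquiv.apply_symm_apply]
    rw [this]
    exact isAlgebraic_algebraMap _
  have h1 := _root_.lift_trdeg_add_eq F G K
  rw [_root_.trdeg_eq_zero (R := F) (A := G), Cardinal.lift_zero, zero_add, htr,
    Cardinal.lift_natCast] at h1
  exact Cardinal.lift_injective (by rw [h1, Cardinal.lift_natCast])

/-- The complex numbers are isomorphic to the algebraic closure of `ℂ(s)`. -/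
lemma exists_complex_K1 : Nonempty (ℂ ≃+* K1 ℂ) := by
  have hchar : CharZero (K1 ℂ) := by
    exact charZero_of_injective_algebraMap (algebraMap ℂ (K1 ℂ)).injective
  have hcard : #(K1 ℂ) = 𝔠 := by
    apply le_antisymm
    · have h1 : #(K1 ℂ) ≤ max #(RatFunc ℂ) ℵ₀ := Algebra.IsAlgebraic.cardinalMk_le_max _ _
      have h2 : #(RatFunc ℂ) = #(Polynomial ℂ) := IsFractionRing.cardinalMk (Polynomial ℂ) _
      have h3 : #(Polynomial ℂ) ≤ max #ℂ ℵ₀ := Polynomial.cardinalMk_le_max
      rw [h2] at h1
      rw [Cardinal.mk_complex] at h3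
      exact h1.trans (max_le (h3.trans (max_le le_rfl Cardinal.aleph0_le_continuum))
        Cardinal.aleph0_le_continuum)
    · rw [← Cardinal.mk_complex]
      exact Cardinal.mk_le_of_injective (algebraMap ℂ (K1 ℂ)).injective
  have hequiv : Nonempty (ℂ ≃ K1 ℂ) := by
    rw [← Cardinal.eq, hcard, Cardinal.mk_complex]
  exact IsAlgClosed.ringEquiv_of_equiv_of_charZero (K := ℂ) (L := K1 ℂ)
    (by rw [Cardinal.mk_complex]; exact Cardinal.aleph0_lt_continuum) hequiv

/-- The lower half: if all classes over a finitely generated field of transcendence degree `n`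
over `ℂ` are sums of `j` symbols then the same holds for `ℂ(x₁, …, xₙ)`. -/
theorem symLE_lower {p : ℕ} (hp : 0 < p) {K : Type u} [Field K] [Algebra ℂ K]
    [Algebra.EssFiniteType ℂ K] {n j : ℕ} (htr : Algebra.trdeg ℂ K = n) (h : SymLE p K j) :
    SymLE p (FractionRing (MvPolynomial (Fin n) ℂ)) j := by
  obtain ⟨V, inst, φ, ε, hφ, hφε, hε0, hVu, harch⟩ := exists_place_arch ℂ
  obtain ⟨e⟩ := exists_complex_K1
  have hchar : CharZero (K1 ℂ) := charZero_of_injective_algebraMap (algebraMap ℂ (K1 ℂ)).injective
  obtain ⟨alg, hess, htr'⟩ := transport_base (K := K) e htr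
  obtain ⟨D⟩ := exists_HD_of_field (K := K) ε hε0
    (fun e he => by obtain ⟨k, hk, -⟩ := harch e he; exact ⟨k, hk⟩) htr'
  exact D.symLE hp hφ hφε hVu harch h

/-- The main theorem. -/
theorem symLE_main {p : ℕ} (hp : p.Prime) {L : Type w} [Field L] [Algebra ℂ L]
    [Algebra.EssFiniteType ℂ L] {n k : ℕ} (hL : Algebra.trdeg ℂ L = (n + 1 : ℕ))
    (h : SymLE p L (k + 1))
    {κ : Type u} [Field κ] [IsAlgClosed κ] {K : Type v} [Field K] [Algebra κ K]
    (htr : Algebra.trdeg κ K ≤ n) : SymLE p K k :=
  symLE_upper hp (symLE_lower hp.pos hL h) htr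

end Run7.h753
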