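import Pool.Agent.Run7.h753.Basic

/-!
# Place data and the induced maps
-/

set_option autoImplicit false
open scoped TensorProduct

namespace Run7.h753

universe u v w w'

/-- Data describing a place of `L` with values in `E`, together with a complement `Γ` of the
units modulo things which become `p`-th powers. -/
structure PD (p : ℕ) (L : Type v) [Field L] (E : Type u) [Field E] (A : Type w) [CommRing A]
    (Γ : Type w') [CommGroup Γ] where
  i : A →+* L
  inj : Function.Injective i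
  θ : A →+* E
  ι : Γ →* Lˣ
  w : Γ →* Multiplicative ℤ
  dec : ∀ x : Lˣ, ∃ (γ : Γ) (s s' : A), θ s ≠ 0 ∧ θ s' ≠ 0 ∧ (x : L) * i s' = ι γ * i s
  ord : ∀ γ : Γ, (∃ a, (ι γ : L) = i a) ∨ (∃ a, ((ι γ⁻¹ : Lˣ) : L) = i a)
  unit : ∀ (γ : Γ) (s s' : A) (hs : θ s ≠ 0) (hs' : θ s' ≠ 0), (ι γ : L) * i s' = i s →
     cl p (Units.mk0 _ hs) = cl p (Units.mk0 _ hs') ∧ w γ = 1

namespace PD

variable {p : ℕ} {L : Type v} [Field L] {E : Type u} [Field E] {A : Type w} [CommRing A]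
    {Γ : Type w'} [CommGroup Γ] (D : PD p L E A Γ)

/-- class of the residue of an element -/
noncomputable def c (s : A) : Q p E :=
  open Classical in if h : D.θ s ≠ 0 then cl p (Units.mk0 _ h) else 0

lemma c_of_ne {s : A} (h : D.θ s ≠ 0) : D.c s = cl p (Units.mk0 _ h) := by
  unfold c; rw [dif_pos h]

lemma c_mul {s t : A} (hs : D.θ s ≠ 0) (ht : D.θ t ≠ 0) : D.c (s * t) = D.c s + D.c t := by
  have hst : D.θ (s * t) ≠ 0 := by rw [map_mul]; exact mul_ne_zero hs ht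
  rw [D.c_of_ne hs, D.c_of_ne ht, D.c_of_ne hst, ← cl_mul]
  congr 1
  ext
  simp

lemma θ_mul_ne {s t : A} (hs : D.θ s ≠ 0) (ht : D.θ t ≠ 0) : D.θ (s * t) ≠ 0 := by
  rw [map_mul]; exact mul_ne_zero hs ht

lemma unit' (γ : Γ) (s s' : A) (hs : D.θ s ≠ 0) (hs' : D.θ s' ≠ 0)
    (h : (D.ι γ : L) * D.i s' = D.i s) : D.c s = D.c s' ∧ D.w γ = 1 := by
  rw [D.c_of_ne hs, D.c_of_ne hs']
  exact D.unit γ s s' hs hs' h

lemma wd {x : Lˣ} {γ δ : Γ} {s s' t t' : A} (hs : D.θ s ≠ 0) (hs' : D.θ s' ≠ 0)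
    (ht : D.θ t ≠ 0) (ht' : D.θ t' ≠ 0) (h1 : (x : L) * D.i s' = D.ι γ * D.i s)
    (h2 : (x : L) * D.i t' = D.ι δ * D.i t) :
    D.c s - D.c s' = D.c t - D.c t' ∧ D.w γ = D.w δ := by
  have key : (D.ι (γ / δ) : L) * D.i (s * t') = D.i (t * s') := by
    have hδ : (D.ι δ : L) ≠ 0 := Units.ne_zero _
    rw [map_div, Units.val_div_eq_div_val, map_mul, map_mul]
    field_simp
    calc (D.ι γ : L) * D.i s * D.i t' = (x : L) * D.i s' * D.i t' := by rw [h1]
      _ = ((x : L) * D.i t') * D.i s' := by ring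
      _ = _ := by rw [h2]
  obtain ⟨e1, e2⟩ := D.unit' _ _ _ (D.θ_mul_ne ht hs') (D.θ_mul_ne hs ht') key
  rw [D.c_mul ht hs', D.c_mul hs ht'] at e1
  constructor
  · rw [sub_eq_sub_iff_add_eq_add]
    exact e1.symm
  · rw [map_div, div_eq_one] at e2
    exact e2

/-- chosen decomposition -/
noncomputable def γ (x : Lˣ) : Γ := (D.dec x).choose
/-- chosen decomposition -/
noncomputable def s (x : Lˣ) : A := (D.dec x).choose_spec.choose
/-- chosen decomposition -/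
noncomputable def s' (x : Lˣ) : A := (D.dec x).choose_spec.choose_spec.choose

lemma hs (x : Lˣ) : D.θ (D.s x) ≠ 0 := (D.dec x).choose_spec.choose_spec.choose_spec.1
lemma hs' (x : Lˣ) : D.θ (D.s' x) ≠ 0 := (D.dec x).choose_spec.choose_spec.choose_spec.2.1
lemma hx (x : Lˣ) : (x : L) * D.i (D.s' x) = D.ι (D.γ x) * D.i (D.s x) :=
  (D.dec x).choose_spec.choose_spec.choose_spec.2.2

/-- The homomorphism on units. -/
noncomputable def f : Additive Lˣ →+ Q p E :=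
  AddMonoidHom.mk' (fun x => D.c (D.s (Additive.toMul x)) - D.c (D.s' (Additive.toMul x))) (by
    intro x y
    have h1 := D.hx (Additive.toMul x)
    have h2 := D.hx (Additive.toMul y)
    have h3 := D.hx (Additive.toMul (x + y))
    have h4 : ((Additive.toMul (x + y) : Lˣ) : L) *
        D.i (D.s' (Additive.toMul x) * D.s' (Additive.toMul y))
        = D.ι (D.γ (Additive.toMul x) * D.γ (Additive.toMul y)) *
          D.i (D.s (Additive.toMul x) * D.s (Additive.toMul y)) := by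
      rw [toMul_add, map_mul, map_mul, map_mul, Units.val_mul, Units.val_mul]
      calc _ = ((Additive.toMul x : Lˣ) : L) * D.i (D.s' (Additive.toMul x)) *
            (((Additive.toMul y : Lˣ) : L) * D.i (D.s' (Additive.toMul y))) := by ring
        _ = _ := by rw [h1, h2]; ring
    have := (D.wd (D.hs _) (D.hs' _) (D.θ_mul_ne (D.hs _) (D.hs _))
      (D.θ_mul_ne (D.hs' _) (D.hs' _)) h3 h4).1
    rw [this, D.c_mul (D.hs _) (D.hs _), D.c_mul (D.hs' _) (D.hs' _)]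
    abel)

/-- The integer valued homomorphism on units. -/
noncomputable def v : Additive Lˣ →+ ℤ :=
  AddMonoidHom.mk' (fun x => Multiplicative.toAdd (D.w (D.γ (Additive.toMul x)))) (by
    intro x y
    have h1 := D.hx (Additive.toMul x)
    have h2 := D.hx (Additive.toMul y)
    have h3 := D.hx (Additive.toMul (x + y))
    have h4 : ((Additive.toMul (x + y) : Lˣ) : L) *
        D.i (D.s' (Additive.toMul x) * D.s' (Additive.toMul y))
        = D.ι (D.γ (Additive.toMul x) * D.γ (Additive.toMul y)) *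
          D.i (D.s (Additive.toMul x) * D.s (Additive.toMul y)) := by
      rw [toMul_add, map_mul, map_mul, map_mul, Units.val_mul, Units.val_mul]
      calc _ = ((Additive.toMul x : Lˣ) : L) * D.i (D.s' (Additive.toMul x)) *
            (((Additive.toMul y : Lˣ) : L) * D.i (D.s' (Additive.toMul y))) := by ring
        _ = _ := by rw [h1, h2]; ring
    have := (D.wd (D.hs _) (D.hs' _) (D.θ_mul_ne (D.hs _) (D.hs _))
      (D.θ_mul_ne (D.hs' _) (D.hs' _)) h3 h4).2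
    rw [this, map_mul]
    rfl)

lemma f_eq {x : Lˣ} {γ : Γ} {s s' : A} (hs : D.θ s ≠ 0) (hs' : D.θ s' ≠ 0)
    (h : (x : L) * D.i s' = D.ι γ * D.i s) : D.f (Additive.ofMul x) = D.c s - D.c s' :=
  (D.wd (D.hs x) (D.hs' x) hs hs' (D.hx x) h).1

lemma v_eq {x : Lˣ} {γ : Γ} {s s' : A} (hs : D.θ s ≠ 0) (hs' : D.θ s' ≠ 0)
    (h : (x : L) * D.i s' = D.ι γ * D.i s) :
    D.v (Additive.ofMul x) = Multiplicative.toAdd (D.w γ) :=
  congrArg Multiplicative.toAdd (D.wd (D.hs x) (D.hs' x) hs hs' (D.hx x) h).2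

/-- divisibility preorder on `Γ` -/
def le (γ δ : Γ) : Prop := ∃ a, (D.ι (γ / δ) : L) = D.i a

lemma le_total (γ δ : Γ) : D.le γ δ ∨ D.le δ γ := by
  rcases D.ord (γ / δ) with h | h
  · exact Or.inl h
  · right
    unfold le
    rwa [inv_div] at h

lemma le_refl (γ : Γ) : D.le γ γ := ⟨1, by simp⟩

lemma le_trans {γ δ ε : Γ} (h1 : D.le γ δ) (h2 : D.le δ ε) : D.le γ ε := by
  obtain ⟨a, ha⟩ := h1
  obtain ⟨b, hb⟩ := h2
  refine ⟨a * b, ?_⟩
  rw [map_mul, ← ha, ← hb, ← Units.val_mul, ← map_mul]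
  simp

lemma exists_max (γ₁ γ₂ γ₃ : Γ) : ∃ μ : Γ, (μ = γ₁ ∨ μ = γ₂ ∨ μ = γ₃) ∧
    D.le γ₁ μ ∧ D.le γ₂ μ ∧ D.le γ₃ μ := by
  rcases D.le_total γ₁ γ₂ with h | h
  · rcases D.le_total γ₂ γ₃ with h' | h'
    · exact ⟨γ₃, by simp, D.le_trans h h', h', D.le_refl _⟩
    · exact ⟨γ₂, by simp, h, D.le_refl _, h'⟩
  · rcases D.le_total γ₁ γ₃ with h' | h'
    · exact ⟨γ₃, by simp, h', D.le_trans h h', D.le_refl _⟩
    · exact ⟨γ₁, by simp, D.le_refl _, h, h'⟩

/-- The basic trichotomy lemma. -/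
lemma tri (hn : NegOne p E) {γ₁ γ₂ γ₃ : Γ} {S₁ S₂ S₃ : A} (h1 : D.θ S₁ ≠ 0) (h2 : D.θ S₂ ≠ 0)
    (h3 : D.θ S₃ ≠ 0)
    (h : (D.ι γ₁ : L) * D.i S₁ + D.ι γ₂ * D.i S₂ = D.ι γ₃ * D.i S₃) :
    symQ p E (D.c S₁ - D.c S₃) (D.c S₂ - D.c S₃) = 0 ∧
    (Multiplicative.toAdd (D.w γ₂) - Multiplicative.toAdd (D.w γ₃)) • (D.c S₁ - D.c S₃)
     - (Multiplicative.toAdd (D.w γ₁) - Multiplicative.toAdd (D.w γ₃)) • (D.c S₂ - D.c S₃) = 0 := by
  obtain ⟨μ, hμ, ⟨a₁, ha₁⟩, ⟨a₂, ha₂⟩, ⟨a₃, ha₃⟩⟩ := D.exists_max γ₁ γ₂ γ₃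
  -- nonzero residues are classes of `p`-th powers
  have key : ∀ (δ : Γ) (a : A), (D.ι (δ / μ) : L) = D.i a → ∀ h : D.θ a ≠ 0,
      D.c a = 0 ∧ D.w δ = D.w μ := by
    intro δ a ha hne
    have h1' : D.θ 1 ≠ 0 := by simp
    have := D.unit' (δ / μ) a 1 hne h1' (by rw [map_one, mul_one]; exact ha)
    refine ⟨?_, ?_⟩
    · rw [this.1, D.c_of_ne h1']
      have : Units.mk0 (D.θ 1) h1' = 1 := by ext; simp
      rw [this, cl_one]
    · have h2' := this.2
      rw [map_div, div_eq_one] at h2'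
      exact h2'
  have hone : ∀ (a : A), (D.ι (μ / μ) : L) = D.i a → D.θ a ≠ 0 := by
    intro a ha
    rw [div_self', map_one, Units.val_one] at ha
    have : a = 1 := D.inj (by rw [← ha, map_one])
    rw [this, map_one]
    exact one_ne_zero
  have hA : a₁ * S₁ + a₂ * S₂ = a₃ * S₃ := by
    apply D.inj
    rw [map_add, map_mul, map_mul, map_mul, ← ha₁, ← ha₂, ← ha₃]
    simp only [map_div, Units.val_div_eq_div_val]
    have hμ0 : (D.ι μ : L) ≠ 0 := Units.ne_zero _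
    field_simp
    exact h
  have hθ : D.θ a₁ * D.θ S₁ + D.θ a₂ * D.θ S₂ = D.θ a₃ * D.θ S₃ := by
    rw [← map_mul, ← map_mul, ← map_mul, ← map_add, hA]
  have hnot : D.θ a₁ ≠ 0 ∨ D.θ a₂ ≠ 0 ∨ D.θ a₃ ≠ 0 := by
    rcases hμ with rfl | rfl | rfl
    · exact Or.inl (hone _ ha₁)
    · exact Or.inr (Or.inl (hone _ ha₂))
    · exact Or.inr (Or.inr (hone _ ha₃))
  by_cases b1 : D.θ a₁ = 0
  · -- the second and third have equal class
    rw [b1, zero_mul, zero_add] at hθ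
    have b2 : D.θ a₂ ≠ 0 := by
      intro b2
      rw [b2, zero_mul] at hθ
      have b3 : D.θ a₃ = 0 := by
        rcases mul_eq_zero.mp hθ.symm with h' | h'
        · exact h'
        · exact absurd h' h3
      simp [b1, b2, b3] at hnot
    have b3 : D.θ a₃ ≠ 0 := by
      intro b3
      rw [b3, zero_mul] at hθ
      exact (mul_ne_zero b2 h2) hθ
    obtain ⟨c2, w2⟩ := key _ _ ha₂ b2
    obtain ⟨c3, w3⟩ := key _ _ ha₃ b3
    have e : D.c S₂ = D.c S₃ := by
      have e1 : D.c (a₂ * S₂) = D.c (a₃ * S₃) := by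
        rw [D.c_of_ne (D.θ_mul_ne b2 h2), D.c_of_ne (D.θ_mul_ne b3 h3)]
        congr 1
        ext
        simp only [Units.val_mk0, map_mul]
        exact hθ
      rwa [D.c_mul b2 h2, D.c_mul b3 h3, c2, c3, zero_add, zero_add] at e1
    rw [e, w2, w3]
    simp
  by_cases b2 : D.θ a₂ = 0
  · rw [b2, zero_mul, add_zero] at hθ
    have b3 : D.θ a₃ ≠ 0 := by
      intro b3
      rw [b3, zero_mul] at hθ
      exact (mul_ne_zero b1 h1) hθ
    obtain ⟨c1, w1⟩ := key _ _ ha₁ b1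
    obtain ⟨c3, w3⟩ := key _ _ ha₃ b3
    have e : D.c S₁ = D.c S₃ := by
      have e1 : D.c (a₁ * S₁) = D.c (a₃ * S₃) := by
        rw [D.c_of_ne (D.θ_mul_ne b1 h1), D.c_of_ne (D.θ_mul_ne b3 h3)]
        congr 1
        ext
        simp only [Units.val_mk0, map_mul]
        exact hθ
      rwa [D.c_mul b1 h1, D.c_mul b3 h3, c1, c3, zero_add, zero_add] at e1
    rw [e, w1, w3]
    simp
  obtain ⟨c1, w1⟩ := key _ _ ha₁ b1
  obtain ⟨c2, w2⟩ := key _ _ ha₂ b2
  by_cases b3 : D.θ a₃ = 0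
  · rw [b3, zero_mul] at hθ
    have e : D.c S₁ = D.c S₂ := by
      have e1 : D.c (a₁ * S₁) = D.c (a₂ * S₂) := by
        rw [D.c_of_ne (D.θ_mul_ne b1 h1), D.c_of_ne (D.θ_mul_ne b2 h2), ← cl_neg hn]
        congr 1
        ext
        simp only [Units.val_mk0, Units.val_neg, map_mul]
        linear_combination -hθ
      rwa [D.c_mul b1 h1, D.c_mul b2 h2, c1, c2, zero_add, zero_add] at e1
    rw [e, w1, w2]
    refine ⟨symQ_self hn _, ?_⟩
    simp
  · obtain ⟨c3, w3⟩ := key _ _ ha₃ b3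
    refine ⟨?_, by rw [w1, w2, w3]; simp⟩
    have hne : D.θ a₃ * D.θ S₃ ≠ 0 := mul_ne_zero b3 h3
    have u1 := D.c_of_ne (D.θ_mul_ne b1 h1)
    have u2 := D.c_of_ne (D.θ_mul_ne b2 h2)
    have u3 := D.c_of_ne (D.θ_mul_ne b3 h3)
    rw [D.c_mul b1 h1, c1, zero_add] at u1
    rw [D.c_mul b2 h2, c2, zero_add] at u2
    rw [D.c_mul b3 h3, c3, zero_add] at u3
    rw [u1, u2, u3]
    have e1 : cl p (Units.mk0 _ (D.θ_mul_ne b1 h1)) - cl p (Units.mk0 _ (D.θ_mul_ne b3 h3))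
        = cl p (Units.mk0 _ (D.θ_mul_ne b1 h1) / Units.mk0 _ (D.θ_mul_ne b3 h3)) := by
      rw [div_eq_mul_inv, cl_mul, cl_inv, sub_eq_add_neg]
    have e2 : cl p (Units.mk0 _ (D.θ_mul_ne b2 h2)) - cl p (Units.mk0 _ (D.θ_mul_ne b3 h3))
        = cl p (Units.mk0 _ (D.θ_mul_ne b2 h2) / Units.mk0 _ (D.θ_mul_ne b3 h3)) := by
      rw [div_eq_mul_inv, cl_mul, cl_inv, sub_eq_add_neg]
    rw [e1, e2, symQ_cl]
    apply sym_steinberg
    simp only [Units.val_div_eq_div_val, Units.val_mk0, map_mul]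
    rw [← add_div, hθ, div_self hne]

lemma st_aux (hn : NegOne p E) {x y : Lˣ} (h : (x : L) + y = 1) :
    symQ p E (D.f (Additive.ofMul x)) (D.f (Additive.ofMul y)) = 0 ∧
    D.v (Additive.ofMul y) • D.f (Additive.ofMul x)
      - D.v (Additive.ofMul x) • D.f (Additive.ofMul y) = 0 := by
  have h1 := D.hx x
  have h2 := D.hx y
  have s1 := D.hs x
  have s1' := D.hs' x
  have s2 := D.hs y
  have s2' := D.hs' y
  have := D.tri hn (γ₁ := D.γ x) (γ₂ := D.γ y) (γ₃ := 1) (S₁ := D.s x * D.s' y)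
    (S₂ := D.s y * D.s' x) (S₃ := D.s' x * D.s' y) (D.θ_mul_ne s1 s2') (D.θ_mul_ne s2 s1')
    (D.θ_mul_ne s1' s2') (by
      rw [map_one, Units.val_one, one_mul, map_mul, map_mul, map_mul]
      calc _ = (D.ι (D.γ x) : L) * D.i (D.s x) * D.i (D.s' y)
            + D.ι (D.γ y) * D.i (D.s y) * D.i (D.s' x) := by ring
        _ = ((x : L) + y) * (D.i (D.s' x) * D.i (D.s' y)) := by rw [← h1, ← h2]; ring
        _ = _ := by rw [h, one_mul])
  have e1 : D.c (D.s x * D.s' y) - D.c (D.s' x * D.s' y) = D.f (Additive.ofMul x) := by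
    rw [D.c_mul s1 s2', D.c_mul s1' s2', D.f_eq s1 s1' h1]; abel
  have e2 : D.c (D.s y * D.s' x) - D.c (D.s' x * D.s' y) = D.f (Additive.ofMul y) := by
    rw [D.c_mul s2 s1', D.c_mul s1' s2', D.f_eq s2 s2' h2]; abel
  rw [e1, e2, map_one, toAdd_one, sub_zero, sub_zero] at this
  rw [D.v_eq s1 s1' h1, D.v_eq s2 s2' h2]
  exact this

/-- The associated specialisation. -/
noncomputable def spec (hn : NegOne p E) : Spec p L E where
  f := D.f
  st _ _ h := (D.st_aux hn h).1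

/-- The associated residue map. -/
noncomputable def res (hn : NegOne p E) : Kp p L →+ Q p E :=
  liftKp (AddMonoidHom.mk' (fun x => AddMonoidHom.mk' (fun y => D.v y • D.f x - D.v x • D.f y)
      (by intro y z; rw [map_add, map_add, add_smul, smul_add]; abel))
      (by
        intro x y
        refine AddMonoidHom.ext fun z => ?_
        change D.v z • D.f (x + y) - D.v (x + y) • D.f z = (D.v z • D.f x - D.v x • D.f z)
          + (D.v z • D.f y - D.v y • D.f z)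
        rw [map_add, map_add, add_smul, smul_add]; abel))
    p_nsmul_Q (fun a b h => (D.st_aux hn h).2)

lemma res_sym (hn : NegOne p E) (x y : Lˣ) : D.res hn (sym p x y)
    = D.v (Additive.ofMul y) • D.f (Additive.ofMul x)
      - D.v (Additive.ofMul x) • D.f (Additive.ofMul y) := rfl

lemma spec_sym (hn : NegOne p E) (x y : Lˣ) : (D.spec hn).map (sym p x y)
    = symQ p E (D.f (Additive.ofMul x)) (D.f (Additive.ofMul y)) := rfl

end PD

end Run7.h753
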