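import Pool.Agent.Run7.h753.PD

/-!
# Transfer of symbol length bounds along places
-/

set_option autoImplicit false
open scoped TensorProduct

namespace Run7.h753

universe u v w w' u'

namespace PD

variable {p : ℕ} {L : Type v} [Field L] {E : Type u} [Field E] {A : Type w} [CommRing A]
    {Γ : Type w'} [CommGroup Γ] (D : PD p L E A Γ)

/-- Surjectivity of the residue map on units. -/
def Surj : Prop := ∀ e : Eˣ, ∃ s s' : A, D.θ s ≠ 0 ∧ D.θ s' ≠ 0 ∧ (e : E) * D.θ s' = D.θ s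

lemma i_ne {s : A} (h : D.θ s ≠ 0) : D.i s ≠ 0 := by
  intro h0
  apply h
  have : s = 0 := D.inj (by rw [h0, map_zero])
  rw [this, map_zero]

lemma f_of_A {x : Lˣ} {s s' : A} (hs : D.θ s ≠ 0) (hs' : D.θ s' ≠ 0)
    (h : (x : L) * D.i s' = D.i s) : D.f (Additive.ofMul x) = D.c s - D.c s' ∧
    D.v (Additive.ofMul x) = 0 := by
  have h' : (x : L) * D.i s' = D.ι 1 * D.i s := by rw [map_one, Units.val_one, one_mul, h]
  refine ⟨D.f_eq hs hs' h', ?_⟩
  rw [D.v_eq hs hs' h', map_one]; rfl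

lemma lift_unit (hsurj : D.Surj) (e : Eˣ) :
    ∃ x : Lˣ, D.f (Additive.ofMul x) = cl p e ∧ D.v (Additive.ofMul x) = 0 := by
  obtain ⟨s, s', hs, hs', h⟩ := hsurj e
  refine ⟨Units.mk0 _ (D.i_ne hs) / Units.mk0 _ (D.i_ne hs'), ?_⟩
  have h1 : ((Units.mk0 _ (D.i_ne hs) / Units.mk0 _ (D.i_ne hs') : Lˣ) : L) * D.i s' = D.i s := by
    rw [Units.val_div_eq_div_val, Units.val_mk0, Units.val_mk0, div_mul_cancel₀ _ (D.i_ne hs')]
  obtain ⟨h2, h3⟩ := D.f_of_A hs hs' h1
  refine ⟨?_, h3⟩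
  rw [h2, D.c_of_ne hs, D.c_of_ne hs', sub_eq_iff_eq_add, ← cl_mul]
  congr 1
  ext
  simp [h]

lemma lift_K (hn : NegOne p E) (hsurj : D.Surj) (y : Kp p E) :
    ∃ x : Kp p L, (D.spec hn).map x = y ∧ D.res hn x = 0 := by
  induction y using Kp_induction with
  | h0 => exact ⟨0, by simp, by simp⟩
  | hs a b =>
    obtain ⟨x, hx, hx'⟩ := D.lift_unit hsurj a
    obtain ⟨z, hz, hz'⟩ := D.lift_unit hsurj b
    refine ⟨sym p x z, ?_, ?_⟩
    · rw [D.spec_sym, hx, hz, symQ_cl]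
    · rw [D.res_sym, hx', hz', zero_smul, zero_smul, sub_zero]
  | ha x y hx hy =>
    obtain ⟨x', h1, h2⟩ := hx
    obtain ⟨y', h3, h4⟩ := hy
    exact ⟨x' + y', by rw [map_add, h1, h3], by rw [map_add, h2, h4, add_zero]⟩

/-- Transfer of symbol length bounds along a place. -/
theorem symLE (hn : NegOne p E) (hsurj : D.Surj) {k : ℕ} (h : SymLE p L k) : SymLE p E k := by
  rw [symLE_iff] at h ⊢
  intro y
  obtain ⟨x, hx, -⟩ := D.lift_K hn hsurj y
  obtain ⟨a, b, hab⟩ := h x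
  choose g hg using fun q : Q p E => cl_surj q
  refine ⟨fun i => g (D.f (Additive.ofMul (a i))), fun i => g (D.f (Additive.ofMul (b i))), ?_⟩
  rw [← hx, hab, map_sum]
  refine Finset.sum_congr rfl fun i _ => ?_
  rw [D.spec_sym, ← symQ_cl, hg, hg]

lemma zsmul_of_dvd {G : Type*} [AddCommGroup G] (hG : ∀ g : G, p • g = 0) {n : ℤ} (h : (p : ℤ) ∣ n)
    (g : G) : n • g = 0 := by
  obtain ⟨m, rfl⟩ := h
  rw [mul_comm, mul_smul, natCast_zsmul, hG, smul_zero]

lemma symQ_zsmul_left (n : ℤ) (x y : Q p E) : symQ p E (n • x) y = n • symQ p E x y := by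
  rw [map_zsmul, AddMonoidHom.zsmul_apply]

lemma symQ_zsmul_right (n : ℤ) (x y : Q p E) : symQ p E x (n • y) = n • symQ p E x y := by
  rw [map_zsmul]

lemma symQ_sub_left (x y z : Q p E) : symQ p E (x - y) z = symQ p E x z - symQ p E y z := by
  rw [map_sub, AddMonoidHom.sub_apply]

lemma normal (hp : p.Prime) (hn : NegOne p E) (α β : Q p E) (na nb : ℤ) :
    ∃ (A B : Q p E) (n : ℤ), (n = 0 ∨ n = 1) ∧ symQ p E α β = symQ p E A B ∧
      nb • α - na • β = n • A := by
  have inv : ∀ n : ℤ, ¬ (p : ℤ) ∣ n → ∃ m r : ℤ, m * n = 1 + r * p := by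
    intro n h
    have hcop : IsCoprime (p : ℤ) n :=
      (Prime.coprime_iff_not_dvd (Nat.prime_iff_prime_int.mp hp)).mpr h
    obtain ⟨a, b, hab⟩ := hcop
    exact ⟨b, -a, by linear_combination hab⟩
  by_cases hb : (p : ℤ) ∣ nb
  · by_cases ha : (p : ℤ) ∣ na
    · refine ⟨α, β, 0, Or.inl rfl, rfl, ?_⟩
      rw [zsmul_of_dvd p_nsmul_Q hb, zsmul_of_dvd p_nsmul_Q ha]; simp
    · obtain ⟨m, r, hm⟩ := inv na ha
      refine ⟨nb • α - na • β, m • α, 1, Or.inr rfl, ?_, by rw [one_smul]⟩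
      rw [symQ_sub_left, symQ_zsmul_left, symQ_zsmul_left, symQ_zsmul_right, symQ_zsmul_right,
        symQ_self hn, smul_zero, smul_zero,
        zero_sub, symQ_swap hn β α, smul_neg, smul_neg, neg_neg, ← mul_smul, mul_comm, hm,
        add_smul, one_smul, mul_smul, natCast_zsmul, p_nsmul_Kp, smul_zero, add_zero]
  · obtain ⟨m, r, hm⟩ := inv nb hb
    refine ⟨nb • α - na • β, m • β, 1, Or.inr rfl, ?_, by rw [one_smul]⟩
    rw [symQ_sub_left, symQ_zsmul_left, symQ_zsmul_left, symQ_zsmul_right, symQ_zsmul_right,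
      symQ_self hn, smul_zero, smul_zero, sub_zero, ← mul_smul, mul_comm, hm,
      add_smul, one_smul, mul_smul, natCast_zsmul, p_nsmul_Kp, smul_zero, add_zero]

/-- The tame lemma: modulo an arbitrary nonzero class `χ`, one symbol is saved. -/
theorem tame (hp : p.Prime) (hn : NegOne p E) (hsurj : D.Surj) {k : ℕ} (h : SymLE p L (k + 1))
    (π : Lˣ) (hπ : D.f (Additive.ofMul π) = 0) (hπ' : D.v (Additive.ofMul π) = 1)
    (α : Kp p E) (χ : Q p E) (hχ : χ ≠ 0) :
    ∃ (c : Q p E) (a b : Fin k → Q p E), α = symQ p E χ c + ∑ i, symQ p E (a i) (b i) := by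
  obtain ⟨e, rfl⟩ := cl_surj χ
  obtain ⟨x, hx, hx'⟩ := D.lift_K hn hsurj α
  obtain ⟨X, hX, hX'⟩ := D.lift_unit hsurj e
  obtain ⟨a, b, hab⟩ := (symLE_iff.mp h) (x + sym p X π)
  choose A B n hn01 hAB hA using fun i : Fin (k + 1) => normal hp hn (D.f (Additive.ofMul (a i)))
    (D.f (Additive.ofMul (b i))) (D.v (Additive.ofMul (a i))) (D.v (Additive.ofMul (b i)))
  have h1 : α = ∑ i, symQ p E (A i) (B i) := by
    have := congrArg (D.spec hn).map hab
    rw [map_add, hx, D.spec_sym, hπ, map_zero, add_zero, map_sum] at this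
    rw [this]
    refine Finset.sum_congr rfl fun i _ => ?_
    rw [D.spec_sym, hAB]
  have h2 : cl p e = ∑ i, n i • A i := by
    have := congrArg (D.res hn) hab
    rw [map_add, hx', D.res_sym, hπ, hπ', hX', hX, map_sum, one_smul, zero_smul, sub_zero,
      zero_add] at this
    rw [this]
    refine Finset.sum_congr rfl fun i _ => ?_
    rw [D.res_sym, hA]
  have h3 : ∃ i0, n i0 = 1 := by
    by_contra hcon
    push Not at hcon
    apply hχ
    rw [h2]
    refine Finset.sum_eq_zero fun i _ => ?_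
    rcases hn01 i with h0 | h1'
    · rw [h0, zero_smul]
    · exact absurd h1' (hcon i)
  obtain ⟨i0, hi0⟩ := h3
  refine ⟨B i0, fun j => A (i0.succAbove j), fun j => B (i0.succAbove j)
    - n (i0.succAbove j) • B i0, ?_⟩
  have h4 : α = symQ p E (cl p e) (B i0) + ∑ i, symQ p E (A i) (B i - n i • B i0) := by
    rw [h2, map_sum, AddMonoidHom.finsetSum_apply, ← Finset.sum_add_distrib, h1]
    refine Finset.sum_congr rfl fun i _ => ?_
    rw [map_zsmul, AddMonoidHom.zsmul_apply, map_sub, map_zsmul]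
    abel
  rw [h4, Fin.sum_univ_succAbove _ i0, hi0, one_smul, sub_self, map_zero, zero_add]

end PD

/-- Combination of the tame lemma with a specialisation killing the class `χ`. -/
theorem symLE_of_tame {p : ℕ} {L : Type v} [Field L] {E : Type u} [Field E] {A : Type w}
    [CommRing A] {Γ : Type w'} [CommGroup Γ] (D : PD p L E A Γ) {K : Type u'} [Field K]
    (hp : p.Prime) (hn : NegOne p E) (hsurj : D.Surj) {k : ℕ} (h : SymLE p L (k + 1))
    (π : Lˣ) (hπ : D.f (Additive.ofMul π) = 0) (hπ' : D.v (Additive.ofMul π) = 1)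
    (j : K →+* E) (g : Spec p E K)
    (hgj : ∀ a : Kˣ, g.f (Additive.ofMul (Units.map (j : K →* E) a)) = cl p a)
    (X : Eˣ) (hX : cl p X ≠ 0) (hgX : g.f (Additive.ofMul X) = 0) :
    SymLE p K k := by
  rw [symLE_iff]
  intro y
  obtain ⟨c, a, b, hab⟩ := D.tame hp hn hsurj h π hπ hπ' ((Spec.ofRingHom p j).map y) _ hX
  choose l hl using fun q : Q p E => cl_surj q
  choose g' hg' using fun q : Q p K => cl_surj q
  refine ⟨fun i => g' (g.f (Additive.ofMul (l (a i)))),
    fun i => g' (g.f (Additive.ofMul (l (b i)))), ?_⟩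
  have key : ∀ z : Kp p K, g.map ((Spec.ofRingHom p j).map z) = z := by
    intro z
    induction z using Kp_induction with
    | h0 => simp
    | hs a b => rw [Spec.ofRingHom_sym, Spec.map_sym, hgj, hgj, symQ_cl]
    | ha x y hx hy => rw [map_add, map_add, hx, hy]
  have h1 := congrArg g.map hab
  rw [key, map_add, map_sum] at h1
  rw [h1]
  have h2 : g.map (symQ p E (cl p X) c) = 0 := by
    rw [← hl c, symQ_cl, Spec.map_sym, hgX, map_zero]; rfl
  rw [h2, zero_add]
  refine Finset.sum_congr rfl fun i _ => ?_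
  rw [← symQ_cl, hg', hg']
  conv_lhs => rw [← hl (a i), ← hl (b i), symQ_cl, Spec.map_sym]

end Run7.h753
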